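import Mathlib

/-!
Two weight theorem for positive dyadic operators on an abstract (finite depth) grid,
with an elementary proof by summation by parts along the branches of the grid.
-/

set_option autoImplicit false

open MeasureTheory
open scoped ENNReal NNReal

namespace Pool.Agent.Bergman

/-! ### Cauchy-Schwarz for the lower integral -/

theorem cs_sq {X : Type*} [MeasurableSpace X] (m : Measure X) {u v : X → ℝ≥0∞}
    (hu : AEMeasurable u m) (hv : AEMeasurable v m) :
    (∫⁻ x, u x * v x ∂m) ^ 2 ≤ (∫⁻ x, u x ^ 2 ∂m) * (∫⁻ x, v x ^ 2 ∂m) := by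
  have hpq : Real.HolderConjugate 2 2 := by
    rw [Real.holderConjugate_iff]; norm_num
  have h := ENNReal.lintegral_mul_le_Lp_mul_Lq m hpq hu hv
  have h1 : (∫⁻ x, u x * v x ∂m) ≤
      (∫⁻ x, u x ^ 2 ∂m) ^ (1 / (2:ℝ)) * (∫⁻ x, v x ^ 2 ∂m) ^ (1 / (2:ℝ)) := by
    simpa [Pi.mul_apply] using h
  calc (∫⁻ x, u x * v x ∂m) ^ 2
      ≤ ((∫⁻ x, u x ^ 2 ∂m) ^ (1 / (2:ℝ)) * (∫⁻ x, v x ^ 2 ∂m) ^ (1 / (2:ℝ))) ^ 2 := by
        gcongr
    _ = (∫⁻ x, u x ^ 2 ∂m) * (∫⁻ x, v x ^ 2 ∂m) := by
        rw [mul_pow, ← ENNReal.rpow_natCast, ← ENNReal.rpow_natCast, ← ENNReal.rpow_mul,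
          ← ENNReal.rpow_mul]
        norm_num

/-! ### increments of a sequence -/

/-- increments of a sequence -/
noncomputable def dl (u : ℕ → ℝ≥0∞) : ℕ → ℝ≥0∞
  | 0 => u 0
  | (m+1) => u (m+1) - u m

theorem sum_dl {u : ℕ → ℝ≥0∞} (hu : Monotone u) (n : ℕ) :
    ∑ m ∈ Finset.range (n+1), dl u m = u n := by
  induction n with
  | zero => simp [dl]
  | succ n ih =>
    rw [Finset.sum_range_succ, ih]
    simp only [dl]
    exact add_tsub_cancel_of_le (hu (Nat.le_succ n))

theorem mul_le_sum_dl {u v : ℕ → ℝ≥0∞} (hu : Monotone u) (hv : Monotone v) (n : ℕ) :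
    u n * v n ≤ ∑ m ∈ Finset.range (n+1), (dl u m * v m + dl v m * u m) := by
  induction n with
  | zero => simp [dl]
  | succ n ih =>
    rw [Finset.sum_range_succ]
    have h1 : u (n+1) = u n + dl u (n+1) := by
      simp only [dl]; exact (add_tsub_cancel_of_le (hu (Nat.le_succ n))).symm
    have h2 : v (n+1) = v n + dl v (n+1) := by
      simp only [dl]; exact (add_tsub_cancel_of_le (hv (Nat.le_succ n))).symm
    calc u (n+1) * v (n+1) = (u n + dl u (n+1)) * v (n+1) := by rw [← h1]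
      _ = u n * v (n+1) + dl u (n+1) * v (n+1) := by ring
      _ = u n * (v n + dl v (n+1)) + dl u (n+1) * v (n+1) := by rw [← h2]
      _ = u n * v n + (dl u (n+1) * v (n+1) + dl v (n+1) * u n) := by ring
      _ ≤ _ := by
        gcongr
        exact hu (Nat.le_succ n)

/-- triangular interchange -/
theorem sum_mul_le_tri {t u v : ℕ → ℝ≥0∞} (hu : Monotone u) (hv : Monotone v) (N : ℕ) :
    ∑ n ∈ Finset.range N, t n * (u n * v n) ≤
      ∑ m ∈ Finset.range N, (dl u m * v m) * (∑ n ∈ Finset.Ico m N, t n)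
      + ∑ m ∈ Finset.range N, (dl v m * u m) * (∑ n ∈ Finset.Ico m N, t n) := by
  calc ∑ n ∈ Finset.range N, t n * (u n * v n)
      ≤ ∑ n ∈ Finset.range N, t n * ∑ m ∈ Finset.range (n+1), (dl u m * v m + dl v m * u m) := by
        gcongr with n hn
        exact mul_le_sum_dl hu hv n
    _ = ∑ n ∈ Finset.range N, ∑ m ∈ Finset.range (n+1), t n * (dl u m * v m + dl v m * u m) := by
        simp_rw [Finset.mul_sum]
    _ = ∑ m ∈ Finset.range N, ∑ n ∈ Finset.Ico m N, t n * (dl u m * v m + dl v m * u m) := by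
        apply Finset.sum_comm'
        intro x y
        simp only [Finset.mem_range, Finset.mem_Ico]
        omega
    _ = ∑ m ∈ Finset.range N, ((dl u m * v m) * (∑ n ∈ Finset.Ico m N, t n)
          + (dl v m * u m) * (∑ n ∈ Finset.Ico m N, t n)) := by
        refine Finset.sum_congr rfl fun m _ => ?_
        rw [← Finset.sum_mul]; ring
    _ = _ := by rw [Finset.sum_add_distrib]

/-! ### grids -/

/-- An abstract grid : a decreasing sequence of sets `D n`, each partitioned into cells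
according to the value of `idx n`, with nested cells. -/
structure Grid (X : Type*) [MeasurableSpace X] where
  D : ℕ → Set X
  idx : ℕ → X → ℤ
  measD : ∀ n, MeasurableSet (D n)
  measIdx : ∀ n, Measurable (idx n)
  nest : ∀ n x y, x ∈ D (n+1) → y ∈ D (n+1) → idx (n+1) x = idx (n+1) y →
    x ∈ D n ∧ y ∈ D n ∧ idx n x = idx n y

namespace Grid

variable {X : Type*} [MeasurableSpace X] (G : Grid X)

/-- `x` and `y` lie in one cell of level `n` -/
def Rel (n : ℕ) (x y : X) : Prop := x ∈ G.D n ∧ y ∈ G.D n ∧ G.idx n x = G.idx n y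

/-- the cell of level `n` containing `x` (empty if `x` is not in `D n`) -/
def cell (n : ℕ) (x : X) : Set X := {y | G.Rel n x y}

variable {G}

theorem Rel.symm {n : ℕ} {x y : X} (h : G.Rel n x y) : G.Rel n y x :=
  ⟨h.2.1, h.1, h.2.2.symm⟩

theorem Rel.trans {n : ℕ} {x y z : X} (h : G.Rel n x y) (h' : G.Rel n y z) : G.Rel n x z :=
  ⟨h.1, h'.2.1, h.2.2.trans h'.2.2⟩

theorem Rel.down {n m : ℕ} (hmn : m ≤ n) {x y : X} (h : G.Rel n x y) : G.Rel m x y := by
  induction n with
  | zero => obtain rfl : m = 0 := by omega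
            exact h
  | succ n ih =>
    rcases Nat.lt_or_ge m (n+1) with h1 | h1
    · exact ih (by omega) (G.nest n x y h.1 h.2.1 h.2.2)
    · obtain rfl : m = n+1 := by omega
      exact h

theorem Rel.cell_eq {n : ℕ} {x y : X} (h : G.Rel n x y) : G.cell n x = G.cell n y := by
  ext z
  exact ⟨fun hz => h.symm.trans hz, fun hz => h.trans hz⟩

theorem self_mem_cell {n : ℕ} {x : X} (hx : x ∈ G.D n) : x ∈ G.cell n x := ⟨hx, hx, rfl⟩

theorem cell_subset {n m : ℕ} (hmn : m ≤ n) (x : X) : G.cell n x ⊆ G.cell m x :=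
  fun _ hy => Rel.down hmn hy

theorem D_subset {n m : ℕ} (hmn : m ≤ n) : G.D n ⊆ G.D m :=
  fun _ hx => (Rel.down hmn (self_mem_cell hx)).1

theorem cell_empty {n : ℕ} {x : X} (hx : x ∉ G.D n) : G.cell n x = ∅ := by
  ext y; simp only [cell, Set.mem_ofPred_eq, Set.mem_empty_iff_false, iff_false]
  exact fun h => hx h.1

theorem cell_eq_of_mem {n : ℕ} {x : X} (hx : x ∈ G.D n) :
    G.cell n x = G.D n ∩ G.idx n ⁻¹' {G.idx n x} := by
  ext y
  simp only [cell, Rel, Set.mem_ofPred_eq, Set.mem_inter_iff, Set.mem_preimage,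
    Set.mem_singleton_iff]
  constructor
  · rintro ⟨_, h1, h2⟩; exact ⟨h1, h2.symm⟩
  · rintro ⟨h1, h2⟩; exact ⟨hx, h1, h2.symm⟩

theorem measurableSet_cell (n : ℕ) (x : X) : MeasurableSet (G.cell n x) := by
  by_cases hx : x ∈ G.D n
  · rw [cell_eq_of_mem hx]
    exact (G.measD n).inter (G.measIdx n (measurableSet_singleton _))
  · rw [cell_empty hx]; exact MeasurableSet.empty

variable (G)

/-- constancy on the cells of level `n` -/
def CC (n : ℕ) (F : X → ℝ≥0∞) : Prop := ∀ x y, G.Rel n x y → F x = F y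

variable {G}

theorem CC.up {n m : ℕ} (hmn : m ≤ n) {F : X → ℝ≥0∞} (h : G.CC m F) : G.CC n F :=
  fun x y hxy => h x y (Rel.down hmn hxy)

/-- comparison of integrals of cellwise constant functions -/
theorem cell_le {n : ℕ} {F h1 h2 : X → ℝ≥0∞} (s w : Measure X)
    (hF : G.CC n F)
    (h : ∀ x ∈ G.D n, ∫⁻ y in G.cell n x, h1 y ∂s ≤ ∫⁻ y in G.cell n x, h2 y ∂w)
    (hh1 : Measurable h1) (hh2 : Measurable h2) :
    ∫⁻ y in G.D n, F y * h1 y ∂s ≤ ∫⁻ y in G.D n, F y * h2 y ∂w := by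
  have hD : G.D n = ⋃ j : ℤ, (G.D n ∩ G.idx n ⁻¹' {j}) := by
    ext x; simp
  have hmeas : ∀ j : ℤ, MeasurableSet (G.D n ∩ G.idx n ⁻¹' {j}) := fun j =>
    (G.measD n).inter (G.measIdx n (measurableSet_singleton _))
  have hdisj : Pairwise (Function.onFun Disjoint (fun j : ℤ => G.D n ∩ G.idx n ⁻¹' {j})) := by
    intro i j hij
    rw [Function.onFun, Set.disjoint_left]
    rintro x ⟨_, hx1⟩ ⟨_, hx2⟩
    simp only [Set.mem_preimage, Set.mem_singleton_iff] at hx1 hx2
    exact hij (hx1.symm.trans hx2)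
  rw [hD, lintegral_iUnion hmeas hdisj, lintegral_iUnion hmeas hdisj]
  refine ENNReal.tsum_le_tsum fun j => ?_
  rcases Set.eq_empty_or_nonempty (G.D n ∩ G.idx n ⁻¹' {j}) with he | ⟨x, hx⟩
  · rw [he]; simp
  · have hcell : G.D n ∩ G.idx n ⁻¹' {j} = G.cell n x := by
      rw [cell_eq_of_mem hx.1]
      have : G.idx n x = j := hx.2
      rw [this]
    rw [hcell]
    have e1 : ∫⁻ y in G.cell n x, F y * h1 y ∂s = F x * ∫⁻ y in G.cell n x, h1 y ∂s := by
      rw [← lintegral_const_mul _ hh1]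
      refine setLIntegral_congr_fun (measurableSet_cell n x) fun y hy => ?_
      rw [hF x y hy]
    have e2 : ∫⁻ y in G.cell n x, F y * h2 y ∂w = F x * ∫⁻ y in G.cell n x, h2 y ∂w := by
      rw [← lintegral_const_mul _ hh2]
      refine setLIntegral_congr_fun (measurableSet_cell n x) fun y hy => ?_
      rw [hF x y hy]
    rw [e1, e2]
    exact mul_le_mul' le_rfl (h x hx.1)

/-- a cellwise constant function vanishing off `D n` is measurable -/
theorem CC.measurable {n : ℕ} {F : X → ℝ≥0∞} (hF : G.CC n F) (h0 : ∀ x, x ∉ G.D n → F x = 0) :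
    Measurable F := by
  classical
  -- F = φ (idx) on D n
  let φ : ℤ → ℝ≥0∞ := fun j => if h : ∃ x, x ∈ G.D n ∧ G.idx n x = j then F h.choose else 0
  have hφ : F = (G.D n).indicator (fun x => φ (G.idx n x)) := by
    funext x
    by_cases hx : x ∈ G.D n
    · rw [Set.indicator_of_mem hx]
      have hex : ∃ y, y ∈ G.D n ∧ G.idx n y = G.idx n x := ⟨x, hx, rfl⟩
      simp only [φ, dif_pos hex]
      exact hF x _ ⟨hx, hex.choose_spec.1, hex.choose_spec.2.symm⟩
    · rw [Set.indicator_of_notMem hx, h0 x hx]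
  rw [hφ]
  have : Measurable φ := measurable_from_top
  exact (this.comp (G.measIdx n)).indicator (G.measD n)

/-! ### averages and maximal functions -/

variable (G)

/-- cell average -/
noncomputable def avg (s : Measure X) (f : X → ℝ≥0∞) (n : ℕ) (x : X) : ℝ≥0∞ :=
  (∫⁻ y in G.cell n x, f y ∂s) / s (G.cell n x)

/-- running maximum of cell averages -/
noncomputable def mx (s : Measure X) (f : X → ℝ≥0∞) : ℕ → X → ℝ≥0∞
  | 0, x => G.avg s f 0 x
  | (n+1), x => max (mx s f n x) (G.avg s f (n+1) x)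

variable {G}

theorem CC_cell_lintegral (s : Measure X) (f : X → ℝ≥0∞) (n : ℕ) :
    G.CC n (fun x => ∫⁻ y in G.cell n x, f y ∂s) := by
  intro x y h
  simp only [Rel.cell_eq h]

theorem CC_cell_measure (s : Measure X) (n : ℕ) :
    G.CC n (fun x => s (G.cell n x)) := by
  intro x y h
  simp only [Rel.cell_eq h]

theorem CC_avg (s : Measure X) (f : X → ℝ≥0∞) (n : ℕ) : G.CC n (G.avg s f n) := by
  intro x y h
  simp only [avg, Rel.cell_eq h]

theorem cell_lintegral_off (s : Measure X) (f : X → ℝ≥0∞) {n : ℕ} {x : X} (hx : x ∉ G.D n) :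
    ∫⁻ y in G.cell n x, f y ∂s = 0 := by
  rw [cell_empty hx]; simp

theorem cell_measure_off (s : Measure X) {n : ℕ} {x : X} (hx : x ∉ G.D n) :
    s (G.cell n x) = 0 := by
  rw [cell_empty hx]; simp

theorem avg_off (s : Measure X) (f : X → ℝ≥0∞) {n : ℕ} {x : X} (hx : x ∉ G.D n) :
    G.avg s f n x = 0 := by
  simp only [avg, cell_lintegral_off s f hx, ENNReal.zero_div]

theorem measurable_cell_lintegral (s : Measure X) (f : X → ℝ≥0∞) (n : ℕ) :
    Measurable (fun x => ∫⁻ y in G.cell n x, f y ∂s) :=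
  (CC_cell_lintegral s f n).measurable fun _ hx => cell_lintegral_off s f hx

theorem measurable_cell_measure (s : Measure X) (n : ℕ) :
    Measurable (fun x => s (G.cell n x)) :=
  (CC_cell_measure s n).measurable fun _ hx => cell_measure_off s hx

theorem measurable_avg (s : Measure X) (f : X → ℝ≥0∞) (n : ℕ) :
    Measurable (G.avg s f n) :=
  (CC_avg s f n).measurable fun _ hx => avg_off s f hx

theorem measurable_mx (s : Measure X) (f : X → ℝ≥0∞) (n : ℕ) :
    Measurable (G.mx s f n) := by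
  induction n with
  | zero => exact measurable_avg s f 0
  | succ n ih => exact ih.max (measurable_avg s f (n+1))

theorem mono_mx (s : Measure X) (f : X → ℝ≥0∞) (x : X) :
    Monotone (fun n => G.mx s f n x) :=
  monotone_nat_of_le_succ fun _ => le_max_left _ _

theorem avg_le_mx (s : Measure X) (f : X → ℝ≥0∞) (n : ℕ) (x : X) :
    G.avg s f n x ≤ G.mx s f n x := by
  cases n with
  | zero => exact le_rfl
  | succ n => exact le_max_right _ _

theorem CC_mx (s : Measure X) (f : X → ℝ≥0∞) (n : ℕ) : G.CC n (G.mx s f n) := by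
  induction n with
  | zero => exact CC_avg s f 0
  | succ n ih =>
    intro x y h
    simp only [mx]
    rw [CC.up (Nat.le_succ n) ih x y h, CC_avg s f (n+1) x y h]

theorem CC_dl_mx (s : Measure X) (f : X → ℝ≥0∞) (n : ℕ) (φ : ℝ≥0∞ → ℝ≥0∞) :
    G.CC n (fun x => dl (fun k => φ (G.mx s f k x)) n) := by
  cases n with
  | zero =>
    intro x y h
    simp only [dl]
    rw [CC_mx s f 0 x y h]
  | succ n =>
    intro x y h
    simp only [dl]
    rw [CC_mx s f (n+1) x y h, CC.up (Nat.le_succ n) (CC_mx s f n) x y h]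

theorem measurable_dl {u : ℕ → X → ℝ≥0∞} (hu : ∀ n, Measurable (u n)) (n : ℕ) :
    Measurable (fun x => dl (fun k => u k x) n) := by
  cases n with
  | zero => exact hu 0
  | succ n => exact (hu (n+1)).sub (hu n)

/-- `avg * measure = integral` on a cell -/
theorem avg_mul (s : Measure X) [IsFiniteMeasure s] (f : X → ℝ≥0∞) (n : ℕ) (x : X) :
    G.avg s f n x * s (G.cell n x) = ∫⁻ y in G.cell n x, f y ∂s := by
  by_cases h : s (G.cell n x) = 0
  · rw [h, mul_zero]
    symm
    rw [setLIntegral_measure_zero _ _ h]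
  · exact ENNReal.div_mul_cancel h (measure_ne_top s _)

theorem lintegral_cell_avg (s : Measure X) [IsFiniteMeasure s] (f : X → ℝ≥0∞) (n : ℕ) (x : X) :
    ∫⁻ y in G.cell n x, G.avg s f n y ∂s = ∫⁻ y in G.cell n x, f y ∂s := by
  have : ∫⁻ y in G.cell n x, G.avg s f n y ∂s = ∫⁻ y in G.cell n x, G.avg s f n x ∂s := by
    refine setLIntegral_congr_fun (measurableSet_cell n x) fun y hy => ?_
    exact (CC_avg s f n x y hy).symm
  rw [this, setLIntegral_const, avg_mul]

/-- restricting to `D n` functions vanishing off `D n` -/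
theorem lintegral_D {n : ℕ} (s : Measure X) {F : X → ℝ≥0∞} (h0 : ∀ x, x ∉ G.D n → F x = 0) :
    ∫⁻ x, F x ∂s = ∫⁻ x in G.D n, F x ∂s := by
  rw [← lintegral_indicator (G.measD n)]
  congr 1
  funext x
  by_cases hx : x ∈ G.D n
  · rw [Set.indicator_of_mem hx]
  · rw [Set.indicator_of_notMem hx, h0 x hx]

/-- `∫ a_n ^ 2 ≤ ∫ f ^ 2` -/
theorem lintegral_avg_sq_le (s : Measure X) [IsFiniteMeasure s] {f : X → ℝ≥0∞}
    (hf : Measurable f) (n : ℕ) :
    ∫⁻ x, G.avg s f n x ^ 2 ∂s ≤ ∫⁻ x, f x ^ 2 ∂s := by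
  rw [lintegral_D (G := G) (n := n) s (F := fun x => G.avg s f n x ^ 2)
    (fun x hx => by rw [avg_off s f hx]; simp)]
  refine le_trans ?_ (setLIntegral_le_lintegral (G.D n) _)
  have key := cell_le (G := G) (n := n) (F := fun _ => 1) (h1 := fun x => G.avg s f n x ^ 2)
    (h2 := fun x => f x ^ 2) s s (fun _ _ _ => rfl) ?_ ((measurable_avg s f n).pow_const 2)
    (hf.pow_const 2)
  · simpa using key
  · intro x hx
    have e1 : ∫⁻ y in G.cell n x, G.avg s f n y ^ 2 ∂s = G.avg s f n x ^ 2 * s (G.cell n x) := by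
      rw [← setLIntegral_const]
      refine setLIntegral_congr_fun (measurableSet_cell n x) fun y hy => ?_
      rw [CC_avg s f n x y hy]
    rw [e1]
    by_cases h : s (G.cell n x) = 0
    · rw [h, mul_zero]; exact bot_le
    · have h2 := cs_sq (s.restrict (G.cell n x)) (u := fun _ => (1:ℝ≥0∞)) (v := f)
        aemeasurable_const hf.aemeasurable
      simp only [one_mul, one_pow, lintegral_const, Measure.restrict_apply,
        MeasurableSet.univ, Set.univ_inter] at h2
      rw [← avg_mul (G := G) s f n x] at h2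
      -- (a m)^2 ≤ m * I
      have h3 : s (G.cell n x) * (G.avg s f n x ^ 2 * s (G.cell n x)) ≤
          s (G.cell n x) * ∫⁻ y in G.cell n x, f y ^ 2 ∂s := by
        refine le_trans (le_of_eq ?_) h2
        ring
      exact (ENNReal.mul_le_mul_iff_right h (measure_ne_top s _)).1 h3

theorem mx_sq_le_sum (s : Measure X) (f : X → ℝ≥0∞) (n : ℕ) (x : X) :
    G.mx s f n x ^ 2 ≤ ∑ m ∈ Finset.range (n+1), G.avg s f m x ^ 2 := by
  induction n with
  | zero => simp [mx]
  | succ n ih =>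
    rw [Finset.sum_range_succ]
    simp only [mx]
    rcases le_total (G.mx s f n x) (G.avg s f (n+1) x) with h | h
    · rw [max_eq_right h]; exact le_add_self
    · rw [max_eq_left h]; exact ih.trans le_self_add

theorem dl_mul_mx (s : Measure X) (f : X → ℝ≥0∞) (m : ℕ) (x : X) :
    dl (fun k => G.mx s f k x) m * G.mx s f m x ≤
      dl (fun k => G.mx s f k x) m * G.avg s f m x := by
  cases m with
  | zero => exact le_rfl
  | succ m =>
    simp only [dl, mx]
    rcases le_total (G.mx s f m x) (G.avg s f (m+1) x) with h | h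
    · rw [max_eq_right h]
    · rw [max_eq_left h]; simp

/-- the dyadic maximal theorem in `L²` with respect to an arbitrary finite measure -/
theorem maximal_sq (s : Measure X) [IsFiniteMeasure s] {f : X → ℝ≥0∞}
    (hf : Measurable f) (n : ℕ) :
    ∫⁻ x, G.mx s f n x ^ 2 ∂s ≤ 4 * ∫⁻ x, f x ^ 2 ∂s := by
  by_cases hfin : ∫⁻ x, f x ^ 2 ∂s = ∞
  · rw [hfin]; simp
  have hmx := measurable_mx (G := G) s f
  have hm1 : ∀ m, Measurable (fun x => dl (fun k => G.mx s f k x) m * G.avg s f m x) :=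
    fun m => (measurable_dl hmx m).mul (measurable_avg s f m)
  have hm2 : ∀ m, Measurable (fun x => dl (fun k => G.mx s f k x) m * f x) :=
    fun m => (measurable_dl hmx m).mul hf
  -- a priori finiteness
  have hA : ∫⁻ x, G.mx s f n x ^ 2 ∂s ≠ ∞ := by
    refine ne_top_of_le_ne_top ?_ (lintegral_mono fun x => mx_sq_le_sum (G := G) s f n x)
    rw [lintegral_finsetSum _ (fun m _ => (measurable_avg s f m).pow_const 2)]
    refine ne_of_lt (ENNReal.sum_lt_top.2 fun m _ => ?_)
    exact lt_of_le_of_lt (lintegral_avg_sq_le s hf m) (lt_top_iff_ne_top.2 hfin)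
  -- the main estimate
  have h1 : ∫⁻ x, G.mx s f n x ^ 2 ∂s ≤ 2 * ∫⁻ x, G.mx s f n x * f x ∂s := by
    calc ∫⁻ x, G.mx s f n x ^ 2 ∂s
        ≤ ∫⁻ x, ∑ m ∈ Finset.range (n+1),
            2 * (dl (fun k => G.mx s f k x) m * G.avg s f m x) ∂s := by
          refine lintegral_mono fun x => ?_
          have := mul_le_sum_dl (mono_mx (G := G) s f x) (mono_mx (G := G) s f x) n
          rw [sq]
          refine this.trans (Finset.sum_le_sum fun m _ => ?_)
          rw [two_mul]
          exact add_le_add (dl_mul_mx s f m x) (dl_mul_mx s f m x)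
      _ = ∑ m ∈ Finset.range (n+1),
            ∫⁻ x, 2 * (dl (fun k => G.mx s f k x) m * G.avg s f m x) ∂s := by
          rw [lintegral_finsetSum]
          intro m _
          exact (hm1 m).const_mul 2
      _ ≤ ∑ m ∈ Finset.range (n+1),
            ∫⁻ x, 2 * (dl (fun k => G.mx s f k x) m * f x) ∂s := by
          refine Finset.sum_le_sum fun m _ => ?_
          rw [lintegral_const_mul _ (hm1 m), lintegral_const_mul _ (hm2 m)]
          refine mul_le_mul' le_rfl ?_
          rw [lintegral_D (G := G) (n := m) s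
            (F := fun x => dl (fun k => G.mx s f k x) m * G.avg s f m x)
            (fun x hx => by rw [avg_off s f hx]; simp)]
          refine le_trans ?_ (setLIntegral_le_lintegral (G.D m) _)
          exact cell_le (G := G) (n := m) s s (CC_dl_mx s f m id)
            (fun x _ => (lintegral_cell_avg s f m x).le) (measurable_avg s f m) hf
      _ = 2 * ∫⁻ x, G.mx s f n x * f x ∂s := by
          have hm3 : Measurable (fun x => G.mx s f n x * f x) := (hmx n).mul hf
          rw [← lintegral_finsetSum _ (fun m _ => (hm2 m).const_mul 2)]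
          rw [← lintegral_const_mul _ hm3]
          refine lintegral_congr fun x => ?_
          rw [← Finset.mul_sum, ← Finset.sum_mul, sum_dl (mono_mx (G := G) s f x) n]
  have h2 := cs_sq s (hmx n).aemeasurable hf.aemeasurable
  -- X ≤ 2 Y, Y^2 ≤ X F
  have h3 : (∫⁻ x, G.mx s f n x ^ 2 ∂s) ^ 2 ≤
      (∫⁻ x, G.mx s f n x ^ 2 ∂s) * (4 * ∫⁻ x, f x ^ 2 ∂s) := by
    calc (∫⁻ x, G.mx s f n x ^ 2 ∂s) ^ 2
        ≤ (2 * ∫⁻ x, G.mx s f n x * f x ∂s) ^ 2 := by gcongr
      _ = 4 * (∫⁻ x, G.mx s f n x * f x ∂s) ^ 2 := by ring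
      _ ≤ 4 * ((∫⁻ x, G.mx s f n x ^ 2 ∂s) * ∫⁻ x, f x ^ 2 ∂s) := mul_le_mul' le_rfl h2
      _ = _ := by ring
  by_cases hz : ∫⁻ x, G.mx s f n x ^ 2 ∂s = 0
  · rw [hz]; exact bot_le
  · rw [sq] at h3
    exact (ENNReal.mul_le_mul_iff_right hz hA).1 h3

/-! ### the main dyadic theorem -/

variable (G)

/-- the local testing function -/
noncomputable def Psi (τ : ℕ → ℝ≥0∞) (w : Measure X) (N m : ℕ) (x : X) : ℝ≥0∞ :=
  ∑ n ∈ Finset.Ico m N, τ n * w (G.cell n x)

variable {G}

theorem measurable_Psi (τ : ℕ → ℝ≥0∞) (w : Measure X) (N m : ℕ) :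
    Measurable (G.Psi τ w N m) := by
  unfold Psi
  exact Finset.measurable_sum _ fun n _ => (measurable_cell_measure w n).const_mul _

theorem Psi_off (τ : ℕ → ℝ≥0∞) (w : Measure X) {N m : ℕ} {x : X} (hx : x ∉ G.D m) :
    G.Psi τ w N m x = 0 := by
  unfold Psi
  refine Finset.sum_eq_zero fun n hn => ?_
  rw [Finset.mem_Ico] at hn
  rw [cell_measure_off w (fun h => hx (D_subset hn.1 h)), mul_zero]

theorem Psi_anti (τ : ℕ → ℝ≥0∞) (w : Measure X) {N m j : ℕ} (hjm : j ≤ m) (x : X) :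
    G.Psi τ w N m x ≤ G.Psi τ w N j x := by
  unfold Psi
  exact Finset.sum_le_sum_of_subset (Finset.Ico_subset_Ico_left hjm)

theorem le_sqrt_of_sq_le {x y : ℝ≥0∞} (h : x ^ 2 ≤ y) : x ≤ y ^ (1 / (2:ℝ)) := by
  have h1 : (x ^ 2) ^ (1 / (2:ℝ)) ≤ y ^ (1 / (2:ℝ)) :=
    ENNReal.rpow_le_rpow h (by norm_num)
  refine le_trans (le_of_eq ?_) h1
  rw [← ENNReal.rpow_natCast, ← ENNReal.rpow_mul]
  norm_num

theorem sqrt_sq (y : ℝ≥0∞) : (y ^ (1 / (2:ℝ))) ^ 2 = y := by
  rw [← ENNReal.rpow_natCast, ← ENNReal.rpow_mul]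
  norm_num

/-- the first half of the dyadic form -/
theorem half_form (s w : Measure X) [IsFiniteMeasure s] [IsFiniteMeasure w]
    (τ : ℕ → ℝ≥0∞) (K : ℕ) (A : ℝ≥0∞)
    (h1 : ∀ m x, x ∈ G.D m →
      ∫⁻ y in G.cell m x, G.Psi τ w (K+1) m y ^ 2 ∂s ≤ A * w (G.cell m x))
    {f g : X → ℝ≥0∞} (hf : Measurable f) (hg : Measurable g) :
    (∫⁻ x, ∑ m ∈ Finset.range (K+1), (dl (fun k => G.mx s f k x) m * G.mx w g m x)
      * G.Psi τ w (K+1) m x ∂s) ^ 2 ≤ 16 * A * (∫⁻ x, f x ^ 2 ∂s) * (∫⁻ x, g x ^ 2 ∂w) := by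
  set a : ℕ → X → ℝ≥0∞ := G.mx s f with ha
  set b : ℕ → X → ℝ≥0∞ := G.mx w g with hb
  have hma : ∀ n, Measurable (a n) := measurable_mx s f
  have hmb : ∀ n, Measurable (b n) := measurable_mx w g
  have hmb2 : ∀ n, Measurable (fun x => b n x ^ 2) := fun n => (hmb n).pow_const 2
  have hmP : ∀ m, Measurable (G.Psi τ w (K+1) m) := measurable_Psi τ w (K+1)
  set NN : X → ℝ≥0∞ := fun x =>
    ∑ m ∈ Finset.range (K+1), dl (fun k => b k x ^ 2) m * G.Psi τ w (K+1) m x ^ 2 with hNN
  have hmNN : Measurable NN := by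
    refine Finset.measurable_sum _ fun m _ => ?_
    exact (measurable_dl hmb2 m).mul ((hmP m).pow_const 2)
  have hmono2 : ∀ x, Monotone (fun k => b k x ^ 2) := fun x i j hij =>
    pow_le_pow_left' (mono_mx (G := G) w g x hij) 2
  -- pointwise bound for b m * Psi m
  have hpt : ∀ x, ∀ m ∈ Finset.range (K+1),
      b m x * G.Psi τ w (K+1) m x ≤ NN x ^ (1 / (2:ℝ)) := by
    intro x m hm
    apply le_sqrt_of_sq_le
    rw [mul_pow]
    calc b m x ^ 2 * G.Psi τ w (K+1) m x ^ 2
        = (∑ j ∈ Finset.range (m+1), dl (fun k => b k x ^ 2) j) * G.Psi τ w (K+1) m x ^ 2 := by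
          rw [sum_dl (hmono2 x) m]
      _ = ∑ j ∈ Finset.range (m+1), dl (fun k => b k x ^ 2) j * G.Psi τ w (K+1) m x ^ 2 := by
          rw [Finset.sum_mul]
      _ ≤ ∑ j ∈ Finset.range (m+1), dl (fun k => b k x ^ 2) j * G.Psi τ w (K+1) j x ^ 2 := by
          refine Finset.sum_le_sum fun j hj => ?_
          rw [Finset.mem_range] at hj
          exact mul_le_mul' le_rfl (pow_le_pow_left' (Psi_anti τ w (by omega) x) 2)
      _ ≤ NN x := by
          refine Finset.sum_le_sum_of_subset ?_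
          intro j hj
          rw [Finset.mem_range] at *
          omega
  have hle : ∫⁻ x, ∑ m ∈ Finset.range (K+1), (dl (fun k => a k x) m * b m x)
      * G.Psi τ w (K+1) m x ∂s ≤ ∫⁻ x, a K x * NN x ^ (1 / (2:ℝ)) ∂s := by
    refine lintegral_mono fun x => ?_
    calc ∑ m ∈ Finset.range (K+1), (dl (fun k => a k x) m * b m x) * G.Psi τ w (K+1) m x
        ≤ ∑ m ∈ Finset.range (K+1), dl (fun k => a k x) m * NN x ^ (1 / (2:ℝ)) := by
          refine Finset.sum_le_sum fun m hm => ?_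
          rw [mul_assoc]
          exact mul_le_mul' le_rfl (hpt x m hm)
      _ = a K x * NN x ^ (1 / (2:ℝ)) := by
          rw [← Finset.sum_mul, sum_dl (mono_mx (G := G) s f x) K]
  have hNNint : ∫⁻ x, NN x ∂s ≤ A * (4 * ∫⁻ x, g x ^ 2 ∂w) := by
    calc ∫⁻ x, NN x ∂s = ∑ m ∈ Finset.range (K+1),
          ∫⁻ x, dl (fun k => b k x ^ 2) m * G.Psi τ w (K+1) m x ^ 2 ∂s := by
          rw [hNN, lintegral_finsetSum]
          intro m _
          exact (measurable_dl hmb2 m).mul ((hmP m).pow_const 2)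
      _ ≤ ∑ m ∈ Finset.range (K+1), ∫⁻ x, dl (fun k => b k x ^ 2) m * A ∂w := by
          refine Finset.sum_le_sum fun m _ => ?_
          rw [lintegral_D (G := G) (n := m) s
            (F := fun x => dl (fun k => b k x ^ 2) m * G.Psi τ w (K+1) m x ^ 2)
            (fun x hx => by rw [Psi_off τ w hx]; simp)]
          refine le_trans ?_ (setLIntegral_le_lintegral (G.D m) _)
          refine cell_le (G := G) (n := m) s w (CC_dl_mx w g m (fun t => t ^ 2)) ?_
            ((hmP m).pow_const 2) measurable_const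
          intro x hx
          rw [setLIntegral_const]
          exact h1 m x hx
      _ = A * ∫⁻ x, b K x ^ 2 ∂w := by
          rw [← lintegral_finsetSum _ (fun m _ => (measurable_dl hmb2 m).mul_const A)]
          rw [← lintegral_const_mul _ (hmb2 K)]
          refine lintegral_congr fun x => ?_
          rw [← Finset.sum_mul, sum_dl (hmono2 x) K, mul_comm]
      _ ≤ _ := mul_le_mul' le_rfl (maximal_sq w hg K)
  calc (∫⁻ x, ∑ m ∈ Finset.range (K+1), (dl (fun k => a k x) m * b m x)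
      * G.Psi τ w (K+1) m x ∂s) ^ 2 ≤ (∫⁻ x, a K x * NN x ^ (1 / (2:ℝ)) ∂s) ^ 2 :=
        pow_le_pow_left' hle 2
    _ ≤ (∫⁻ x, a K x ^ 2 ∂s) * (∫⁻ x, (NN x ^ (1 / (2:ℝ))) ^ 2 ∂s) :=
        cs_sq s (hma K).aemeasurable (hmNN.pow_const _).aemeasurable
    _ = (∫⁻ x, a K x ^ 2 ∂s) * (∫⁻ x, NN x ∂s) := by simp_rw [sqrt_sq]
    _ ≤ (4 * ∫⁻ x, f x ^ 2 ∂s) * (A * (4 * ∫⁻ x, g x ^ 2 ∂w)) :=
        mul_le_mul' (maximal_sq s hf K) hNNint
    _ = _ := by ring

/-- swapping the measures in cellwise constant expressions -/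
theorem swap_le (s w : Measure X) {n : ℕ} {F : X → ℝ≥0∞} (hF : G.CC n F) :
    ∫⁻ x, F x * w (G.cell n x) ∂s ≤ ∫⁻ x, F x * s (G.cell n x) ∂w := by
  rw [lintegral_D (G := G) (n := n) s (F := fun x => F x * w (G.cell n x))
    (fun x hx => by rw [cell_measure_off w hx, mul_zero])]
  refine le_trans ?_ (setLIntegral_le_lintegral (G.D n) _)
  refine cell_le (G := G) (n := n) s w hF ?_ (measurable_cell_measure w n)
    (measurable_cell_measure s n)
  intro x _
  have e1 : ∫⁻ y in G.cell n x, w (G.cell n y) ∂s = w (G.cell n x) * s (G.cell n x) := by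
    rw [← setLIntegral_const]
    refine setLIntegral_congr_fun (measurableSet_cell n x) fun y hy => ?_
    rw [Rel.cell_eq hy]
  have e2 : ∫⁻ y in G.cell n x, s (G.cell n y) ∂w = s (G.cell n x) * w (G.cell n x) := by
    rw [← setLIntegral_const]
    refine setLIntegral_congr_fun (measurableSet_cell n x) fun y hy => ?_
    rw [Rel.cell_eq hy]
  rw [e1, e2, mul_comm]

/-- **Two weight theorem for positive dyadic operators** (bilinear form, finite depth). -/
theorem dyadic_main (s w : Measure X) [IsFiniteMeasure s] [IsFiniteMeasure w]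
    (τ : ℕ → ℝ≥0∞) (N : ℕ) (A : ℝ≥0∞)
    (h1 : ∀ m x, x ∈ G.D m →
      ∫⁻ y in G.cell m x, G.Psi τ w N m y ^ 2 ∂s ≤ A * w (G.cell m x))
    (h2 : ∀ m x, x ∈ G.D m →
      ∫⁻ y in G.cell m x, G.Psi τ s N m y ^ 2 ∂w ≤ A * s (G.cell m x))
    {f g : X → ℝ≥0∞} (hf : Measurable f) (hg : Measurable g) :
    (∑ n ∈ Finset.range N, τ n * ∫⁻ x, f x * (∫⁻ y in G.cell n x, g y ∂w) ∂s) ^ 2
      ≤ 64 * A * (∫⁻ x, f x ^ 2 ∂s) * (∫⁻ x, g x ^ 2 ∂w) := by
  rcases Nat.eq_zero_or_pos N with rfl | hN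
  · simp
  obtain ⟨K, rfl⟩ : ∃ K, N = K + 1 := ⟨N - 1, by omega⟩
  set a : ℕ → X → ℝ≥0∞ := G.mx s f with ha
  set b : ℕ → X → ℝ≥0∞ := G.mx w g with hb
  have hma : ∀ n, Measurable (a n) := measurable_mx s f
  have hmb : ∀ n, Measurable (b n) := measurable_mx w g
  have hI := half_form (G := G) s w τ K A h1 hf hg
  have hII := half_form (G := G) w s τ K A h2 hg hf
  -- first reduction
  have hred : ∑ n ∈ Finset.range (K+1), τ n * ∫⁻ x, f x * (∫⁻ y in G.cell n x, g y ∂w) ∂s
      ≤ ∫⁻ x, ∑ n ∈ Finset.range (K+1), (τ n * w (G.cell n x)) * (a n x * b n x) ∂s := by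
    rw [lintegral_finsetSum]
    swap
    · intro n _
      exact ((measurable_cell_measure w n).const_mul _).mul ((hma n).mul (hmb n))
    refine Finset.sum_le_sum fun n _ => ?_
    have hstep : ∫⁻ x, f x * (∫⁻ y in G.cell n x, g y ∂w) ∂s
        ≤ ∫⁻ x, (∫⁻ y in G.cell n x, g y ∂w) * G.avg s f n x ∂s := by
      have e : ∀ x, f x * (∫⁻ y in G.cell n x, g y ∂w) = (∫⁻ y in G.cell n x, g y ∂w) * f x :=
        fun x => mul_comm _ _
      simp_rw [e]
      rw [lintegral_D (G := G) (n := n) s (F := fun x => (∫⁻ y in G.cell n x, g y ∂w) * f x)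
        (fun x hx => by rw [cell_lintegral_off w g hx, zero_mul])]
      refine le_trans ?_ (setLIntegral_le_lintegral (G.D n) _)
      exact cell_le (G := G) (n := n) s s (CC_cell_lintegral w g n)
        (fun x _ => (lintegral_cell_avg s f n x).ge) hf (measurable_avg s f n)
    calc τ n * ∫⁻ x, f x * (∫⁻ y in G.cell n x, g y ∂w) ∂s
        ≤ τ n * ∫⁻ x, (∫⁻ y in G.cell n x, g y ∂w) * G.avg s f n x ∂s :=
          mul_le_mul' le_rfl hstep
      _ = ∫⁻ x, τ n * ((∫⁻ y in G.cell n x, g y ∂w) * G.avg s f n x) ∂s := by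
          have hm : Measurable (fun x => (∫⁻ y in G.cell n x, g y ∂w) * G.avg s f n x) :=
            (measurable_cell_lintegral w g n).mul (measurable_avg s f n)
          rw [lintegral_const_mul _ hm]
      _ ≤ _ := by
          refine lintegral_mono fun x => ?_
          rw [← avg_mul (G := G) w g n x]
          calc τ n * (G.avg w g n x * w (G.cell n x) * G.avg s f n x)
              = (τ n * w (G.cell n x)) * (G.avg s f n x * G.avg w g n x) := by ring
            _ ≤ _ := mul_le_mul' le_rfl (mul_le_mul' (avg_le_mx s f n x) (avg_le_mx w g n x))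
  -- pointwise summation by parts
  have hparts : ∫⁻ x, ∑ n ∈ Finset.range (K+1), (τ n * w (G.cell n x)) * (a n x * b n x) ∂s
      ≤ (∫⁻ x, ∑ m ∈ Finset.range (K+1), (dl (fun k => a k x) m * b m x)
          * G.Psi τ w (K+1) m x ∂s)
        + ∫⁻ x, ∑ m ∈ Finset.range (K+1), (dl (fun k => b k x) m * a m x)
          * G.Psi τ w (K+1) m x ∂s := by
    rw [← lintegral_add_left]
    · refine lintegral_mono fun x => ?_
      exact sum_mul_le_tri (t := fun n => τ n * w (G.cell n x))
        (mono_mx (G := G) s f x) (mono_mx (G := G) w g x) (K+1)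
    · refine Finset.measurable_sum _ fun m _ => ?_
      exact ((measurable_dl hma m).mul (hmb m)).mul (measurable_Psi τ w (K+1) m)
  -- swap measures in the second part
  have hswap : ∫⁻ x, ∑ m ∈ Finset.range (K+1), (dl (fun k => b k x) m * a m x)
          * G.Psi τ w (K+1) m x ∂s ≤
        ∫⁻ x, ∑ m ∈ Finset.range (K+1), (dl (fun k => b k x) m * a m x)
          * G.Psi τ s (K+1) m x ∂w := by
    have hq : ∀ m, Measurable (fun x => dl (fun k => b k x) m * a m x) :=
      fun m => (measurable_dl hmb m).mul (hma m)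
    have hq1 : ∀ (v : Measure X) (m : ℕ),
        Measurable (fun x => dl (fun k => b k x) m * a m x * G.Psi τ v (K+1) m x) :=
      fun v m => (hq m).mul (measurable_Psi τ v (K+1) m)
    have hq2 : ∀ (v : Measure X) (m n : ℕ),
        Measurable (fun x => dl (fun k => b k x) m * a m x * (τ n * v (G.cell n x))) :=
      fun v m n => (hq m).mul ((measurable_cell_measure v n).const_mul _)
    rw [lintegral_finsetSum _ (fun m _ => hq1 w m), lintegral_finsetSum _ (fun m _ => hq1 s m)]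
    refine Finset.sum_le_sum fun m _ => ?_
    unfold Psi
    simp_rw [Finset.mul_sum]
    rw [lintegral_finsetSum _ (fun n _ => hq2 w m n),
      lintegral_finsetSum _ (fun n _ => hq2 s m n)]
    refine Finset.sum_le_sum fun n hn => ?_
    rw [Finset.mem_Ico] at hn
    have hCC : G.CC n (fun x => dl (fun k => b k x) m * a m x * τ n) := by
      intro x y hxy
      have h1 := CC_dl_mx (G := G) w g m id x y (Rel.down hn.1 hxy)
      have h2 := CC_mx (G := G) s f m x y (Rel.down hn.1 hxy)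
      simp only [id] at h1
      simp only [ha, hb]
      rw [h1, h2]
    have := swap_le (G := G) s w hCC
    simpa only [mul_assoc] using this
  -- conclusion
  set c : ℝ≥0∞ := (16 * A * (∫⁻ x, f x ^ 2 ∂s) * (∫⁻ x, g x ^ 2 ∂w)) ^ (1 / (2:ℝ)) with hc
  have hb1 : (∫⁻ x, ∑ m ∈ Finset.range (K+1), (dl (fun k => a k x) m * b m x)
          * G.Psi τ w (K+1) m x ∂s) ≤ c := le_sqrt_of_sq_le hI
  have hb2 : (∫⁻ x, ∑ m ∈ Finset.range (K+1), (dl (fun k => b k x) m * a m x)
          * G.Psi τ s (K+1) m x ∂w) ≤ c := by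
    apply le_sqrt_of_sq_le
    refine hII.trans (le_of_eq ?_)
    ring
  calc (∑ n ∈ Finset.range (K+1), τ n * ∫⁻ x, f x * (∫⁻ y in G.cell n x, g y ∂w) ∂s) ^ 2
      ≤ (c + c) ^ 2 := by
        refine pow_le_pow_left' ?_ 2
        refine hred.trans (hparts.trans ?_)
        exact add_le_add hb1 (hswap.trans hb2)
    _ = 4 * c ^ 2 := by ring
    _ = _ := by rw [hc, sqrt_sq]; ring

end Grid

end Pool.Agent.Bergman
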