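import Mathlib
import Pool.Agent.Bergman.Dyadic

/-!
Geometry of the unit disc: Carleson boxes, the Bergman kernel and two shifted dyadic grids.
-/

set_option autoImplicit false

open MeasureTheory
open scoped ENNReal NNReal

namespace Pool.Agent.Bergman

/-- The Carleson box over the arc `{exp (i t) : θ ≤ t ≤ θ + 2 π ℓ}`. -/
def box (θ ℓ : ℝ) : Set ℂ :=
  {z : ℂ | z ≠ 0 ∧ ‖z‖ < 1 ∧ 1 - ‖z‖ ≤ ℓ ∧
      ∃ t ∈ Set.Icc θ (θ + 2 * Real.pi * ℓ), z / ((‖z‖ : ℝ) : ℂ) = Complex.exp ((t : ℂ) * Complex.I)}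

/-- normalised area measure on the unit disc -/
noncomputable def mu : Measure ℂ :=
  (ENNReal.ofReal (Real.pi⁻¹)) • volume.restrict (Metric.ball (0:ℂ) 1)

/-- `|1 - z conj ζ|` -/
noncomputable def dd (z ζ : ℂ) : ℝ := ‖1 - z * (starRingEnd ℂ) ζ‖

theorem dd_comm (z ζ : ℂ) : dd z ζ = dd ζ z := by
  unfold dd
  rw [← Complex.norm_conj (1 - z * (starRingEnd ℂ) ζ)]
  congr 1
  simp [mul_comm]

theorem continuous_dd : Continuous (fun p : ℂ × ℂ => dd p.1 p.2) := by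
  unfold dd
  have : Continuous (fun p : ℂ × ℂ => (starRingEnd ℂ) p.2) :=
    Complex.continuous_conj.comp continuous_snd
  exact (continuous_const.sub (continuous_fst.mul this)).norm

theorem measurable_dd : Measurable (fun p : ℂ × ℂ => dd p.1 p.2) := continuous_dd.measurable

theorem one_sub_mul_le_dd (z ζ : ℂ) : 1 - ‖z‖ * ‖ζ‖ ≤ dd z ζ := by
  unfold dd
  have h := norm_sub_norm_le (1:ℂ) (z * (starRingEnd ℂ) ζ)
  rw [norm_one, norm_mul, Complex.norm_conj] at h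
  exact h

theorem one_sub_norm_le_dd {z ζ : ℂ} (hζ : ‖ζ‖ < 1) : 1 - ‖z‖ ≤ dd z ζ := by
  have h := one_sub_mul_le_dd z ζ
  have h0 := norm_nonneg z
  nlinarith

theorem one_sub_norm_le_dd' {z ζ : ℂ} (hz : ‖z‖ < 1) : 1 - ‖ζ‖ ≤ dd z ζ := by
  rw [dd_comm]; exact one_sub_norm_le_dd hz

theorem dd_pos {z ζ : ℂ} (hz : ‖z‖ < 1) (hζ : ‖ζ‖ < 1) : 0 < dd z ζ :=
  lt_of_lt_of_le (by linarith) (one_sub_norm_le_dd (z := z) hζ)

/-- the exact size of `K + |K|` for `K = 1 / a ^ 2` -/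
theorem norm_K_add (z ζ : ℂ) (h : 1 - z * (starRingEnd ℂ) ζ ≠ 0) :
    ‖1 / (1 - z * (starRingEnd ℂ) ζ) ^ 2 + ((1 / (dd z ζ) ^ 2 : ℝ) : ℂ)‖
      = 1 / dd z ζ * (|(1 - ‖z‖ ^ 2 * ‖ζ‖ ^ 2) + dd z ζ ^ 2| / dd z ζ ^ 2) := by
  set a : ℂ := 1 - z * (starRingEnd ℂ) ζ with ha
  have hd : dd z ζ = ‖a‖ := rfl
  have hn : 0 < ‖a‖ := norm_pos_iff.2 h
  have hnc : ((‖a‖ : ℝ) : ℂ) ≠ 0 := by exact_mod_cast hn.ne'
  have haa : a * (starRingEnd ℂ) a = ((‖a‖ : ℝ) : ℂ) ^ 2 := by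
    rw [Complex.mul_conj, Complex.normSq_eq_norm_sq]; push_cast; ring
  have hac : (starRingEnd ℂ) a ≠ 0 := by simpa using h
  -- 1/a^2 + 1/|a|^2 = conj a * (conj a + a) / |a|^4
  have e1 : 1 / a ^ 2 + ((1 / (dd z ζ) ^ 2 : ℝ) : ℂ)
      = (starRingEnd ℂ) a * ((starRingEnd ℂ) a + a) / ((‖a‖ : ℝ) : ℂ) ^ 4 := by
    rw [hd]
    push_cast
    have e2 : ((‖a‖ : ℝ) : ℂ) ^ 4 = a ^ 2 * (starRingEnd ℂ) a ^ 2 := by
      calc ((‖a‖ : ℝ) : ℂ) ^ 4 = (((‖a‖ : ℝ) : ℂ) ^ 2) ^ 2 := by ring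
        _ = _ := by rw [← haa]; ring
    rw [e2, ← haa]
    field_simp
  rw [e1]
  have e3 : (starRingEnd ℂ) a + a = ((2 * a.re : ℝ) : ℂ) := by
    rw [add_comm, Complex.add_conj]
  have e4 : 2 * a.re = (1 - ‖z‖ ^ 2 * ‖ζ‖ ^ 2) + ‖a‖ ^ 2 := by
    have : ‖a‖ ^ 2 = a.re ^ 2 + a.im ^ 2 := by
      rw [← Complex.normSq_eq_norm_sq, Complex.normSq_apply]; ring
    have h2 : ‖z * (starRingEnd ℂ) ζ‖ ^ 2 = (1 - a.re) ^ 2 + a.im ^ 2 := by
      have : z * (starRingEnd ℂ) ζ = 1 - a := by rw [ha]; ring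
      rw [this, ← Complex.normSq_eq_norm_sq, Complex.normSq_apply]
      simp; ring
    rw [norm_mul, Complex.norm_conj] at h2
    rw [this]
    nlinarith
  rw [e3, norm_div, norm_mul, Complex.norm_conj, Complex.norm_real, e4, norm_pow,
    Complex.norm_real, Real.norm_eq_abs, norm_norm, hd]
  field_simp

/-- the error kernel bound -/
theorem norm_K_add_le {z ζ : ℂ} (hz : ‖z‖ < 1) (hζ : ‖ζ‖ < 1) :
    ‖1 / (1 - z * (starRingEnd ℂ) ζ) ^ 2 + ((1 / (dd z ζ) ^ 2 : ℝ) : ℂ)‖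
      ≤ 2 * (1 / dd z ζ + (1 - ‖ζ‖) / dd z ζ ^ 3) + 2 * (1 / dd z ζ + (1 - ‖z‖) / dd z ζ ^ 3) := by
  have hd := dd_pos hz hζ
  have h : 1 - z * (starRingEnd ℂ) ζ ≠ 0 := norm_pos_iff.1 hd
  rw [norm_K_add z ζ h]
  have h0 := norm_nonneg z
  have h1 := norm_nonneg ζ
  have hzz : ‖z‖ ^ 2 ≤ 1 := by nlinarith
  have hζζ : ‖ζ‖ ^ 2 ≤ 1 := by nlinarith
  have hprod : ‖z‖ ^ 2 * ‖ζ‖ ^ 2 ≤ 1 := by nlinarith [sq_nonneg ‖z‖, sq_nonneg ‖ζ‖]
  rw [abs_of_nonneg (by nlinarith [sq_nonneg (dd z ζ)])]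
  have h3 : 1 - ‖z‖ ^ 2 * ‖ζ‖ ^ 2 ≤ 2 * (1 - ‖z‖) + 2 * (1 - ‖ζ‖) := by
    nlinarith [sq_nonneg ‖z‖, sq_nonneg ‖ζ‖]
  have e : 2 * (1 / dd z ζ + (1 - ‖ζ‖) / dd z ζ ^ 3) + 2 * (1 / dd z ζ + (1 - ‖z‖) / dd z ζ ^ 3)
      = 1 / dd z ζ * ((4 * dd z ζ ^ 2 + (2 * (1 - ‖z‖) + 2 * (1 - ‖ζ‖))) / dd z ζ ^ 2) := by
    field_simp
    ring
  rw [e]
  have h4 : 0 < dd z ζ ^ 2 := by positivity
  refine mul_le_mul_of_nonneg_left ?_ (by positivity)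
  refine div_le_div_of_nonneg_right ?_ h4.le
  linarith

/-! ### angles -/

theorem unit_eq_exp_arg {z : ℂ} (hz : z ≠ 0) :
    z / ((‖z‖ : ℝ) : ℂ) = Complex.exp ((z.arg : ℂ) * Complex.I) := by
  have h := Complex.norm_mul_exp_arg_mul_I z
  have hn : ((‖z‖ : ℝ) : ℂ) ≠ 0 := by exact_mod_cast (norm_pos_iff.2 hz).ne'
  rw [div_eq_iff hn, mul_comm]
  exact h.symm

theorem norm_unit {z : ℂ} (hz : z ≠ 0) : ‖z / ((‖z‖ : ℝ) : ℂ)‖ = 1 := by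
  rw [norm_div, Complex.norm_real, norm_norm]
  exact div_self (norm_pos_iff.2 hz).ne'

/-- for a unimodular `p` and `0 ≤ s ≤ 1` : `|1 - p| ≤ 2 |1 - s p|` -/
theorem one_sub_unit_le {p : ℂ} (hp : ‖p‖ = 1) {s : ℝ} (hs0 : 0 ≤ s) (hs1 : s ≤ 1) :
    ‖1 - p‖ ≤ 2 * ‖1 - (s : ℂ) * p‖ := by
  have h1 : ‖1 - p‖ ≤ ‖1 - (s : ℂ) * p‖ + ‖((s : ℂ) - 1) * p‖ := by
    have : 1 - p = (1 - (s : ℂ) * p) + ((s : ℂ) - 1) * p := by ring
    calc ‖1 - p‖ = ‖(1 - (s : ℂ) * p) + ((s : ℂ) - 1) * p‖ := by rw [← this]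
      _ ≤ _ := norm_add_le _ _
  have h2 : ‖((s : ℂ) - 1) * p‖ = 1 - s := by
    rw [norm_mul, hp, mul_one, ← Complex.ofReal_one, ← Complex.ofReal_sub, Complex.norm_real,
      Real.norm_eq_abs, abs_of_nonpos (by linarith)]
    ring
  have h3 : 1 - s ≤ ‖1 - (s : ℂ) * p‖ := by
    have := norm_sub_norm_le (1:ℂ) ((s : ℂ) * p)
    rw [norm_one, norm_mul, hp, mul_one, Complex.norm_real, Real.norm_eq_abs,
      abs_of_nonneg hs0] at this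
    exact this
  linarith

/-- polar form of `z conj ζ` -/
theorem mul_conj_polar {z ζ : ℂ} (hz : z ≠ 0) (hζ : ζ ≠ 0) :
    z * (starRingEnd ℂ) ζ = ((‖z‖ * ‖ζ‖ : ℝ) : ℂ) *
      ((z / ((‖z‖ : ℝ) : ℂ)) * (starRingEnd ℂ) (ζ / ((‖ζ‖ : ℝ) : ℂ))) := by
  have hn : ((‖z‖ : ℝ) : ℂ) ≠ 0 := by exact_mod_cast (norm_pos_iff.2 hz).ne'
  have hm : ((‖ζ‖ : ℝ) : ℂ) ≠ 0 := by exact_mod_cast (norm_pos_iff.2 hζ).ne'
  rw [map_div₀, Complex.conj_ofReal]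
  push_cast
  field_simp

/-- for unimodular `u`, `v` : `|1 - u conj v| = |u - v|` -/
theorem norm_one_sub_mul_conj {u v : ℂ} (hv : ‖v‖ = 1) :
    ‖1 - u * (starRingEnd ℂ) v‖ = ‖u - v‖ := by
  have hvv : v * (starRingEnd ℂ) v = 1 := by
    rw [Complex.mul_conj, Complex.normSq_eq_norm_sq, hv]; simp
  have : 1 - u * (starRingEnd ℂ) v = (v - u) * (starRingEnd ℂ) v := by
    rw [sub_mul, hvv]
  rw [this, norm_mul, Complex.norm_conj, hv, mul_one, norm_sub_rev]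

/-- chordal distance of the radial projections is at most `2 d` -/
theorem chord_le {z ζ : ℂ} (hz : z ≠ 0) (hζ : ζ ≠ 0) (hz1 : ‖z‖ < 1) (hζ1 : ‖ζ‖ < 1) :
    ‖z / ((‖z‖ : ℝ) : ℂ) - ζ / ((‖ζ‖ : ℝ) : ℂ)‖ ≤ 2 * dd z ζ := by
  rw [← norm_one_sub_mul_conj (norm_unit hζ)]
  unfold dd
  rw [mul_conj_polar hz hζ]
  apply one_sub_unit_le
  · rw [norm_mul, Complex.norm_conj, norm_unit hz, norm_unit hζ, one_mul]
  · positivity
  · have h0 := norm_nonneg z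
    have h1 := norm_nonneg ζ
    nlinarith

/-- `d ≤ (1 - |z|) + (1 - |ζ|) + |u - v|` -/
theorem dd_le {z ζ : ℂ} (hz : z ≠ 0) (hζ : ζ ≠ 0) (hz1 : ‖z‖ < 1) (hζ1 : ‖ζ‖ < 1) :
    dd z ζ ≤ (1 - ‖z‖) + (1 - ‖ζ‖) + ‖z / ((‖z‖ : ℝ) : ℂ) - ζ / ((‖ζ‖ : ℝ) : ℂ)‖ := by
  rw [← norm_one_sub_mul_conj (norm_unit hζ)]
  unfold dd
  rw [mul_conj_polar hz hζ]
  set p := (z / ((‖z‖ : ℝ) : ℂ)) * (starRingEnd ℂ) (ζ / ((‖ζ‖ : ℝ) : ℂ)) with hp
  have hp1 : ‖p‖ = 1 := by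
    rw [hp, norm_mul, Complex.norm_conj, norm_unit hz, norm_unit hζ, one_mul]
  set s : ℝ := ‖z‖ * ‖ζ‖ with hs
  have h0 := norm_nonneg z
  have h1 := norm_nonneg ζ
  have hs0 : 0 ≤ s := by positivity
  have hs1 : s ≤ 1 := by rw [hs]; nlinarith
  have hs2 : 1 - s ≤ (1 - ‖z‖) + (1 - ‖ζ‖) := by rw [hs]; nlinarith
  have : 1 - (s : ℂ) * p = (((1 - s : ℝ)) : ℂ) + (s : ℂ) * (1 - p) := by push_cast; ring
  rw [this]
  calc ‖(((1 - s : ℝ)) : ℂ) + (s : ℂ) * (1 - p)‖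
      ≤ ‖(((1 - s : ℝ)) : ℂ)‖ + ‖(s : ℂ) * (1 - p)‖ := norm_add_le _ _
    _ = (1 - s) + s * ‖1 - p‖ := by
        rw [Complex.norm_real, Real.norm_eq_abs, abs_of_nonneg (by linarith), norm_mul,
          Complex.norm_real, Real.norm_eq_abs, abs_of_nonneg hs0]
    _ ≤ (1 - s) + 1 * ‖1 - p‖ := by gcongr
    _ ≤ _ := by linarith

/-- the signed angle from `ζ` to `z` -/
noncomputable def sang (z ζ : ℂ) : ℝ :=
  ((z / ((‖z‖ : ℝ) : ℂ)) / (ζ / ((‖ζ‖ : ℝ) : ℂ))).arg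

theorem exp_sang {z ζ : ℂ} (hz : z ≠ 0) (hζ : ζ ≠ 0) :
    z / ((‖z‖ : ℝ) : ℂ) = Complex.exp (((ζ.arg + sang z ζ : ℝ) : ℂ) * Complex.I) := by
  have hu := norm_unit hz
  have hv := norm_unit hζ
  set u := z / ((‖z‖ : ℝ) : ℂ) with hu'
  set v := ζ / ((‖ζ‖ : ℝ) : ℂ) with hv'
  have hv0 : v ≠ 0 := by
    intro h; rw [h, norm_zero] at hv; exact zero_ne_one hv
  have h1 := Complex.norm_mul_exp_arg_mul_I (u / v)
  rw [norm_div, hu, hv, div_one, Complex.ofReal_one, one_mul] at h1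
  have h2 : v = Complex.exp ((ζ.arg : ℂ) * Complex.I) := unit_eq_exp_arg hζ
  have h3 : sang z ζ = (u / v).arg := rfl
  push_cast
  rw [h3, add_mul, Complex.exp_add, ← h2, h1]
  field_simp

theorem abs_sang_le_pi (z ζ : ℂ) : |sang z ζ| ≤ Real.pi := Complex.abs_arg_le_pi _

theorem abs_sang_le {z ζ : ℂ} (hz : z ≠ 0) (hζ : ζ ≠ 0) (hz1 : ‖z‖ < 1) (hζ1 : ‖ζ‖ < 1) :
    |sang z ζ| ≤ Real.pi * dd z ζ := by
  have hu := norm_unit hz
  have hv := norm_unit hζ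
  have hu0 : z / ((‖z‖ : ℝ) : ℂ) ≠ 0 := by
    intro h; rw [h, norm_zero] at hu; exact zero_ne_one hu
  have hv0 : ζ / ((‖ζ‖ : ℝ) : ℂ) ≠ 0 := by
    intro h; rw [h, norm_zero] at hv; exact zero_ne_one hv
  have h1 := Complex.angle_le_mul_norm_sub hu hv
  rw [Complex.angle_eq_abs_arg hu0 hv0] at h1
  have h2 := chord_le hz hζ hz1 hζ1
  have hpi := Real.pi_pos
  unfold sang
  calc _ ≤ Real.pi / 2 * ‖z / ((‖z‖ : ℝ) : ℂ) - ζ / ((‖ζ‖ : ℝ) : ℂ)‖ := h1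
    _ ≤ Real.pi / 2 * (2 * dd z ζ) := by gcongr
    _ = _ := by ring

/-! ### boxes -/

/-- the box of size `ℓ` centred at the direction of `ζ` -/
noncomputable def cbox (ζ : ℂ) (ℓ : ℝ) : Set ℂ := box (ζ.arg - Real.pi * ℓ) ℓ

theorem mem_cbox {z ζ : ℂ} (hz : z ≠ 0) (hζ : ζ ≠ 0) (hz1 : ‖z‖ < 1) (hζ1 : ‖ζ‖ < 1)
    {ℓ : ℝ} (h : dd z ζ ≤ ℓ) : z ∈ cbox ζ ℓ := by
  refine ⟨hz, hz1, (one_sub_norm_le_dd hζ1).trans h, ζ.arg + sang z ζ, ?_, exp_sang hz hζ⟩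
  have h1 := abs_sang_le hz hζ hz1 hζ1
  have hpi := Real.pi_pos
  have h2 : |sang z ζ| ≤ Real.pi * ℓ := h1.trans (by gcongr)
  rw [abs_le] at h2
  constructor <;> linarith [h2.1, h2.2]

theorem mem_cbox_one {z ζ : ℂ} (hz : z ≠ 0) (hζ : ζ ≠ 0) (hz1 : ‖z‖ < 1) : z ∈ cbox ζ 1 := by
  refine ⟨hz, hz1, by linarith [norm_nonneg z], ζ.arg + sang z ζ, ?_, exp_sang hz hζ⟩
  have h2 := abs_sang_le_pi z ζ
  rw [abs_le] at h2
  constructor <;> linarith [h2.1, h2.2]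

theorem self_mem_cbox {ζ : ℂ} (hζ : ζ ≠ 0) (hζ1 : ‖ζ‖ < 1) {ℓ : ℝ} (hℓ : 1 - ‖ζ‖ ≤ ℓ) :
    ζ ∈ cbox ζ ℓ := by
  refine ⟨hζ, hζ1, hℓ, ζ.arg, ?_, unit_eq_exp_arg hζ⟩
  have hpi := Real.pi_pos
  have : 0 ≤ ℓ := le_trans (by linarith) hℓ
  constructor <;> nlinarith

theorem box_subset_ball (θ ℓ : ℝ) : box θ ℓ ⊆ Metric.ball (0:ℂ) 1 := by
  intro z hz
  simpa using hz.2.1

theorem box_subset_closedBall {θ ℓ : ℝ} :
    box θ ℓ ⊆ Metric.closedBall (Complex.exp (((θ + Real.pi * ℓ : ℝ) : ℂ) * Complex.I))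
      ((1 + Real.pi) * ℓ) := by
  rintro z ⟨hz, hz1, hzℓ, t, ht, hzt⟩
  rw [Metric.mem_closedBall, dist_eq_norm]
  set e := Complex.exp (((θ + Real.pi * ℓ : ℝ) : ℂ) * Complex.I) with he
  set u := z / ((‖z‖ : ℝ) : ℂ) with hu
  have hn : ((‖z‖ : ℝ) : ℂ) ≠ 0 := by exact_mod_cast (norm_pos_iff.2 hz).ne'
  have h1 : ‖z - u‖ = 1 - ‖z‖ := by
    have : z - u = (((‖z‖ - 1 : ℝ)) : ℂ) * u := by
      have h : z = ((‖z‖ : ℝ) : ℂ) * u := by rw [hu]; field_simp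
      calc z - u = ((‖z‖ : ℝ) : ℂ) * u - u := by rw [← h]
        _ = _ := by push_cast; ring
    rw [this, norm_mul, Complex.norm_real, Real.norm_eq_abs, abs_of_nonpos (by linarith),
      hu, norm_unit hz]
    ring
  have h2 : ‖u - e‖ ≤ Real.pi * ℓ := by
    have h3 : u - e = e * (Complex.exp (Complex.I * ((t - (θ + Real.pi * ℓ) : ℝ) : ℂ)) - 1) := by
      rw [mul_sub, he, ← Complex.exp_add, hzt, mul_one]
      congr 2
      push_cast; ring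
    rw [h3, norm_mul, he, Complex.norm_exp_ofReal_mul_I, one_mul]
    refine (Real.norm_exp_I_mul_ofReal_sub_one_le).trans ?_
    rw [Real.norm_eq_abs, abs_le]
    constructor <;> nlinarith [ht.1, ht.2]
  calc ‖z - e‖ = ‖(z - u) + (u - e)‖ := by congr 1; ring
    _ ≤ ‖z - u‖ + ‖u - e‖ := norm_add_le _ _
    _ ≤ ℓ + Real.pi * ℓ := by linarith
    _ = _ := by ring

theorem mu_box_le {θ ℓ : ℝ} (hℓ : 0 ≤ ℓ) : mu (box θ ℓ) ≤ ENNReal.ofReal (25 * ℓ ^ 2) := by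
  unfold mu
  rw [Measure.smul_apply, smul_eq_mul]
  have h1 : volume.restrict (Metric.ball (0:ℂ) 1) (box θ ℓ) ≤
      ENNReal.ofReal ((1 + Real.pi) * ℓ) ^ 2 * NNReal.pi := by
    calc volume.restrict (Metric.ball (0:ℂ) 1) (box θ ℓ) ≤ volume (box θ ℓ) :=
          Measure.restrict_apply_le _ _
      _ ≤ volume (Metric.closedBall (Complex.exp (((θ + Real.pi * ℓ : ℝ) : ℂ) * Complex.I))
            ((1 + Real.pi) * ℓ)) := measure_mono box_subset_closedBall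
      _ = _ := Complex.volume_closedBall _ _
  refine (mul_le_mul' le_rfl h1).trans ?_
  have hpi := Real.pi_pos
  have hpi4 := Real.pi_le_four
  have e : ((NNReal.pi : ℝ≥0) : ℝ≥0∞) = ENNReal.ofReal Real.pi := by
    rw [← NNReal.coe_real_pi, ENNReal.ofReal_coe_nnreal]
  rw [e, ← ENNReal.ofReal_pow (by positivity), ← ENNReal.ofReal_mul (by positivity),
    ← ENNReal.ofReal_mul (by positivity)]
  apply ENNReal.ofReal_le_ofReal
  have : Real.pi⁻¹ * (((1 + Real.pi) * ℓ) ^ 2 * Real.pi) = (1 + Real.pi) ^ 2 * ℓ ^ 2 := by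
    field_simp
  rw [this]
  have h5 : (1 + Real.pi) ^ 2 ≤ 25 := by nlinarith
  have h6 : 0 ≤ ℓ ^ 2 := sq_nonneg ℓ
  nlinarith

theorem measurableSet_box (θ ℓ : ℝ) : MeasurableSet (box θ ℓ) := by
  have h1 : MeasurableSet ((fun t : ℝ => Complex.exp ((t : ℂ) * Complex.I)) ''
      Set.Icc θ (θ + 2 * Real.pi * ℓ)) := by
    apply IsCompact.measurableSet
    apply isCompact_Icc.image
    fun_prop
  have h2 : Measurable (fun z : ℂ => z / ((‖z‖ : ℝ) : ℂ)) := by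
    refine measurable_id.div ?_
    exact Complex.measurable_ofReal.comp measurable_norm
  have h3 : box θ ℓ = ({z : ℂ | z ≠ 0} ∩ {z : ℂ | ‖z‖ < 1} ∩ {z : ℂ | 1 - ‖z‖ ≤ ℓ}) ∩
      (fun z : ℂ => z / ((‖z‖ : ℝ) : ℂ)) ⁻¹' ((fun t : ℝ => Complex.exp ((t : ℂ) * Complex.I)) ''
      Set.Icc θ (θ + 2 * Real.pi * ℓ)) := by
    ext z
    simp only [box, Set.mem_ofPred_eq, Set.mem_inter_iff, Set.mem_preimage, Set.mem_image]
    constructor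
    · rintro ⟨a, b, c, t, ht, h⟩; exact ⟨⟨⟨a, b⟩, c⟩, t, ht, h.symm⟩
    · rintro ⟨⟨⟨a, b⟩, c⟩, t, ht, h⟩; exact ⟨a, b, c, t, ht, h.symm⟩
  rw [h3]
  refine MeasurableSet.inter (MeasurableSet.inter (MeasurableSet.inter ?_ ?_) ?_) (h2 h1)
  · exact (measurableSet_singleton (0:ℂ)).compl
  · exact measurableSet_lt measurable_norm measurable_const
  · exact measurableSet_le (measurable_const.sub measurable_norm) measurable_const

instance : IsFiniteMeasure mu := by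
  refine ⟨?_⟩
  unfold mu
  rw [Measure.smul_apply, smul_eq_mul]
  refine ENNReal.mul_lt_top ENNReal.ofReal_lt_top ?_
  rw [Measure.restrict_apply_univ]
  exact measure_ball_lt_top

theorem mu_ae : ∀ᵐ z ∂mu, z ≠ 0 ∧ ‖z‖ < 1 := by
  have h1 : ∀ᵐ z ∂mu, z ∈ Metric.ball (0:ℂ) 1 := by
    unfold mu
    exact Measure.ae_smul_measure (ae_restrict_mem Metric.isOpen_ball.measurableSet) _
  have h2 : ∀ᵐ z ∂mu, z ≠ 0 := by
    unfold mu
    refine Measure.ae_smul_measure ?_ _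
    refine ae_restrict_of_ae ?_
    exact Measure.ae_ne volume 0
  filter_upwards [h1, h2] with z hz1 hz2
  exact ⟨hz2, by simpa using hz1⟩

/-! ### the dyadic grids -/

/-- angular coordinate, in units of a full turn -/
noncomputable def ang (z : ℂ) : ℝ := z.arg / (2 * Real.pi)

theorem measurable_ang : Measurable ang := by
  unfold ang
  exact Complex.measurable_arg.div_const _

/-- index of the arc of level `n` of the grid shifted by `β` -/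
noncomputable def dIdx (β : ℝ) (n : ℕ) (z : ℂ) : ℤ := ⌊2 ^ n * (ang z + β)⌋ % 2 ^ n

/-- the part of the punctured disc at distance at most `2 ^ (-n)` from the circle -/
def DD (n : ℕ) : Set ℂ := {z | z ≠ 0 ∧ ‖z‖ < 1 ∧ 1 - ‖z‖ ≤ (1/2) ^ n}

theorem floor_two_mul (x : ℝ) : ⌊x⌋ = ⌊2 * x⌋ / 2 := by
  have h := Int.floor_le (2 * x)
  have h2 := Int.lt_floor_add_one (2 * x)
  rw [Int.floor_eq_iff]
  have hm := Int.mul_ediv_add_emod ⌊2 * x⌋ 2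
  have hm0 := Int.emod_nonneg ⌊2 * x⌋ (by norm_num : (2:ℤ) ≠ 0)
  have hm1 := Int.emod_lt_of_pos ⌊2 * x⌋ (by norm_num : (0:ℤ) < 2)
  set q := ⌊2 * x⌋ / 2
  set r := ⌊2 * x⌋ % 2
  have hr : (⌊2 * x⌋ : ℝ) = 2 * (q : ℝ) + (r : ℝ) := by
    have : ⌊2 * x⌋ = 2 * q + r := hm.symm
    exact_mod_cast this
  have hr0 : (0:ℝ) ≤ r := by exact_mod_cast hm0
  have hr1 : (r:ℝ) ≤ 1 := by
    have : r ≤ 1 := by omega
    exact_mod_cast this
  constructor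
  · linarith
  · linarith

theorem idx_nest (a b : ℤ) (n : ℕ) (h : a % 2 ^ (n+1) = b % 2 ^ (n+1)) :
    (a / 2) % 2 ^ n = (b / 2) % 2 ^ n := by
  have h1 : (2 ^ (n+1) : ℤ) ∣ a - b := (Int.emod_emod_of_dvd _ (dvd_refl _) ▸
    Int.emod_eq_emod_iff_emod_sub_eq_zero.1 h |> Int.dvd_of_emod_eq_zero)
  obtain ⟨k, hk⟩ := h1
  have h2 : a / 2 = b / 2 + 2 ^ n * k := by
    have : a = b + (2 ^ n * k) * 2 := by
      have : a = b + 2 ^ (n+1) * k := by linarith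
      rw [this, pow_succ]; ring
    rw [this, Int.add_mul_ediv_right _ _ (by norm_num)]
  rw [h2, Int.add_mul_emod_self_left]

/-- the dyadic grid shifted by `β` on the punctured disc -/
noncomputable def dGrid (β : ℝ) : Grid ℂ where
  D := DD
  idx := dIdx β
  measD := by
    intro n
    have : DD n = ({z : ℂ | z ≠ 0} ∩ {z : ℂ | ‖z‖ < 1}) ∩ {z : ℂ | 1 - ‖z‖ ≤ (1/2) ^ n} := by
      ext z; simp only [DD, Set.mem_ofPred_eq, Set.mem_inter_iff, and_assoc]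
    rw [this]
    refine MeasurableSet.inter (MeasurableSet.inter ?_ ?_) ?_
    · exact (measurableSet_singleton (0:ℂ)).compl
    · exact measurableSet_lt measurable_norm measurable_const
    · exact measurableSet_le (measurable_const.sub measurable_norm) measurable_const
  measIdx := by
    intro n
    have h1 : Measurable (fun z : ℂ => ⌊2 ^ n * (ang z + β)⌋) :=
      Int.measurable_floor.comp ((measurable_ang.add_const β).const_mul _)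
    have h2 : Measurable (fun k : ℤ => k % 2 ^ n) := measurable_from_top
    exact h2.comp h1
  nest := by
    intro n x y hx hy h
    refine ⟨⟨hx.1, hx.2.1, hx.2.2.trans ?_⟩, ⟨hy.1, hy.2.1, hy.2.2.trans ?_⟩, ?_⟩
    · exact pow_le_pow_of_le_one (by norm_num) (by norm_num) (Nat.le_succ n)
    · exact pow_le_pow_of_le_one (by norm_num) (by norm_num) (Nat.le_succ n)
    · unfold dIdx at *
      rw [floor_two_mul (2 ^ n * (ang x + β)), floor_two_mul (2 ^ n * (ang y + β))]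
      have e : ∀ u : ℝ, 2 * (2 ^ n * u) = 2 ^ (n+1) * u := fun u => by ring
      rw [e, e]
      exact idx_nest _ _ n h

theorem exp_int_shift (t : ℝ) (k : ℤ) :
    Complex.exp (((t - 2 * Real.pi * k : ℝ) : ℂ) * Complex.I)
      = Complex.exp ((t : ℂ) * Complex.I) := by
  rw [Complex.exp_eq_exp_iff_exists_int]
  exact ⟨-k, by push_cast; ring⟩

/-- left endpoint of the arc number `j` of level `n` -/
noncomputable def lft (β : ℝ) (n : ℕ) (j : ℤ) : ℝ := 2 * Real.pi * (j / 2 ^ n - β)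

/-- cells lie in Carleson boxes, quantitative version -/
theorem exists_angle_of_idx (β : ℝ) (n : ℕ) {z : ℂ} (hz : z ≠ 0) :
    ∃ t : ℝ, lft β n (dIdx β n z) ≤ t ∧ t < lft β n (dIdx β n z) + 2 * Real.pi * (1/2) ^ n ∧
      z / ((‖z‖ : ℝ) : ℂ) = Complex.exp ((t : ℂ) * Complex.I) := by
  set j := dIdx β n z with hj
  set m := ⌊2 ^ n * (ang z + β)⌋ with hm
  have h1 := Int.mul_ediv_add_emod m (2 ^ n)
  set k := m / 2 ^ n with hk
  have h2 : m % 2 ^ n = j := rfl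
  rw [h2] at h1
  have h3 : (m : ℝ) = 2 ^ n * (k : ℝ) + (j : ℝ) := by
    have : ((2 ^ n * k + j : ℤ) : ℝ) = (m : ℝ) := by exact_mod_cast h1
    push_cast at this
    linarith
  have hf1 : (m : ℝ) ≤ 2 ^ n * (ang z + β) := Int.floor_le _
  have hf2 : 2 ^ n * (ang z + β) < (m : ℝ) + 1 := Int.lt_floor_add_one _
  have hpi := Real.pi_pos
  have h2n : (0:ℝ) < 2 ^ n := by positivity
  have hang : z.arg = 2 * Real.pi * ang z := by unfold ang; field_simp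
  have hinv : (1/2 : ℝ) ^ n = 1 / 2 ^ n := by rw [div_pow, one_pow]
  refine ⟨z.arg - 2 * Real.pi * k, ?_, ?_, ?_⟩
  · rw [hang]
    unfold lft
    have h5 : (j : ℝ) / 2 ^ n - β ≤ ang z - k := by
      have : (j : ℝ) / 2 ^ n ≤ ang z + β - k := by
        rw [div_le_iff₀ h2n]; nlinarith
      linarith
    have : 2 * Real.pi * ((j : ℝ) / 2 ^ n - β) ≤ 2 * Real.pi * (ang z - k) := by gcongr
    linarith
  · rw [hang]
    unfold lft
    have h5 : ang z - k < (j : ℝ) / 2 ^ n - β + (1/2) ^ n := by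
      have : ang z + β - k < (j : ℝ) / 2 ^ n + (1/2) ^ n := by
        rw [hinv, ← add_div, lt_div_iff₀ h2n]; nlinarith
      linarith
    have : 2 * Real.pi * (ang z - k) < 2 * Real.pi * ((j : ℝ) / 2 ^ n - β + (1/2) ^ n) :=
      mul_lt_mul_of_pos_left h5 (by positivity)
    linarith
  · rw [exp_int_shift]; exact unit_eq_exp_arg hz

/-- converse : a point of the box not on the final ray lies in the cell -/
theorem idx_of_angle (β : ℝ) (n : ℕ) {z : ℂ} (hz : z ≠ 0) {j : ℤ} (hj0 : 0 ≤ j)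
    (hj1 : j < 2 ^ n) {t : ℝ} (ht : lft β n j ≤ t)
    (ht2 : t < lft β n j + 2 * Real.pi * (1/2) ^ n)
    (hzt : z / ((‖z‖ : ℝ) : ℂ) = Complex.exp ((t : ℂ) * Complex.I)) :
    dIdx β n z = j := by
  rw [unit_eq_exp_arg hz, Complex.exp_eq_exp_iff_exists_int] at hzt
  obtain ⟨k, hk⟩ := hzt
  have hk' : z.arg = t + k * (2 * Real.pi) := by
    have h1 : ((z.arg : ℂ)) * Complex.I = ((t : ℂ) + k * (2 * Real.pi)) * Complex.I := by
      rw [hk]; ring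
    have h2 := mul_right_cancel₀ Complex.I_ne_zero h1
    exact_mod_cast h2
  have hpi := Real.pi_pos
  have h2n : (0:ℝ) < 2 ^ n := by positivity
  have hang : ang z = t / (2 * Real.pi) + k := by
    unfold ang; rw [hk']; field_simp
  have hinv : (1/2 : ℝ) ^ n = 1 / 2 ^ n := by rw [div_pow, one_pow]
  have h1 : (j : ℝ) / 2 ^ n - β ≤ t / (2 * Real.pi) := by
    rw [le_div_iff₀ (by positivity)]
    unfold lft at ht; linarith
  have h2 : t / (2 * Real.pi) < (j : ℝ) / 2 ^ n - β + (1/2) ^ n := by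
    rw [div_lt_iff₀ (by positivity)]
    unfold lft at ht2; linarith
  have hfl : ⌊2 ^ n * (ang z + β)⌋ = j + 2 ^ n * k := by
    rw [Int.floor_eq_iff]
    push_cast
    rw [hang]
    rw [hinv] at h2
    have e1 : (2:ℝ) ^ n * ((j : ℝ) / 2 ^ n) = j := by field_simp
    have e2 : (2:ℝ) ^ n * (1 / 2 ^ n) = 1 := by field_simp
    constructor
    · nlinarith
    · nlinarith
  unfold dIdx
  rw [hfl, Int.add_mul_emod_self_left]
  exact Int.emod_eq_of_lt hj0 hj1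

theorem dIdx_nonneg (β : ℝ) (n : ℕ) (z : ℂ) : 0 ≤ dIdx β n z :=
  Int.emod_nonneg _ (by positivity)

theorem dIdx_lt (β : ℝ) (n : ℕ) (z : ℂ) : dIdx β n z < 2 ^ n :=
  Int.emod_lt_of_pos _ (by positivity)

/-- the Carleson box of a cell -/
noncomputable def cellBox (β : ℝ) (n : ℕ) (x : ℂ) : Set ℂ := box (lft β n (dIdx β n x)) ((1/2) ^ n)

theorem cell_subset_cellBox (β : ℝ) (n : ℕ) (x : ℂ) :
    (dGrid β).cell n x ⊆ cellBox β n x := by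
  rintro y ⟨hx, hy, hxy⟩
  have hy' : y ∈ DD n := hy
  obtain ⟨t, ht1, ht2, ht3⟩ := exists_angle_of_idx β n hy'.1
  have hidx : dIdx β n x = dIdx β n y := hxy
  refine ⟨hy'.1, hy'.2.1, hy'.2.2, t, ?_, ht3⟩
  rw [hidx]
  exact ⟨ht1, ht2.le⟩

/-- rays are null sets -/
theorem ray_null (t : ℝ) :
    volume {z : ℂ | z ≠ 0 ∧ z / ((‖z‖ : ℝ) : ℂ) = Complex.exp ((t : ℂ) * Complex.I)} = 0 := by
  set e := Complex.exp ((t : ℂ) * Complex.I) with he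
  have hsub : {z : ℂ | z ≠ 0 ∧ z / ((‖z‖ : ℝ) : ℂ) = e} ⊆ (Submodule.span ℝ {e} : Set ℂ) := by
    rintro z ⟨hz, hze⟩
    rw [SetLike.mem_coe, Submodule.mem_span_singleton]
    refine ⟨‖z‖, ?_⟩
    have hn : ((‖z‖ : ℝ) : ℂ) ≠ 0 := by exact_mod_cast (norm_pos_iff.2 hz).ne'
    rw [← hze, Complex.real_smul]
    field_simp
  refine measure_mono_null hsub ?_
  apply Measure.addHaar_submodule
  intro htop
  have h1 : Module.finrank ℝ (Submodule.span ℝ {e}) = 1 :=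
    finrank_span_singleton (Complex.exp_ne_zero _)
  rw [htop, finrank_top, Complex.finrank_real_complex] at h1
  omega

theorem cellBox_diff (β : ℝ) (n : ℕ) {x : ℂ} (hx : x ∈ DD n) :
    cellBox β n x ⊆ (dGrid β).cell n x ∪ {z : ℂ | z ≠ 0 ∧ z / ((‖z‖ : ℝ) : ℂ) =
      Complex.exp (((lft β n (dIdx β n x) + 2 * Real.pi * (1/2) ^ n : ℝ) : ℂ) * Complex.I)} := by
  rintro z ⟨hz, hz1, hzℓ, t, ht, hzt⟩
  rcases lt_or_eq_of_le ht.2 with h | h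
  · left
    refine ⟨hx, ⟨hz, hz1, hzℓ⟩, ?_⟩
    exact (idx_of_angle β n hz (dIdx_nonneg β n x) (dIdx_lt β n x) ht.1 h hzt).symm
  · right
    refine ⟨hz, ?_⟩
    rw [← h]; exact hzt

theorem measure_cellBox_le (β : ℝ) (n : ℕ) {x : ℂ} (hx : x ∈ DD n) {s : Measure ℂ}
    (hs : s ≪ volume) : s (cellBox β n x) ≤ s ((dGrid β).cell n x) := by
  refine (measure_mono (cellBox_diff β n hx)).trans ?_
  refine (measure_union_le _ _).trans ?_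
  rw [hs (ray_null _), add_zero]

/-- points of a cell are close -/
theorem dd_le_of_rel {β : ℝ} {n : ℕ} {z ζ : ℂ} (h : (dGrid β).Rel n z ζ) :
    dd z ζ ≤ 10 * (1/2) ^ n := by
  have hz : z ∈ DD n := h.1
  have hζ : ζ ∈ DD n := h.2.1
  have hidx : dIdx β n z = dIdx β n ζ := h.2.2
  obtain ⟨t, ht1, ht2, ht3⟩ := exists_angle_of_idx β n hz.1
  obtain ⟨t', ht1', ht2', ht3'⟩ := exists_angle_of_idx β n hζ.1
  rw [← hidx] at ht1' ht2'
  have h1 := dd_le hz.1 hζ.1 hz.2.1 hζ.2.1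
  have hchord : ‖z / ((‖z‖ : ℝ) : ℂ) - ζ / ((‖ζ‖ : ℝ) : ℂ)‖ ≤ 2 * Real.pi * (1/2) ^ n := by
    rw [ht3, ht3']
    have h3 : Complex.exp ((t : ℂ) * Complex.I) - Complex.exp ((t' : ℂ) * Complex.I) =
        Complex.exp ((t' : ℂ) * Complex.I) *
          (Complex.exp (Complex.I * ((t - t' : ℝ) : ℂ)) - 1) := by
      rw [mul_sub, ← Complex.exp_add, mul_one]
      congr 2
      push_cast; ring
    rw [h3, norm_mul, Complex.norm_exp_ofReal_mul_I, one_mul]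
    refine (Real.norm_exp_I_mul_ofReal_sub_one_le).trans ?_
    rw [Real.norm_eq_abs, abs_le]
    constructor <;> linarith
  have hpi4 := Real.pi_le_four
  have hp : (0:ℝ) < (1/2) ^ n := by positivity
  have h5 := hz.2.2
  have h6 := hζ.2.2
  nlinarith

theorem floor_third {n : ℕ} {p q : ℝ} (h : |2 ^ n * p - 2 ^ n * q| ≤ 1 / 4) :
    ⌊2 ^ n * (p + 0)⌋ = ⌊2 ^ n * (q + 0)⌋ ∨ ⌊2 ^ n * (p + 1/3)⌋ = ⌊2 ^ n * (q + 1/3)⌋ := by
  wlog hle : 2 ^ n * p ≤ 2 ^ n * q generalizing p q with H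
  · have h' : |2 ^ n * q - 2 ^ n * p| ≤ 1 / 4 := by rw [abs_sub_comm]; exact h
    rcases H h' (by linarith) with h1 | h1
    · left; exact h1.symm
    · right; exact h1.symm
  by_contra hcon
  push Not at hcon
  obtain ⟨hc1, hc2⟩ := hcon
  rw [add_zero, add_zero] at hc1
  rw [abs_le] at h
  have e : ∀ u : ℝ, 2 ^ n * (u + 1/3) = 2 ^ n * u + 2 ^ n / 3 := fun u => by ring
  rw [e, e] at hc2
  set P : ℝ := 2 ^ n * p
  set Q : ℝ := 2 ^ n * q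
  have hm1 : ⌊P⌋ ≤ ⌊Q⌋ := Int.floor_le_floor hle
  have hm2 : ⌊P + 2 ^ n / 3⌋ ≤ ⌊Q + 2 ^ n / 3⌋ := Int.floor_le_floor (by linarith)
  have hl1 : ⌊P⌋ < ⌊Q⌋ := lt_of_le_of_ne hm1 hc1
  have hl2 : ⌊P + 2 ^ n / 3⌋ < ⌊Q + 2 ^ n / 3⌋ := lt_of_le_of_ne hm2 hc2
  have a1 : P < (⌊Q⌋ : ℝ) := Int.floor_lt.1 hl1
  have a2 : (⌊Q⌋ : ℝ) ≤ Q := Int.floor_le Q
  have b1 : P + 2 ^ n / 3 < (⌊Q + 2 ^ n / 3⌋ : ℝ) := Int.floor_lt.1 hl2
  have b2 : (⌊Q + 2 ^ n / 3⌋ : ℝ) ≤ Q + 2 ^ n / 3 := Int.floor_le _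
  set k := ⌊Q⌋
  set k' := ⌊Q + 2 ^ n / 3⌋
  have c1 : (3 * ((k' : ℝ) - k) - 2 ^ n) < 1 := by linarith [h.1, h.2]
  have c2 : -1 < (3 * ((k' : ℝ) - k) - 2 ^ n) := by linarith [h.1, h.2]
  have d1 : 3 * (k' - k) - 2 ^ n < 1 := by exact_mod_cast c1
  have d2 : -1 < 3 * (k' - k) - 2 ^ n := by exact_mod_cast c2
  have d3 : 3 * (k' - k) = 2 ^ n := by linarith
  have d4 : (3:ℤ) ∣ 2 ^ n := ⟨k' - k, d3.symm⟩
  have d5 : (3:ℤ) ∣ 2 := Int.Prime.dvd_pow' (by norm_num) d4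
  norm_num at d5

/-- **the one-third trick** : points with `d ≤ 2 ^ (-n-1)` share a cell of level `n` in one of
the two grids -/
theorem rel_of_dd_le {n : ℕ} {z ζ : ℂ} (hz : z ≠ 0) (hζ : ζ ≠ 0) (hz1 : ‖z‖ < 1)
    (hζ1 : ‖ζ‖ < 1) (h : dd z ζ ≤ (1/2) ^ (n+1)) :
    (dGrid 0).Rel n z ζ ∨ (dGrid (1/3)).Rel n z ζ := by
  have hpi := Real.pi_pos
  have hp : (0:ℝ) < (1/2) ^ n := by positivity
  have hle : dd z ζ ≤ (1/2) ^ n := by
    refine h.trans ?_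
    rw [pow_succ]; linarith
  have hzD : z ∈ DD n := ⟨hz, hz1, (one_sub_norm_le_dd hζ1).trans hle⟩
  have hζD : ζ ∈ DD n := ⟨hζ, hζ1, (one_sub_norm_le_dd' hz1).trans hle⟩
  -- angles
  have h1 := abs_sang_le hz hζ hz1 hζ1
  have h2 := exp_sang hz hζ
  rw [unit_eq_exp_arg hz, Complex.exp_eq_exp_iff_exists_int] at h2
  obtain ⟨k, hk⟩ := h2
  have hk' : z.arg = (ζ.arg + sang z ζ) + k * (2 * Real.pi) := by
    have h1 : ((z.arg : ℂ)) * Complex.I =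
        (((ζ.arg + sang z ζ : ℝ) : ℂ) + k * (2 * Real.pi)) * Complex.I := by
      rw [hk]; ring
    have h2 := mul_right_cancel₀ Complex.I_ne_zero h1
    exact_mod_cast h2
  have hang : ang z = (ang ζ + sang z ζ / (2 * Real.pi)) + k := by
    unfold ang; rw [hk']; field_simp
  set p : ℝ := ang ζ + sang z ζ / (2 * Real.pi) with hpdef
  have hfl : ∀ β : ℝ, dIdx β n z = ⌊2 ^ n * (p + β)⌋ % 2 ^ n := by
    intro β
    unfold dIdx
    rw [hang]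
    have e : (2:ℝ) ^ n * (p + k + β) = 2 ^ n * (p + β) + ((2 ^ n * k : ℤ) : ℝ) := by
      push_cast; ring
    rw [e, Int.floor_add_intCast, Int.add_mul_emod_self_left]
  have hclose : |2 ^ n * p - 2 ^ n * ang ζ| ≤ 1 / 4 := by
    have e : 2 ^ n * p - 2 ^ n * ang ζ = 2 ^ n * (sang z ζ / (2 * Real.pi)) := by
      rw [hpdef]; ring
    rw [e, abs_mul, abs_div, abs_of_pos (by positivity : (0:ℝ) < 2 ^ n),
      abs_of_pos (by positivity : (0:ℝ) < 2 * Real.pi)]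
    have h3 : |sang z ζ| / (2 * Real.pi) ≤ (1/2) ^ (n+1) / 2 := by
      rw [div_le_iff₀ (by positivity)]
      calc |sang z ζ| ≤ Real.pi * dd z ζ := h1
        _ ≤ Real.pi * (1/2) ^ (n+1) := by gcongr
        _ = _ := by ring
    calc 2 ^ n * (|sang z ζ| / (2 * Real.pi)) ≤ 2 ^ n * ((1/2) ^ (n+1) / 2) := by gcongr
      _ = (2 * (1/2 : ℝ)) ^ n / 4 := by rw [mul_pow, pow_succ]; ring
      _ = 1 / 4 := by norm_num
  rcases floor_third hclose with h | h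
  · left
    refine ⟨hzD, hζD, ?_⟩
    change dIdx 0 n z = dIdx 0 n ζ
    rw [hfl 0, h]; rfl
  · right
    refine ⟨hzD, hζD, ?_⟩
    change dIdx (1/3) n z = dIdx (1/3) n ζ
    rw [hfl (1/3), h]; rfl

theorem rel_zero {z ζ : ℂ} (hz : z ≠ 0) (hζ : ζ ≠ 0) (hz1 : ‖z‖ < 1)
    (hζ1 : ‖ζ‖ < 1) : (dGrid 0).Rel 0 z ζ := by
  refine ⟨⟨hz, hz1, ?_⟩, ⟨hζ, hζ1, ?_⟩, ?_⟩
  · rw [pow_zero]; linarith [norm_nonneg z]
  · rw [pow_zero]; linarith [norm_nonneg ζ]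
  · change dIdx 0 0 z = dIdx 0 0 ζ
    unfold dIdx; simp

/-- the level at which two points are covered -/
theorem exists_level {z ζ : ℂ} (hz : z ≠ 0) (hζ : ζ ≠ 0) (hz1 : ‖z‖ < 1)
    (hζ1 : ‖ζ‖ < 1) : ∃ n : ℕ, ((dGrid 0).Rel n z ζ ∨ (dGrid (1/3)).Rel n z ζ) ∧
      1 / dd z ζ ^ 2 ≤ 16 * 4 ^ n := by
  have hd := dd_pos hz1 hζ1
  by_cases h : dd z ζ ≤ 1/2
  · obtain ⟨n, hn1, hn2⟩ := exists_nat_pow_near_of_lt_one hd (by linarith : dd z ζ ≤ 1)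
      (by norm_num : (0:ℝ) < 1/2) (by norm_num : (1/2:ℝ) < 1)
    -- (1/2)^(n+1) < d ≤ (1/2)^n
    have hn0 : n ≠ 0 := by
      rintro rfl
      norm_num at hn1
      linarith
    obtain ⟨m, rfl⟩ : ∃ m, n = m + 1 := ⟨n - 1, by omega⟩
    refine ⟨m, rel_of_dd_le hz hζ hz1 hζ1 hn2, ?_⟩
    rw [div_le_iff₀ (by positivity)]
    have h1 : ((1/2 : ℝ) ^ (m+1+1)) ^ 2 ≤ dd z ζ ^ 2 := by gcongr
    have h2 : ((1/2 : ℝ) ^ (m+1+1)) ^ 2 * (16 * 4 ^ m) = 1 := by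
      have h3 : ((1/2 : ℝ) ^ m) ^ 2 * 4 ^ m = 1 := by
        rw [← pow_mul, mul_comm m 2, pow_mul, ← mul_pow]; norm_num
      have h4 : (1/2 : ℝ) ^ (m+1+1) = (1/2) ^ m * (1/4) := by ring
      rw [h4, mul_pow]
      linarith
    calc (1:ℝ) = ((1/2 : ℝ) ^ (m+1+1)) ^ 2 * (16 * 4 ^ m) := h2.symm
      _ ≤ dd z ζ ^ 2 * (16 * 4 ^ m) := by gcongr
      _ = _ := by ring
  · refine ⟨0, Or.inl (rel_zero hz hζ hz1 hζ1), ?_⟩
    push Not at h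
    rw [div_le_iff₀ (by positivity)]
    nlinarith

end Pool.Agent.Bergman
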