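import Mathlib
import Pool.Agent.Bergman.Geometry

/-!
The part of the Bergman kernel controlled by the Carleson box maximal function.
-/

set_option autoImplicit false

open MeasureTheory
open scoped ENNReal NNReal

namespace Pool.Agent.Bergman

/-- the localised kernel `1/d + (1-|ζ|)/d^3` -/
noncomputable def kk (z ζ : ℂ) : ℝ := 1 / dd z ζ + (1 - ‖ζ‖) / dd z ζ ^ 3

/-- the Carleson box maximal function (for nonnegative functions) -/
noncomputable def Mx (h : ℂ → ℝ≥0∞) (x : ℂ) : ℝ≥0∞ :=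
  ⨆ (θ : ℝ) (ℓ : ℝ) (_ : 0 < ℓ ∧ ℓ ≤ 1 ∧ x ∈ box θ ℓ), (∫⁻ ζ in box θ ℓ, h ζ ∂mu) / mu (box θ ℓ)

theorem lintegral_box_le (h : ℂ → ℝ≥0∞) {x : ℂ} {θ ℓ : ℝ} (h0 : 0 < ℓ) (h1 : ℓ ≤ 1)
    (hx : x ∈ box θ ℓ) : ∫⁻ ζ in box θ ℓ, h ζ ∂mu ≤ mu (box θ ℓ) * Mx h x := by
  by_cases hz : mu (box θ ℓ) = 0
  · rw [setLIntegral_measure_zero _ _ hz]; exact bot_le
  · have h2 : (∫⁻ ζ in box θ ℓ, h ζ ∂mu) / mu (box θ ℓ) ≤ Mx h x := by
      unfold Mx
      exact le_iSup_of_le θ (le_iSup_of_le ℓ (le_iSup_of_le ⟨h0, h1, hx⟩ le_rfl))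
    calc ∫⁻ ζ in box θ ℓ, h ζ ∂mu
        = mu (box θ ℓ) * ((∫⁻ ζ in box θ ℓ, h ζ ∂mu) / mu (box θ ℓ)) :=
          (ENNReal.mul_div_cancel hz (measure_ne_top _ _)).symm
      _ ≤ _ := mul_le_mul' le_rfl h2

theorem Mx_mono {h h' : ℂ → ℝ≥0∞} (hh : ∀ x, h x ≤ h' x) (x : ℂ) : Mx h x ≤ Mx h' x := by
  unfold Mx
  refine iSup_mono fun θ => iSup_mono fun ℓ => iSup_mono fun _ => ?_
  exact ENNReal.div_le_div_right (lintegral_mono hh) _

/-- finite geometric sums up to a given scale -/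
theorem tail_sum_le {H : ℝ} (hH : 0 ≤ H) :
    ∑' n : ℕ, (if H ≤ (1/2) ^ n then ENNReal.ofReal (2 ^ n * H) else 0) ≤ 2 := by
  have key : ∀ N : ℕ, ∑ n ∈ Finset.range N,
      (if H ≤ (1/2:ℝ) ^ n then ENNReal.ofReal (2 ^ n * H) else 0) ≤ ENNReal.ofReal (2 ^ N * H)
      ∧ ∑ n ∈ Finset.range N,
      (if H ≤ (1/2:ℝ) ^ n then ENNReal.ofReal (2 ^ n * H) else 0) ≤ 2 := by
    intro N
    induction N with
    | zero => simp
    | succ N ih =>
      rw [Finset.sum_range_succ]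
      by_cases h : H ≤ (1/2:ℝ) ^ N
      · rw [if_pos h]
        have e : ENNReal.ofReal (2 ^ (N+1) * H) =
            ENNReal.ofReal (2 ^ N * H) + ENNReal.ofReal (2 ^ N * H) := by
          rw [← ENNReal.ofReal_add (by positivity) (by positivity)]
          congr 1; ring
        have h1 : 2 ^ N * H ≤ 1 := by
          calc 2 ^ N * H ≤ 2 ^ N * (1/2:ℝ) ^ N := by gcongr
            _ = 1 := by rw [← mul_pow]; norm_num
        refine ⟨?_, ?_⟩
        · rw [e]; exact add_le_add ih.1 le_rfl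
        · refine (add_le_add ih.1 le_rfl).trans ?_
          rw [← e]
          have : (2:ℝ≥0∞) = ENNReal.ofReal 2 := by simp
          rw [this]
          apply ENNReal.ofReal_le_ofReal
          rw [pow_succ]; linarith
      · rw [if_neg h, add_zero]
        refine ⟨ih.1.trans (ENNReal.ofReal_le_ofReal ?_), ih.2⟩
        rw [pow_succ]
        have : 0 ≤ 2 ^ N * H := by positivity
        linarith
  exact ENNReal.tsum_le_of_sum_range_le fun N => (key N).2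

/-- coefficients of the decomposition of the kernel -/
noncomputable def cf (ζ : ℂ) (n : ℕ) : ℝ≥0∞ :=
  if 1 - ‖ζ‖ ≤ (1/2) ^ n then ENNReal.ofReal (2 * 2 ^ n + 8 * 8 ^ n * (1 - ‖ζ‖)) else 0

theorem kk_le_tsum {z ζ : ℂ} (hz : z ≠ 0) (hζ : ζ ≠ 0) (hz1 : ‖z‖ < 1) (hζ1 : ‖ζ‖ < 1) :
    ENNReal.ofReal (kk z ζ) ≤
      ∑' n : ℕ, cf ζ n * (cbox ζ ((1/2) ^ n)).indicator (fun _ => (1:ℝ≥0∞)) z := by
  have hd := dd_pos hz1 hζ1
  -- the level
  have hex : ∃ n : ℕ, z ∈ cbox ζ ((1/2) ^ n) ∧ 1 - ‖ζ‖ ≤ (1/2) ^ n ∧ (1/2:ℝ) ^ (n+1) ≤ dd z ζ := by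
    by_cases h : dd z ζ ≤ 1
    · obtain ⟨n, hn1, hn2⟩ := exists_nat_pow_near_of_lt_one hd h
        (by norm_num : (0:ℝ) < 1/2) (by norm_num : (1/2:ℝ) < 1)
      exact ⟨n, mem_cbox hz hζ hz1 hζ1 hn2, (one_sub_norm_le_dd' hz1).trans hn2, hn1.le⟩
    · refine ⟨0, ?_, ?_, ?_⟩
      · rw [pow_zero]; exact mem_cbox_one hz hζ hz1
      · rw [pow_zero]; linarith [norm_nonneg ζ]
      · push Not at h; norm_num; linarith
  obtain ⟨n, hn1, hn2, hn3⟩ := hex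
  refine le_trans ?_ (ENNReal.le_tsum n)
  rw [Set.indicator_of_mem hn1, mul_one, cf, if_pos hn2]
  apply ENNReal.ofReal_le_ofReal
  unfold kk
  have hH : 0 < 1 - ‖ζ‖ := by linarith
  have h1 : 1 / dd z ζ ≤ 2 * 2 ^ n := by
    rw [div_le_iff₀ hd]
    calc (1:ℝ) = 2 * 2 ^ n * (1/2) ^ (n+1) := by
          rw [pow_succ]
          have : (2:ℝ) ^ n * (1/2) ^ n = 1 := by rw [← mul_pow]; norm_num
          linarith
      _ ≤ 2 * 2 ^ n * dd z ζ := by gcongr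
  have h2 : (1 - ‖ζ‖) / dd z ζ ^ 3 ≤ 8 * 8 ^ n * (1 - ‖ζ‖) := by
    have h3 : (1 / dd z ζ) ^ 3 ≤ (2 * 2 ^ n) ^ 3 := by gcongr
    have h4 : ((2:ℝ) * 2 ^ n) ^ 3 = 8 * 8 ^ n := by
      rw [mul_pow, ← pow_mul, mul_comm n 3, pow_mul]; norm_num
    rw [h4] at h3
    calc (1 - ‖ζ‖) / dd z ζ ^ 3 = (1 - ‖ζ‖) * (1 / dd z ζ) ^ 3 := by
          rw [div_pow, one_pow]; ring
      _ ≤ (1 - ‖ζ‖) * (8 * 8 ^ n) := by gcongr
      _ = _ := by ring
  linarith

theorem cf_sum_le {ζ : ℂ} (hζ1 : ‖ζ‖ < 1) :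
    ∑' n : ℕ, cf ζ n * ENNReal.ofReal (25 * ((1/2) ^ n) ^ 2) ≤ 500 := by
  have hH : 0 < 1 - ‖ζ‖ := by linarith
  have h1 : ∀ n : ℕ, cf ζ n * ENNReal.ofReal (25 * ((1/2) ^ n) ^ 2) ≤
      ENNReal.ofReal (50 * (1/2) ^ n) +
      200 * (if 1 - ‖ζ‖ ≤ (1/2) ^ n then ENNReal.ofReal (2 ^ n * (1 - ‖ζ‖)) else 0) := by
    intro n
    unfold cf
    by_cases h : 1 - ‖ζ‖ ≤ (1/2) ^ n
    · rw [if_pos h, if_pos h, ← ENNReal.ofReal_mul (by positivity)]
      have e200 : (200:ℝ≥0∞) = ENNReal.ofReal 200 := by simp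
      rw [e200, ← ENNReal.ofReal_mul (by norm_num), ← ENNReal.ofReal_add (by positivity)
        (by positivity)]
      apply ENNReal.ofReal_le_ofReal
      have e1 : (2:ℝ) ^ n * ((1/2) ^ n) ^ 2 = (1/2) ^ n := by
        have : (2:ℝ) ^ n * (1/2) ^ n = 1 := by rw [← mul_pow]; norm_num
        calc (2:ℝ) ^ n * ((1/2) ^ n) ^ 2 = ((2:ℝ) ^ n * (1/2) ^ n) * (1/2) ^ n := by ring
          _ = _ := by rw [this, one_mul]
      have e2 : (8:ℝ) ^ n * ((1/2) ^ n) ^ 2 = 2 ^ n := by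
        rw [← pow_mul, mul_comm n 2, pow_mul, ← mul_pow]; norm_num
      have e3 : (2 * 2 ^ n + 8 * 8 ^ n * (1 - ‖ζ‖)) * (25 * ((1/2:ℝ) ^ n) ^ 2)
          = 50 * ((2:ℝ) ^ n * ((1/2) ^ n) ^ 2) +
            200 * (((8:ℝ) ^ n * ((1/2) ^ n) ^ 2) * (1 - ‖ζ‖)) := by ring
      rw [e3, e1, e2]
    · rw [if_neg h, zero_mul]; exact bot_le
  calc ∑' n : ℕ, cf ζ n * ENNReal.ofReal (25 * ((1/2) ^ n) ^ 2)
      ≤ ∑' n : ℕ, (ENNReal.ofReal (50 * (1/2) ^ n) +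
      200 * (if 1 - ‖ζ‖ ≤ (1/2) ^ n then ENNReal.ofReal (2 ^ n * (1 - ‖ζ‖)) else 0)) :=
        ENNReal.tsum_le_tsum h1
    _ = ∑' n : ℕ, ENNReal.ofReal (50 * (1/2) ^ n) +
      ∑' n : ℕ, 200 * (if 1 - ‖ζ‖ ≤ (1/2) ^ n then ENNReal.ofReal (2 ^ n * (1 - ‖ζ‖)) else 0) :=
        ENNReal.tsum_add
    _ ≤ 100 + 200 * 2 := by
        refine add_le_add ?_ ?_
        · rw [← ENNReal.ofReal_tsum_of_nonneg (fun n => by positivity)
            ((summable_geometric_two).mul_left 50), tsum_mul_left, tsum_geometric_two]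
          norm_num
        · rw [ENNReal.tsum_mul_left]
          exact mul_le_mul' le_rfl (tail_sum_le hH.le)
    _ = 500 := by norm_num

theorem measurable_kk : Measurable (fun p : ℂ × ℂ => kk p.1 p.2) := by
  unfold kk
  have h1 := measurable_dd
  exact (measurable_const.div h1).add ((measurable_const.sub (measurable_norm.comp
    measurable_snd)).div (h1.pow_const 3))

/-- **Lemma A** : the localised kernel is dominated by the maximal function. -/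
theorem lintegral_kk_le {ζ : ℂ} (hζ : ζ ≠ 0) (hζ1 : ‖ζ‖ < 1) {h : ℂ → ℝ≥0∞}
    (hh : AEMeasurable h mu) :
    ∫⁻ z, ENNReal.ofReal (kk z ζ) * h z ∂mu ≤ 500 * Mx h ζ := by
  have hbm : ∀ n : ℕ, MeasurableSet (cbox ζ ((1/2) ^ n)) := fun n => measurableSet_box _ _
  calc ∫⁻ z, ENNReal.ofReal (kk z ζ) * h z ∂mu
      ≤ ∫⁻ z, ∑' n : ℕ, cf ζ n * (cbox ζ ((1/2) ^ n)).indicator h z ∂mu := by
        refine lintegral_mono_ae ?_
        filter_upwards [mu_ae] with z hz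
        calc ENNReal.ofReal (kk z ζ) * h z
            ≤ (∑' n : ℕ, cf ζ n * (cbox ζ ((1/2) ^ n)).indicator (fun _ => (1:ℝ≥0∞)) z) * h z :=
              mul_le_mul' (kk_le_tsum hz.1 hζ hz.2 hζ1) le_rfl
          _ = ∑' n : ℕ, cf ζ n * (cbox ζ ((1/2) ^ n)).indicator h z := by
              rw [← ENNReal.tsum_mul_right]
              refine tsum_congr fun n => ?_
              by_cases hzn : z ∈ cbox ζ ((1/2) ^ n)
              · rw [Set.indicator_of_mem hzn, Set.indicator_of_mem hzn, mul_one]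
              · rw [Set.indicator_of_notMem hzn, Set.indicator_of_notMem hzn, mul_zero, zero_mul]
    _ = ∑' n : ℕ, cf ζ n * ∫⁻ z in cbox ζ ((1/2) ^ n), h z ∂mu := by
        rw [lintegral_tsum]
        · refine tsum_congr fun n => ?_
          rw [lintegral_const_mul'' _ (hh.indicator (hbm n)), lintegral_indicator (hbm n)]
        · intro n
          exact (hh.indicator (hbm n)).const_mul _
    _ ≤ ∑' n : ℕ, (cf ζ n * ENNReal.ofReal (25 * ((1/2) ^ n) ^ 2)) * Mx h ζ := by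
        refine ENNReal.tsum_le_tsum fun n => ?_
        by_cases hn : 1 - ‖ζ‖ ≤ (1/2) ^ n
        · rw [mul_assoc]
          refine mul_le_mul' le_rfl ?_
          have hpos : (0:ℝ) < (1/2) ^ n := by positivity
          have hle1 : ((1:ℝ)/2) ^ n ≤ 1 := pow_le_one₀ (by norm_num) (by norm_num)
          refine (lintegral_box_le h hpos hle1 (self_mem_cbox hζ hζ1 hn)).trans ?_
          exact mul_le_mul' (mu_box_le hpos.le) le_rfl
        · rw [cf, if_neg hn, zero_mul]; exact bot_le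
    _ = (∑' n : ℕ, cf ζ n * ENNReal.ofReal (25 * ((1/2) ^ n) ^ 2)) * Mx h ζ := by
        rw [ENNReal.tsum_mul_right]
    _ ≤ 500 * Mx h ζ := mul_le_mul' (cf_sum_le hζ1) le_rfl

/-- Cauchy-Schwarz where the second function need not be measurable -/
theorem cs_sq' {X : Type*} [MeasurableSpace X] (m : Measure X) {u v : X → ℝ≥0∞}
    (hu : Measurable u) (hu' : ∀ x, u x ≠ ∞) :
    (∫⁻ x, u x * v x ∂m) ^ 2 ≤ (∫⁻ x, u x ^ 2 ∂m) * (∫⁻ x, v x ^ 2 ∂m) := by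
  obtain ⟨φ, hφ, hle, heq⟩ := exists_measurable_le_lintegral_eq m (fun x => u x * v x)
  rw [heq]
  have h1 : ∀ x, φ x = u x * (φ x / u x) := by
    intro x
    by_cases h0 : u x = 0
    · have := hle x
      simp only [h0, zero_mul] at this
      rw [h0, zero_mul]
      exact le_antisymm this bot_le
    · exact (ENNReal.mul_div_cancel h0 (hu' x)).symm
  have h2 : ∀ x, φ x / u x ≤ v x := fun x => ENNReal.div_le_of_le_mul' (hle x)
  calc (∫⁻ x, φ x ∂m) ^ 2 = (∫⁻ x, u x * (φ x / u x) ∂m) ^ 2 := by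
        congr 1; exact lintegral_congr h1
    _ ≤ (∫⁻ x, u x ^ 2 ∂m) * (∫⁻ x, (φ x / u x) ^ 2 ∂m) :=
        cs_sq m hu.aemeasurable (hφ.div hu).aemeasurable
    _ ≤ _ := mul_le_mul' le_rfl (lintegral_mono fun x => pow_le_pow_left' (h2 x) 2)

/-- weighted Cauchy-Schwarz -/
theorem cs_weight {X : Type*} [MeasurableSpace X] (m : Measure X) {S u v : X → ℝ≥0∞}
    (hS : Measurable S) (hS' : ∀ x, S x ≠ ∞) (hu : Measurable u) (hu' : ∀ x, u x ≠ ∞) :
    (∫⁻ x, S x * (u x * v x) ∂m) ^ 2 ≤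
      (∫⁻ x, S x * u x ^ 2 ∂m) * (∫⁻ x, S x * v x ^ 2 ∂m) := by
  have h := cs_sq' m (u := fun x => S x ^ (1 / (2:ℝ)) * u x) (v := fun x => S x ^ (1 / (2:ℝ)) * v x)
    ((hS.pow_const _).mul hu)
    (fun x => ENNReal.mul_ne_top (ENNReal.rpow_ne_top_of_nonneg (by norm_num) (hS' x)) (hu' x))
  have e : ∀ x, S x ^ (1 / (2:ℝ)) * S x ^ (1 / (2:ℝ)) = S x := by
    intro x; rw [← sq, Grid.sqrt_sq]
  have e1 : ∀ x, S x ^ (1 / (2:ℝ)) * u x * (S x ^ (1 / (2:ℝ)) * v x) = S x * (u x * v x) := by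
    intro x
    calc _ = (S x ^ (1 / (2:ℝ)) * S x ^ (1 / (2:ℝ))) * (u x * v x) := by ring
      _ = _ := by rw [e]
  have e2 : ∀ (t : X → ℝ≥0∞) x, (S x ^ (1 / (2:ℝ)) * t x) ^ 2 = S x * t x ^ 2 := by
    intro t x
    rw [mul_pow, Grid.sqrt_sq]
  simp_rw [e1] at h
  rw [show (∫⁻ x, (S x ^ (1 / (2:ℝ)) * u x) ^ 2 ∂m) = ∫⁻ x, S x * u x ^ 2 ∂m from
    lintegral_congr (e2 u), show (∫⁻ x, (S x ^ (1 / (2:ℝ)) * v x) ^ 2 ∂m) =
    ∫⁻ x, S x * v x ^ 2 ∂m from lintegral_congr (e2 v)] at h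
  exact h

/-- duality : if `∫ W T g ≤ K ‖g‖` for all finite valued `g` then `‖T‖ ≤ K` -/
theorem duality {X : Type*} [MeasurableSpace X] (m : Measure X) {W T : X → ℝ≥0∞}
    (hW : Measurable W) (hT : Measurable T) (hfin : ∫⁻ x, W x ∂m ≠ ∞) {K : ℝ≥0∞}
    (h : ∀ g : X → ℝ≥0∞, Measurable g → (∀ x, g x ≠ ∞) →
      (∫⁻ x, W x * (T x * g x) ∂m) ^ 2 ≤ K * ∫⁻ x, W x * g x ^ 2 ∂m) :
    ∫⁻ x, W x * T x ^ 2 ∂m ≤ K := by
  -- truncations
  let g : ℕ → X → ℝ≥0∞ := fun n x => min (T x) n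
  have hgm : ∀ n, Measurable (g n) := fun n => hT.min measurable_const
  have hgf : ∀ n x, g n x ≠ ∞ := fun n x =>
    ne_top_of_le_ne_top (ENNReal.natCast_ne_top n) (min_le_right _ _)
  have hgT : ∀ n x, g n x ≤ T x := fun n x => min_le_left _ _
  have hbd : ∀ n, ∫⁻ x, W x * g n x ^ 2 ∂m ≤ K := by
    intro n
    have h1 := h (g n) (hgm n) (hgf n)
    have h2 : ∫⁻ x, W x * g n x ^ 2 ∂m ≤ ∫⁻ x, W x * (T x * g n x) ∂m := by
      refine lintegral_mono fun x => mul_le_mul' le_rfl ?_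
      rw [sq]; exact mul_le_mul' (hgT n x) le_rfl
    have h3 : (∫⁻ x, W x * g n x ^ 2 ∂m) ^ 2 ≤ K * ∫⁻ x, W x * g n x ^ 2 ∂m :=
      (pow_le_pow_left' h2 2).trans h1
    have h4 : ∫⁻ x, W x * g n x ^ 2 ∂m ≠ ∞ := by
      refine ne_top_of_le_ne_top (b := ∫⁻ x, W x * (n:ℝ≥0∞) ^ 2 ∂m) ?_ ?_
      · rw [lintegral_mul_const _ hW]
        exact ENNReal.mul_ne_top hfin (by simp)
      · refine lintegral_mono fun x => mul_le_mul' le_rfl ?_
        exact pow_le_pow_left' (min_le_right _ _) 2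
    by_cases hz : ∫⁻ x, W x * g n x ^ 2 ∂m = 0
    · rw [hz]; exact bot_le
    · rw [sq] at h3
      exact (ENNReal.mul_le_mul_iff_left hz h4).1 h3
  -- monotone limit
  have hlim : ∀ x, W x * T x ^ 2 = ⨆ n, W x * g n x ^ 2 := by
    intro x
    have hsup : T x = ⨆ n, g n x := by
      apply le_antisymm
      · by_cases ht : T x = ∞
        · rw [ht]
          have : ∀ n : ℕ, g n x = n := by
            intro n; simp only [g, ht]; exact min_eq_right le_top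
          simp_rw [this]
          exact ENNReal.iSup_natCast.ge
        · obtain ⟨n, hn⟩ := ENNReal.exists_nat_gt ht
          refine le_iSup_of_le n ?_
          simp only [g]; exact le_min le_rfl hn.le
      · exact iSup_le fun n => hgT n x
    rw [hsup, ← ENNReal.mul_iSup]
    congr 1
    have hmono : Monotone (fun n => g n x) := by
      intro a b hab
      exact min_le_min le_rfl (by exact_mod_cast hab)
    apply le_antisymm
    · rw [sq, ENNReal.iSup_mul]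
      refine iSup_le fun i => ?_
      rw [ENNReal.mul_iSup]
      refine iSup_le fun j => ?_
      refine le_iSup_of_le (max i j) ?_
      rw [sq]
      exact mul_le_mul' (hmono (le_max_left _ _)) (hmono (le_max_right _ _))
    · refine iSup_le fun i => ?_
      exact pow_le_pow_left' (le_iSup (fun n => g n x) i) 2
  simp_rw [hlim]
  rw [lintegral_iSup]
  · exact iSup_le hbd
  · intro n; exact hW.mul ((hgm n).pow_const 2)
  · intro a b hab x
    refine mul_le_mul' le_rfl (pow_le_pow_left' (min_le_min le_rfl ?_) 2)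
    exact_mod_cast hab

end Pool.Agent.Bergman
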