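import Mathlib
import Pool.Agent.Bergman.Maximal

/-!
Comparison of the Bergman projection with minus the positive Bergman operator under the
two maximal function bounds, and the testing theorem for the positive operator.
-/

set_option autoImplicit false

open MeasureTheory
open scoped ENNReal NNReal

namespace Pool.Agent.Bergman

/-- positive Bergman operator -/
noncomputable def Pp (h : ℂ → ℝ≥0∞) (z : ℂ) : ℝ≥0∞ :=
  ∫⁻ ζ, ENNReal.ofReal (1 / dd z ζ ^ 2) * h ζ ∂mu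

/-- integral operator with kernel `kk` -/
noncomputable def Tk (h : ℂ → ℝ≥0∞) (z : ℂ) : ℝ≥0∞ :=
  ∫⁻ ζ, ENNReal.ofReal (kk z ζ) * h ζ ∂mu

/-- integral operator with the transposed kernel -/
noncomputable def Tk' (h : ℂ → ℝ≥0∞) (z : ℂ) : ℝ≥0∞ :=
  ∫⁻ ζ, ENNReal.ofReal (kk ζ z) * h ζ ∂mu

theorem measurable_kpos : Measurable (fun p : ℂ × ℂ => ENNReal.ofReal (1 / dd p.1 p.2 ^ 2)) :=
  (measurable_const.div (measurable_dd.pow_const 2)).ennreal_ofReal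

theorem measurable_Pp {h : ℂ → ℝ≥0∞} (hh : Measurable h) : Measurable (Pp h) := by
  unfold Pp
  exact Measurable.lintegral_prod_right' (measurable_kpos.mul (hh.comp measurable_snd))

theorem measurable_Tk {h : ℂ → ℝ≥0∞} (hh : Measurable h) : Measurable (Tk h) := by
  unfold Tk
  exact Measurable.lintegral_prod_right' (measurable_kk.ennreal_ofReal.mul
    (hh.comp measurable_snd))

theorem measurable_kk_swap : Measurable (fun p : ℂ × ℂ => kk p.2 p.1) := by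
  unfold kk
  have h1 : Measurable (fun p : ℂ × ℂ => dd p.2 p.1) := by
    simp_rw [fun p : ℂ × ℂ => dd_comm p.2 p.1]
    exact measurable_dd
  exact (measurable_const.div h1).add ((measurable_const.sub (measurable_norm.comp
    measurable_fst)).div (h1.pow_const 3))

theorem measurable_Tk' {h : ℂ → ℝ≥0∞} (hh : Measurable h) : Measurable (Tk' h) := by
  unfold Tk'
  exact Measurable.lintegral_prod_right' (measurable_kk_swap.ennreal_ofReal.mul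
    (hh.comp measurable_snd))

/-- the class of admissible weights -/
structure Wt (S : ℂ → ℝ≥0∞) : Prop where
  meas : Measurable S
  fin : ∀ z, S z ≠ ∞
  int : ∫⁻ z, S z ∂mu ≠ ∞

/-- maximal function bound -/
def MB (S W : ℂ → ℝ≥0∞) (C : ℝ≥0∞) : Prop :=
  ∀ f : ℂ → ℝ≥0∞, Measurable f → (∀ z, f z ≠ ∞) →
    ∫⁻ z, W z * (Mx (fun ζ => S ζ * f ζ) z) ^ 2 ∂mu ≤ C * ∫⁻ ζ, S ζ * f ζ ^ 2 ∂mu

/-- bound for the positive operator -/
def PB (S W : ℂ → ℝ≥0∞) (C : ℝ≥0∞) : Prop :=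
  ∀ f : ℂ → ℝ≥0∞, Measurable f → (∀ z, f z ≠ ∞) →
    ∫⁻ z, W z * (Pp (fun ζ => S ζ * f ζ) z) ^ 2 ∂mu ≤ C * ∫⁻ ζ, S ζ * f ζ ^ 2 ∂mu

/-- testing condition for the positive operator -/
def PT (S W : ℂ → ℝ≥0∞) (C : ℝ≥0∞) : Prop :=
  ∀ θ ℓ : ℝ, 0 < ℓ → ℓ ≤ 1 →
    ∫⁻ z, W z * (Pp ((box θ ℓ).indicator S) z) ^ 2 ∂mu ≤ C * ∫⁻ ζ in box θ ℓ, S ζ ∂mu

theorem Tk'_le {h : ℂ → ℝ≥0∞} (hh : Measurable h) {z : ℂ} (hz : z ≠ 0) (hz1 : ‖z‖ < 1) :
    Tk' h z ≤ 500 * Mx h z := lintegral_kk_le hz hz1 hh.aemeasurable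

theorem Tk'_bound {S W : ℂ → ℝ≥0∞} {C : ℝ≥0∞} (hS : Wt S) (hM : MB S W C)
    {f : ℂ → ℝ≥0∞} (hf : Measurable f) (hf' : ∀ z, f z ≠ ∞) :
    ∫⁻ z, W z * (Tk' (fun ζ => S ζ * f ζ) z) ^ 2 ∂mu ≤ 500 ^ 2 * C * ∫⁻ ζ, S ζ * f ζ ^ 2 ∂mu := by
  calc ∫⁻ z, W z * (Tk' (fun ζ => S ζ * f ζ) z) ^ 2 ∂mu
      ≤ ∫⁻ z, 500 ^ 2 * (W z * (Mx (fun ζ => S ζ * f ζ) z) ^ 2) ∂mu := by
        refine lintegral_mono_ae ?_
        filter_upwards [mu_ae] with z hz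
        calc W z * (Tk' (fun ζ => S ζ * f ζ) z) ^ 2
            ≤ W z * (500 * Mx (fun ζ => S ζ * f ζ) z) ^ 2 :=
              mul_le_mul' le_rfl (pow_le_pow_left' (Tk'_le (hS.meas.mul hf) hz.1 hz.2) 2)
          _ = _ := by ring
    _ = 500 ^ 2 * ∫⁻ z, W z * (Mx (fun ζ => S ζ * f ζ) z) ^ 2 ∂mu := by
        rw [lintegral_const_mul' _ _ (by norm_num)]
    _ ≤ 500 ^ 2 * (C * ∫⁻ ζ, S ζ * f ζ ^ 2 ∂mu) := mul_le_mul' le_rfl (hM f hf hf')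
    _ = _ := by ring

/-- Tonelli for kernel operators -/
theorem tonelli {k : ℂ × ℂ → ℝ≥0∞} (hk : Measurable k) {a b : ℂ → ℝ≥0∞} (ha : Measurable a)
    (hb : Measurable b) :
    ∫⁻ z, a z * ∫⁻ ζ, k (z, ζ) * b ζ ∂mu ∂mu = ∫⁻ ζ, b ζ * ∫⁻ z, k (z, ζ) * a z ∂mu ∂mu := by
  have h1 : ∀ z, a z * ∫⁻ ζ, k (z, ζ) * b ζ ∂mu = ∫⁻ ζ, a z * (k (z, ζ) * b ζ) ∂mu := by
    intro z
    rw [lintegral_const_mul]
    exact (hk.comp measurable_prodMk_left).mul hb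
  have h2 : ∀ ζ, b ζ * ∫⁻ z, k (z, ζ) * a z ∂mu = ∫⁻ z, a z * (k (z, ζ) * b ζ) ∂mu := by
    intro ζ
    rw [← lintegral_const_mul]
    · refine lintegral_congr fun z => ?_
      ring
    · exact (hk.comp measurable_prodMk_right).mul ha
  simp_rw [h1, h2]
  rw [lintegral_lintegral_swap]
  exact ((ha.comp measurable_fst).mul (hk.mul (hb.comp measurable_snd))).aemeasurable

theorem Tk_bound {S W : ℂ → ℝ≥0∞} {C : ℝ≥0∞} (hS : Wt S) (hW : Wt W) (hM : MB W S C)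
    {f : ℂ → ℝ≥0∞} (hf : Measurable f) (hf' : ∀ z, f z ≠ ∞) :
    ∫⁻ z, W z * (Tk (fun ζ => S ζ * f ζ) z) ^ 2 ∂mu ≤ 500 ^ 2 * C * ∫⁻ ζ, S ζ * f ζ ^ 2 ∂mu := by
  refine duality mu hW.meas (measurable_Tk (hS.meas.mul hf)) hW.int ?_
  intro g hg hg'
  have e1 : ∫⁻ z, W z * (Tk (fun ζ => S ζ * f ζ) z * g z) ∂mu =
      ∫⁻ ζ, (S ζ * f ζ) * ∫⁻ z, ENNReal.ofReal (kk z ζ) * (W z * g z) ∂mu ∂mu := by
    have t := tonelli (k := fun p => ENNReal.ofReal (kk p.1 p.2)) measurable_kk.ennreal_ofReal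
      (hW.meas.mul hg) (hS.meas.mul hf)
    refine Eq.trans ?_ t
    refine lintegral_congr fun z => ?_
    change W z * (Tk (fun ζ => S ζ * f ζ) z * g z) = W z * g z * Tk (fun ζ => S ζ * f ζ) z
    ring
  have e2 : ∫⁻ z, W z * (Tk (fun ζ => S ζ * f ζ) z * g z) ∂mu ≤
      500 * ∫⁻ ζ, S ζ * (f ζ * Mx (fun z => W z * g z) ζ) ∂mu := by
    rw [e1, ← lintegral_const_mul' _ _ (by norm_num)]
    refine lintegral_mono_ae ?_
    filter_upwards [mu_ae] with ζ hζ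
    calc (S ζ * f ζ) * ∫⁻ z, ENNReal.ofReal (kk z ζ) * (W z * g z) ∂mu
        ≤ (S ζ * f ζ) * (500 * Mx (fun z => W z * g z) ζ) :=
          mul_le_mul' le_rfl (lintegral_kk_le hζ.1 hζ.2 (hW.meas.mul hg).aemeasurable)
      _ = _ := by ring
  calc (∫⁻ z, W z * (Tk (fun ζ => S ζ * f ζ) z * g z) ∂mu) ^ 2
      ≤ (500 * ∫⁻ ζ, S ζ * (f ζ * Mx (fun z => W z * g z) ζ) ∂mu) ^ 2 := pow_le_pow_left' e2 2
    _ = 500 ^ 2 * (∫⁻ ζ, S ζ * (f ζ * Mx (fun z => W z * g z) ζ) ∂mu) ^ 2 := by ring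
    _ ≤ 500 ^ 2 * ((∫⁻ ζ, S ζ * f ζ ^ 2 ∂mu) *
          ∫⁻ ζ, S ζ * (Mx (fun z => W z * g z) ζ) ^ 2 ∂mu) :=
        mul_le_mul' le_rfl (cs_weight mu hS.meas hS.fin hf hf')
    _ ≤ 500 ^ 2 * ((∫⁻ ζ, S ζ * f ζ ^ 2 ∂mu) * (C * ∫⁻ z, W z * g z ^ 2 ∂mu)) :=
        mul_le_mul' le_rfl (mul_le_mul' le_rfl (hM g hg hg'))
    _ = _ := by ring

/-- the positive operator bound is symmetric -/
theorem PB.symm {S W : ℂ → ℝ≥0∞} {C : ℝ≥0∞} (hS : Wt S) (hW : Wt W) (h : PB S W C) :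
    PB W S C := by
  intro g hg hg'
  refine duality mu hS.meas (measurable_Pp (hW.meas.mul hg)) hS.int ?_
  intro f hf hf'
  have e1 : ∫⁻ z, S z * (Pp (fun ζ => W ζ * g ζ) z * f z) ∂mu =
      ∫⁻ ζ, W ζ * (g ζ * Pp (fun z => S z * f z) ζ) ∂mu := by
    have t := tonelli (k := fun p => ENNReal.ofReal (1 / dd p.1 p.2 ^ 2)) measurable_kpos
      (hS.meas.mul hf) (hW.meas.mul hg)
    calc ∫⁻ z, S z * (Pp (fun ζ => W ζ * g ζ) z * f z) ∂mu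
        = ∫⁻ z, (S z * f z) * ∫⁻ ζ, ENNReal.ofReal (1 / dd z ζ ^ 2) * (W ζ * g ζ) ∂mu ∂mu := by
          refine lintegral_congr fun z => ?_
          unfold Pp; ring
      _ = ∫⁻ ζ, (W ζ * g ζ) * ∫⁻ z, ENNReal.ofReal (1 / dd z ζ ^ 2) * (S z * f z) ∂mu ∂mu := t
      _ = _ := by
          refine lintegral_congr fun ζ => ?_
          unfold Pp
          simp_rw [dd_comm ζ]
          ring
  calc (∫⁻ z, S z * (Pp (fun ζ => W ζ * g ζ) z * f z) ∂mu) ^ 2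
      = (∫⁻ ζ, W ζ * (g ζ * Pp (fun z => S z * f z) ζ) ∂mu) ^ 2 := by rw [e1]
    _ ≤ (∫⁻ ζ, W ζ * g ζ ^ 2 ∂mu) * ∫⁻ ζ, W ζ * (Pp (fun z => S z * f z) ζ) ^ 2 ∂mu :=
        cs_weight mu hW.meas hW.fin hg hg'
    _ ≤ (∫⁻ ζ, W ζ * g ζ ^ 2 ∂mu) * (C * ∫⁻ z, S z * f z ^ 2 ∂mu) :=
        mul_le_mul' le_rfl (h f hf hf')
    _ = _ := by ring

theorem three_sq (a b c : ℝ≥0∞) : (a + b + c) ^ 2 ≤ 3 * (a ^ 2 + b ^ 2 + c ^ 2) := by
  rcases eq_or_ne a ∞ with rfl | ha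
  · simp
  rcases eq_or_ne b ∞ with rfl | hb
  · simp
  rcases eq_or_ne c ∞ with rfl | hc
  · simp
  lift a to ℝ≥0 using ha
  lift b to ℝ≥0 using hb
  lift c to ℝ≥0 using hc
  have : (a + b + c) ^ 2 ≤ 3 * (a ^ 2 + b ^ 2 + c ^ 2) := by
    rw [← NNReal.coe_le_coe]
    push_cast
    nlinarith [sq_nonneg ((a:ℝ) - b), sq_nonneg ((b:ℝ) - c), sq_nonneg ((a:ℝ) - c)]
  exact_mod_cast this

/-- combination lemma : if `Pp (S f) ≤ T + 2 Tk + 2 Tk'` almost everywhere -/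
theorem Pp_bound_of {S W : ℂ → ℝ≥0∞} {C₁ C₂ : ℝ≥0∞} (hS : Wt S) (hW : Wt W)
    (hM1 : MB S W C₁) (hM2 : MB W S C₂) {T : ℂ → ℝ≥0∞}
    {f : ℂ → ℝ≥0∞} (hf : Measurable f) (hf' : ∀ z, f z ≠ ∞)
    (h : ∀ᵐ z ∂mu, Pp (fun ζ => S ζ * f ζ) z ≤
      T z + 2 * Tk (fun ζ => S ζ * f ζ) z + 2 * Tk' (fun ζ => S ζ * f ζ) z) :
    ∫⁻ z, W z * (Pp (fun ζ => S ζ * f ζ) z) ^ 2 ∂mu ≤
      3 * (∫⁻ z, W z * T z ^ 2 ∂mu) +
        (3 * (4 * (500 ^ 2 * C₂)) + 3 * (4 * (500 ^ 2 * C₁))) * ∫⁻ ζ, S ζ * f ζ ^ 2 ∂mu := by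
  have hm1 : Measurable (fun z => 3 * (4 * (W z * (Tk (fun ζ => S ζ * f ζ) z) ^ 2))) :=
    ((hW.meas.mul ((measurable_Tk (hS.meas.mul hf)).pow_const 2)).const_mul 4).const_mul 3
  have hm2 : Measurable (fun z => 3 * (4 * (W z * (Tk' (fun ζ => S ζ * f ζ) z) ^ 2))) :=
    ((hW.meas.mul ((measurable_Tk' (hS.meas.mul hf)).pow_const 2)).const_mul 4).const_mul 3
  calc ∫⁻ z, W z * (Pp (fun ζ => S ζ * f ζ) z) ^ 2 ∂mu
      ≤ ∫⁻ z, (3 * (W z * T z ^ 2) + 3 * (4 * (W z * (Tk (fun ζ => S ζ * f ζ) z) ^ 2)))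
          + 3 * (4 * (W z * (Tk' (fun ζ => S ζ * f ζ) z) ^ 2)) ∂mu := by
        refine lintegral_mono_ae ?_
        filter_upwards [h] with z hz
        calc W z * (Pp (fun ζ => S ζ * f ζ) z) ^ 2
            ≤ W z * (3 * (T z ^ 2 + (2 * Tk (fun ζ => S ζ * f ζ) z) ^ 2
                + (2 * Tk' (fun ζ => S ζ * f ζ) z) ^ 2)) :=
              mul_le_mul' le_rfl ((pow_le_pow_left' hz 2).trans (three_sq _ _ _))
          _ = _ := by ring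
    _ = 3 * (∫⁻ z, W z * T z ^ 2 ∂mu)
        + 3 * (4 * ∫⁻ z, W z * (Tk (fun ζ => S ζ * f ζ) z) ^ 2 ∂mu)
        + 3 * (4 * ∫⁻ z, W z * (Tk' (fun ζ => S ζ * f ζ) z) ^ 2 ∂mu) := by
        rw [lintegral_add_right _ hm2, lintegral_add_right _ hm1,
          lintegral_const_mul' _ _ (by norm_num), lintegral_const_mul' _ _ (by norm_num),
          lintegral_const_mul' _ _ (by norm_num), lintegral_const_mul' _ _ (by norm_num),
          lintegral_const_mul' _ _ (by norm_num)]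
    _ ≤ 3 * (∫⁻ z, W z * T z ^ 2 ∂mu)
        + 3 * (4 * (500 ^ 2 * C₂ * ∫⁻ ζ, S ζ * f ζ ^ 2 ∂mu))
        + 3 * (4 * (500 ^ 2 * C₁ * ∫⁻ ζ, S ζ * f ζ ^ 2 ∂mu)) := by
        refine add_le_add (add_le_add le_rfl ?_) ?_
        · exact mul_le_mul' le_rfl (mul_le_mul' le_rfl (Tk_bound hS hW hM2 hf hf'))
        · exact mul_le_mul' le_rfl (mul_le_mul' le_rfl (Tk'_bound hS hM1 hf hf'))
    _ = _ := by ring

/-! ### the complex Bergman projection -/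

theorem dd_ne_zero {z ζ : ℂ} (hz : ‖z‖ < 1) (hζ : ‖ζ‖ < 1) :
    1 - z * (starRingEnd ℂ) ζ ≠ 0 := norm_pos_iff.1 (dd_pos hz hζ)

/-- **the basic comparison** : for `h ≥ 0` integrable, `P⁺ h ≤ |P h| + error`. -/
theorem comparison {h : ℂ → ℝ} (hh : Integrable h mu) (h0 : ∀ᵐ ζ ∂mu, 0 ≤ h ζ) {z : ℂ}
    (hz : ‖z‖ < 1) :
    Pp (fun ζ => ENNReal.ofReal (h ζ)) z ≤
      ‖∫ ζ, (h ζ : ℂ) / (1 - z * (starRingEnd ℂ) ζ) ^ 2 ∂mu‖ₑ
      + 2 * Tk (fun ζ => ENNReal.ofReal (h ζ)) z + 2 * Tk' (fun ζ => ENNReal.ofReal (h ζ)) z := by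
  have hz0 : 0 < 1 - ‖z‖ := by linarith
  have hmeasK : Measurable (fun ζ : ℂ => 1 / (1 - z * (starRingEnd ℂ) ζ) ^ 2) := by
    have : Measurable (fun ζ : ℂ => (starRingEnd ℂ) ζ) := Complex.continuous_conj.measurable
    exact measurable_const.div ((measurable_const.sub (this.const_mul z)).pow_const 2)
  have hmeasd : Measurable (fun ζ : ℂ => dd z ζ) := measurable_dd.comp measurable_prodMk_left
  have hmeasA : Measurable (fun ζ : ℂ => ((1 / (dd z ζ) ^ 2 : ℝ) : ℂ)) :=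
    Complex.measurable_ofReal.comp (measurable_const.div (hmeasd.pow_const 2))
  have hKb : ∀ᵐ ζ ∂mu, ‖1 / (1 - z * (starRingEnd ℂ) ζ) ^ 2‖ ≤ 1 / (1 - ‖z‖) ^ 2 := by
    filter_upwards [mu_ae] with ζ hζ
    have h1 := one_sub_norm_le_dd (z := z) hζ.2
    rw [norm_div, norm_one, norm_pow]
    exact one_div_le_one_div_of_le (by positivity) (pow_le_pow_left₀ hz0.le h1 2)
  have hAb : ∀ᵐ ζ ∂mu, ‖((1 / (dd z ζ) ^ 2 : ℝ) : ℂ)‖ ≤ 1 / (1 - ‖z‖) ^ 2 := by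
    filter_upwards [mu_ae] with ζ hζ
    have h1 := one_sub_norm_le_dd (z := z) hζ.2
    rw [Complex.norm_real, Real.norm_eq_abs, abs_of_nonneg (by positivity)]
    exact one_div_le_one_div_of_le (by positivity) (pow_le_pow_left₀ hz0.le h1 2)
  have hhc : Integrable (fun ζ => (h ζ : ℂ)) mu := hh.ofReal
  have hi1 : Integrable (fun ζ => (1 / (1 - z * (starRingEnd ℂ) ζ) ^ 2) * (h ζ : ℂ)) mu :=
    hhc.bdd_mul hmeasK.aestronglyMeasurable hKb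
  have hi2 : Integrable (fun ζ => ((1 / (dd z ζ) ^ 2 : ℝ) : ℂ) * (h ζ : ℂ)) mu :=
    hhc.bdd_mul hmeasA.aestronglyMeasurable hAb
  -- the positive integral
  have e1 : Pp (fun ζ => ENNReal.ofReal (h ζ)) z =
      ‖∫ ζ, ((1 / (dd z ζ) ^ 2 : ℝ) : ℂ) * (h ζ : ℂ) ∂mu‖ₑ := by
    have hre : ∫ ζ, ((1 / (dd z ζ) ^ 2 : ℝ) : ℂ) * (h ζ : ℂ) ∂mu =
        ((∫ ζ, (1 / (dd z ζ) ^ 2) * h ζ ∂mu : ℝ) : ℂ) := by
      rw [← integral_complex_ofReal]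
      refine integral_congr_ae (Filter.Eventually.of_forall fun ζ => ?_)
      simp only
      push_cast; rfl
    have hint : Integrable (fun ζ => (1 / (dd z ζ) ^ 2) * h ζ) mu := by
      have := hi2.re
      refine this.congr (Filter.Eventually.of_forall fun ζ => ?_)
      simp only [RCLike.re_eq_complex_re]
      rw [← Complex.ofReal_mul, Complex.ofReal_re]
    have hnn : 0 ≤ᵐ[mu] fun ζ => (1 / (dd z ζ) ^ 2) * h ζ := by
      filter_upwards [h0] with ζ hζ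
      exact mul_nonneg (by positivity) hζ
    rw [hre]
    have h2 := ofReal_integral_eq_lintegral_ofReal hint hnn
    have h3 : 0 ≤ ∫ ζ, (1 / (dd z ζ) ^ 2) * h ζ ∂mu := integral_nonneg_of_ae hnn
    rw [← ofReal_norm, Complex.norm_real, Real.norm_eq_abs, abs_of_nonneg h3, h2]
    unfold Pp
    refine lintegral_congr fun ζ => ?_
    rw [← ENNReal.ofReal_mul (by positivity)]
  have e2 : ∫ ζ, ((1 / (dd z ζ) ^ 2 : ℝ) : ℂ) * (h ζ : ℂ) ∂mu =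
      (∫ ζ, (1 / (1 - z * (starRingEnd ℂ) ζ) ^ 2 + ((1 / (dd z ζ) ^ 2 : ℝ) : ℂ)) * (h ζ : ℂ) ∂mu)
      - ∫ ζ, (1 / (1 - z * (starRingEnd ℂ) ζ) ^ 2) * (h ζ : ℂ) ∂mu := by
    rw [← integral_sub _ hi1]
    · refine integral_congr_ae (Filter.Eventually.of_forall fun ζ => ?_)
      simp only; ring
    · refine (hi1.add hi2).congr (Filter.Eventually.of_forall fun ζ => ?_)
      simp only [Pi.add_apply]; ring
  rw [e1, e2]
  have e3 : ∫ ζ, (1 / (1 - z * (starRingEnd ℂ) ζ) ^ 2) * (h ζ : ℂ) ∂mu =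
      ∫ ζ, (h ζ : ℂ) / (1 - z * (starRingEnd ℂ) ζ) ^ 2 ∂mu := by
    refine integral_congr_ae (Filter.Eventually.of_forall fun ζ => ?_)
    simp only; ring
  rw [e3]
  refine (enorm_sub_le).trans ?_
  rw [add_comm, add_assoc]
  refine add_le_add le_rfl ?_
  refine (enorm_integral_le_lintegral_enorm _).trans ?_
  have hmk : Measurable (fun ζ => ENNReal.ofReal (kk z ζ)) :=
    (measurable_kk.comp measurable_prodMk_left).ennreal_ofReal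
  calc ∫⁻ ζ, ‖(1 / (1 - z * (starRingEnd ℂ) ζ) ^ 2 + ((1 / (dd z ζ) ^ 2 : ℝ) : ℂ)) * (h ζ : ℂ)‖ₑ ∂mu
      ≤ ∫⁻ ζ, (2 * (ENNReal.ofReal (kk z ζ) * ENNReal.ofReal (h ζ))
          + 2 * (ENNReal.ofReal (kk ζ z) * ENNReal.ofReal (h ζ))) ∂mu := by
        refine lintegral_mono_ae ?_
        filter_upwards [mu_ae, h0] with ζ hζ hζ0
        have h1 := norm_K_add_le hz hζ.2
        have hk1 : 0 ≤ kk z ζ := by
          unfold kk
          have := dd_pos hz hζ.2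
          have : 0 ≤ 1 - ‖ζ‖ := by linarith [hζ.2]
          positivity
        have hk2 : 0 ≤ kk ζ z := by
          unfold kk
          have := dd_pos hζ.2 hz
          positivity
        have h2 : ‖1 / (1 - z * (starRingEnd ℂ) ζ) ^ 2 + ((1 / (dd z ζ) ^ 2 : ℝ) : ℂ)‖
            ≤ 2 * kk z ζ + 2 * kk ζ z := by
          unfold kk
          rw [dd_comm ζ z]
          exact h1
        rw [enorm_mul, ← ofReal_norm, ← ofReal_norm, Complex.norm_real,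
          Real.norm_eq_abs, abs_of_nonneg hζ0, ← ENNReal.ofReal_mul (norm_nonneg _),
          ← ENNReal.ofReal_mul hk1, ← ENNReal.ofReal_mul hk2]
        have e2' : (2:ℝ≥0∞) = ENNReal.ofReal 2 := by simp
        rw [e2', ← ENNReal.ofReal_mul (by norm_num), ← ENNReal.ofReal_mul (by norm_num),
          ← ENNReal.ofReal_add (by positivity) (by positivity)]
        apply ENNReal.ofReal_le_ofReal
        calc _ ≤ (2 * kk z ζ + 2 * kk ζ z) * h ζ := by gcongr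
          _ = _ := by ring
    _ = 2 * Tk (fun ζ => ENNReal.ofReal (h ζ)) z + 2 * Tk' (fun ζ => ENNReal.ofReal (h ζ)) z := by
        rw [lintegral_add_left']
        · rw [lintegral_const_mul' _ _ (by norm_num), lintegral_const_mul' _ _ (by norm_num)]
          rfl
        · exact ((hmk.aemeasurable.mul hh.1.aemeasurable.ennreal_ofReal).const_mul 2)

end Pool.Agent.Bergman
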