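import Mathlib
import Pool.Agent.Bergman.Operators

/-!
The two weight testing theorem for the positive Bergman operator.
-/

set_option autoImplicit false

open MeasureTheory
open scoped ENNReal NNReal

namespace Pool.Agent.Bergman

theorem mu_ac : mu ≪ volume := by
  unfold mu
  exact (Measure.smul_absolutelyContinuous).trans Measure.absolutelyContinuous_restrict

theorem lint_wd {S : ℂ → ℝ≥0∞} (hS : Wt S) {F : ℂ → ℝ≥0∞} (hF : Measurable F) :
    ∫⁻ z, F z ∂(mu.withDensity S) = ∫⁻ z, S z * F z ∂mu := by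
  rw [lintegral_withDensity_eq_lintegral_mul mu hS.meas hF]
  rfl

theorem finite_wd {S : ℂ → ℝ≥0∞} (hS : Wt S) : IsFiniteMeasure (mu.withDensity S) :=
  isFiniteMeasure_withDensity hS.int

/-- geometric sums up to a level -/
theorem four_sum_le {X : ℝ} (hX : 0 ≤ X) (m N : ℕ) :
    ∑ n ∈ Finset.Ico m N, (if (4:ℝ) ^ n ≤ X then (4:ℝ≥0∞) ^ n else 0) ≤ ENNReal.ofReal (2 * X) := by
  have key : ∀ N : ℕ, ∑ n ∈ Finset.range N,
      (if (4:ℝ) ^ n ≤ X then (4:ℝ≥0∞) ^ n else 0) ≤ ENNReal.ofReal (4 ^ N / 2)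
      ∧ ∑ n ∈ Finset.range N,
      (if (4:ℝ) ^ n ≤ X then (4:ℝ≥0∞) ^ n else 0) ≤ ENNReal.ofReal (2 * X) := by
    intro N
    induction N with
    | zero => simp
    | succ N ih =>
      rw [Finset.sum_range_succ]
      by_cases h : (4:ℝ) ^ N ≤ X
      · rw [if_pos h]
        have e : (4:ℝ≥0∞) ^ N = ENNReal.ofReal (4 ^ N) := by
          rw [ENNReal.ofReal_pow (by norm_num)]; simp
        have hpos : (0:ℝ) < 4 ^ N := by positivity
        have h2 : ENNReal.ofReal ((4:ℝ) ^ N / 2) + (4:ℝ≥0∞) ^ N = ENNReal.ofReal (3 * 4 ^ N / 2) := by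
          rw [e, ← ENNReal.ofReal_add (by positivity) (by positivity)]
          congr 1; ring
        refine ⟨?_, ?_⟩
        · refine (add_le_add ih.1 le_rfl).trans ?_
          rw [h2]
          apply ENNReal.ofReal_le_ofReal
          rw [pow_succ]; linarith
        · refine (add_le_add ih.1 le_rfl).trans ?_
          rw [h2]
          apply ENNReal.ofReal_le_ofReal
          linarith
      · rw [if_neg h, add_zero]
        refine ⟨ih.1.trans (ENNReal.ofReal_le_ofReal ?_), ih.2⟩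
        rw [pow_succ]
        have : (0:ℝ) < 4 ^ N := by positivity
        linarith
  refine le_trans (Finset.sum_le_sum_of_subset ?_) (key N).2
  intro n hn
  rw [Finset.mem_Ico] at hn
  exact Finset.mem_range.2 hn.2

/-- pointwise bound for the local testing function by the positive operator -/
theorem Psi_le {β : ℝ} {W : ℂ → ℝ≥0∞} (hW : Wt W) (N m : ℕ) {x y : ℂ}
    (hxy : (dGrid β).Rel m x y) :
    (dGrid β).Psi (fun n => 4 ^ n) (mu.withDensity W) N m y ≤
      200 * Pp ((cellBox β m x).indicator W) y := by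
  set G := dGrid β with hG
  have hmc : ∀ n, MeasurableSet (G.cell n y) := fun n => Grid.measurableSet_cell n y
  have hbm : MeasurableSet (cellBox β m x) := measurableSet_box _ _
  have e1 : ∀ n, (mu.withDensity W) (G.cell n y) = ∫⁻ ζ, (G.cell n y).indicator W ζ ∂mu := by
    intro n
    rw [withDensity_apply _ (hmc n), lintegral_indicator (hmc n)]
  unfold Grid.Psi
  simp_rw [e1]
  have e2 : ∑ n ∈ Finset.Ico m N, (4:ℝ≥0∞) ^ n * ∫⁻ ζ, (G.cell n y).indicator W ζ ∂mu
      = ∫⁻ ζ, ∑ n ∈ Finset.Ico m N, (4:ℝ≥0∞) ^ n * (G.cell n y).indicator W ζ ∂mu := by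
    rw [lintegral_finsetSum _ (fun n _ => (hW.meas.indicator (hmc n)).const_mul _)]
    refine Finset.sum_congr rfl fun n _ => ?_
    rw [lintegral_const_mul _ (hW.meas.indicator (hmc n))]
  rw [e2]
  unfold Pp
  rw [← lintegral_const_mul' _ _ (by norm_num)]
  refine lintegral_mono fun ζ => ?_
  -- pointwise
  by_cases hζ : G.Rel m y ζ
  · have hx : x ∈ DD m := hxy.1
    have hbox : ζ ∈ cellBox β m x := cell_subset_cellBox β m x (hxy.trans hζ)
    rw [Set.indicator_of_mem hbox]
    have hζD : ζ ∈ DD m := hζ.2.1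
    have hyD : y ∈ DD m := hζ.1
    have hd := dd_pos hyD.2.1 hζD.2.1
    calc ∑ n ∈ Finset.Ico m N, (4:ℝ≥0∞) ^ n * (G.cell n y).indicator W ζ
        ≤ ∑ n ∈ Finset.Ico m N, (if (4:ℝ) ^ n ≤ 100 / dd y ζ ^ 2 then (4:ℝ≥0∞) ^ n else 0) * W ζ := by
          refine Finset.sum_le_sum fun n _ => ?_
          by_cases hn : ζ ∈ G.cell n y
          · rw [Set.indicator_of_mem hn, if_pos]
            have h1 : dd y ζ ≤ 10 * (1/2) ^ n := dd_le_of_rel hn
            rw [le_div_iff₀ (by positivity)]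
            have h2 : dd y ζ ^ 2 ≤ (10 * (1/2) ^ n) ^ 2 := by gcongr
            have h3 : (4:ℝ) ^ n * (10 * (1/2) ^ n) ^ 2 = 100 := by
              have : (4:ℝ) ^ n * ((1/2) ^ n) ^ 2 = 1 := by
                rw [← pow_mul, mul_comm n 2, pow_mul, ← mul_pow]; norm_num
              rw [mul_pow]; linarith
            calc (4:ℝ) ^ n * dd y ζ ^ 2 ≤ (4:ℝ) ^ n * (10 * (1/2) ^ n) ^ 2 := by gcongr
              _ = 100 := h3
          · rw [Set.indicator_of_notMem hn, mul_zero]; exact bot_le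
      _ = (∑ n ∈ Finset.Ico m N, (if (4:ℝ) ^ n ≤ 100 / dd y ζ ^ 2 then (4:ℝ≥0∞) ^ n else 0)) * W ζ := by
          rw [Finset.sum_mul]
      _ ≤ ENNReal.ofReal (2 * (100 / dd y ζ ^ 2)) * W ζ :=
          mul_le_mul' (four_sum_le (by positivity) m N) le_rfl
      _ = 200 * (ENNReal.ofReal (1 / dd y ζ ^ 2) * W ζ) := by
          have : (200:ℝ≥0∞) = ENNReal.ofReal 200 := by simp
          rw [this, ← mul_assoc, ← ENNReal.ofReal_mul (by norm_num)]
          congr 2; ring
  · -- all indicators vanish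
    have : ∑ n ∈ Finset.Ico m N, (4:ℝ≥0∞) ^ n * (G.cell n y).indicator W ζ = 0 := by
      refine Finset.sum_eq_zero fun n hn => ?_
      rw [Finset.mem_Ico] at hn
      rw [Set.indicator_of_notMem, mul_zero]
      intro h
      exact hζ (Grid.Rel.down hn.1 h)
    rw [this]; exact bot_le

theorem test_cell {β : ℝ} {S W : ℂ → ℝ≥0∞} {C : ℝ≥0∞} (hS : Wt S) (hW : Wt W)
    (hT : PT W S C) (N m : ℕ) {x : ℂ} (hx : x ∈ (dGrid β).D m) :
    ∫⁻ y in (dGrid β).cell m x, (dGrid β).Psi (fun n => 4 ^ n) (mu.withDensity W) N m y ^ 2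
      ∂(mu.withDensity S) ≤ (200 ^ 2 * C) * (mu.withDensity W) ((dGrid β).cell m x) := by
  have hxD : x ∈ DD m := hx
  have hpos : (0:ℝ) < (1/2) ^ m := by positivity
  have hle1 : ((1:ℝ)/2) ^ m ≤ 1 := pow_le_one₀ (by norm_num) (by norm_num)
  have hbm : MeasurableSet (cellBox β m x) := measurableSet_box _ _
  have hmP : Measurable (Pp ((cellBox β m x).indicator W)) :=
    measurable_Pp (hW.meas.indicator hbm)
  calc ∫⁻ y in (dGrid β).cell m x, (dGrid β).Psi (fun n => 4 ^ n) (mu.withDensity W) N m y ^ 2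
      ∂(mu.withDensity S)
      ≤ ∫⁻ y in (dGrid β).cell m x, (200 * Pp ((cellBox β m x).indicator W) y) ^ 2
          ∂(mu.withDensity S) := by
        refine setLIntegral_mono' (Grid.measurableSet_cell m x) fun y hy => ?_
        exact pow_le_pow_left' (Psi_le hW N m hy) 2
    _ ≤ ∫⁻ y, (200 * Pp ((cellBox β m x).indicator W) y) ^ 2 ∂(mu.withDensity S) :=
        setLIntegral_le_lintegral _ _
    _ = ∫⁻ y, S y * (200 * Pp ((cellBox β m x).indicator W) y) ^ 2 ∂mu := by
        rw [lint_wd hS ((hmP.const_mul 200).pow_const 2)]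
    _ = 200 ^ 2 * ∫⁻ y, S y * (Pp ((cellBox β m x).indicator W) y) ^ 2 ∂mu := by
        rw [← lintegral_const_mul' _ _ (by norm_num)]
        refine lintegral_congr fun y => ?_
        ring
    _ ≤ 200 ^ 2 * (C * ∫⁻ ζ in cellBox β m x, W ζ ∂mu) :=
        mul_le_mul' le_rfl (hT _ _ hpos hle1)
    _ = (200 ^ 2 * C) * (mu.withDensity W) (cellBox β m x) := by
        rw [withDensity_apply _ hbm]; ring
    _ ≤ _ := by
        refine mul_le_mul' le_rfl ?_
        exact measure_cellBox_le β m hxD ((withDensity_absolutelyContinuous mu W).trans mu_ac)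

/-- the infinite dyadic form of one grid -/
theorem grid_form {β : ℝ} {S W : ℂ → ℝ≥0∞} {C : ℝ≥0∞} (hS : Wt S) (hW : Wt W)
    (hT1 : PT W S C) (hT2 : PT S W C) {f g : ℂ → ℝ≥0∞} (hf : Measurable f) (hg : Measurable g) :
    ∑' n : ℕ, 4 ^ n * ∫⁻ x, f x * (∫⁻ y in (dGrid β).cell n x, g y ∂(mu.withDensity W))
      ∂(mu.withDensity S) ≤
    (64 * (200 ^ 2 * C) * (∫⁻ x, f x ^ 2 ∂(mu.withDensity S)) *
      (∫⁻ x, g x ^ 2 ∂(mu.withDensity W))) ^ (1 / (2:ℝ)) := by
  have := finite_wd hS
  have := finite_wd hW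
  refine ENNReal.tsum_le_of_sum_range_le fun N => ?_
  apply Grid.le_sqrt_of_sq_le
  exact Grid.dyadic_main (G := dGrid β) (mu.withDensity S) (mu.withDensity W) (fun n => 4 ^ n) N
    (200 ^ 2 * C) (fun m x hx => test_cell hS hW hT1 N m hx)
    (fun m x hx => test_cell hW hS hT2 N m hx) hf hg

/-- the positive kernel is dominated by the two dyadic kernels -/
theorem kpos_le {W g : ℂ → ℝ≥0∞} (hg : Measurable g) {x : ℂ} (hx : x ≠ 0)
    (hx1 : ‖x‖ < 1) :
    ∫⁻ y, ENNReal.ofReal (1 / dd x y ^ 2) * g y ∂(mu.withDensity W) ≤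
      16 * ∑' n : ℕ, 4 ^ n * ((∫⁻ y in (dGrid 0).cell n x, g y ∂(mu.withDensity W)) +
        (∫⁻ y in (dGrid (1/3)).cell n x, g y ∂(mu.withDensity W))) := by
  have hmc : ∀ β n, MeasurableSet ((dGrid β).cell n x) := fun β n => Grid.measurableSet_cell n x
  have hae : ∀ᵐ y ∂(mu.withDensity W), y ≠ 0 ∧ ‖y‖ < 1 :=
    (withDensity_absolutelyContinuous mu W) mu_ae
  calc ∫⁻ y, ENNReal.ofReal (1 / dd x y ^ 2) * g y ∂(mu.withDensity W)
      ≤ ∫⁻ y, 16 * ∑' n : ℕ, 4 ^ n * (((dGrid 0).cell n x).indicator g y +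
          ((dGrid (1/3)).cell n x).indicator g y) ∂(mu.withDensity W) := by
        refine lintegral_mono_ae ?_
        filter_upwards [hae] with y hy
        obtain ⟨n, hn1, hn2⟩ := exists_level hx hy.1 hx1 hy.2
        have h1 : ENNReal.ofReal (1 / dd x y ^ 2) ≤ 16 * 4 ^ n := by
          have e : (16:ℝ≥0∞) * 4 ^ n = ENNReal.ofReal (16 * 4 ^ n) := by
            rw [ENNReal.ofReal_mul (by norm_num), ENNReal.ofReal_pow (by norm_num)]; simp
          rw [e]; exact ENNReal.ofReal_le_ofReal hn2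
        have h2 : g y ≤ ((dGrid 0).cell n x).indicator g y +
          ((dGrid (1/3)).cell n x).indicator g y := by
          rcases hn1 with h | h
          · rw [Set.indicator_of_mem (show y ∈ (dGrid 0).cell n x from h)]; exact le_self_add
          · rw [Set.indicator_of_mem (show y ∈ (dGrid (1/3)).cell n x from h)]
            exact le_add_self
        calc ENNReal.ofReal (1 / dd x y ^ 2) * g y
            ≤ (16 * 4 ^ n) * (((dGrid 0).cell n x).indicator g y +
                ((dGrid (1/3)).cell n x).indicator g y) := mul_le_mul' h1 h2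
          _ = 16 * (4 ^ n * (((dGrid 0).cell n x).indicator g y +
                ((dGrid (1/3)).cell n x).indicator g y)) := by ring
          _ ≤ _ := mul_le_mul' le_rfl (ENNReal.le_tsum n)
    _ = _ := by
        rw [lintegral_const_mul' _ _ (by norm_num), lintegral_tsum]
        · congr 1
          refine tsum_congr fun n => ?_
          rw [lintegral_const_mul' _ _ (by simp), lintegral_add_left (hg.indicator (hmc 0 n)),
            lintegral_indicator (hmc 0 n), lintegral_indicator (hmc (1/3) n)]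
        · intro n
          exact (((hg.indicator (hmc 0 n)).add (hg.indicator (hmc (1/3) n))).const_mul
            _).aemeasurable

/-- **testing theorem for the positive Bergman operator** -/
theorem PB_of_PT {S W : ℂ → ℝ≥0∞} {C : ℝ≥0∞} (hS : Wt S) (hW : Wt W)
    (hT1 : PT W S C) (hT2 : PT S W C) : PB S W (32 ^ 2 * (64 * (200 ^ 2 * C))) := by
  intro f hf hf'
  have hmSf : Measurable (fun ζ => S ζ * f ζ) := hS.meas.mul hf
  refine duality mu hW.meas (measurable_Pp hmSf) hW.int ?_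
  intro g hg hg'
  have hac : ∀ᵐ y ∂(mu.withDensity S), y ≠ 0 ∧ ‖y‖ < 1 :=
    (withDensity_absolutelyContinuous mu S) mu_ae
  set R : ℝ≥0∞ := (64 * (200 ^ 2 * C) * (∫⁻ x, f x ^ 2 ∂(mu.withDensity S)) *
      (∫⁻ x, g x ^ 2 ∂(mu.withDensity W))) ^ (1 / (2:ℝ)) with hR
  have hcell : ∀ β n, Measurable (fun x => ∫⁻ y in (dGrid β).cell n x, g y ∂(mu.withDensity W)) :=
    fun β n => Grid.measurable_cell_lintegral _ g n
  have hfc : ∀ β n, Measurable (fun x => f x *
      ∫⁻ y in (dGrid β).cell n x, g y ∂(mu.withDensity W)) := fun β n => hf.mul (hcell β n)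
  have hmk : Measurable (fun x => ∫⁻ y, ENNReal.ofReal (1 / dd x y ^ 2) * g y
      ∂(mu.withDensity W)) := by
    have := finite_wd hW
    exact Measurable.lintegral_prod_right' (measurable_kpos.mul (hg.comp measurable_snd))
  -- rewrite the form
  have e1 : ∫⁻ z, W z * (Pp (fun ζ => S ζ * f ζ) z * g z) ∂mu =
      ∫⁻ x, f x * (∫⁻ y, ENNReal.ofReal (1 / dd x y ^ 2) * g y ∂(mu.withDensity W))
        ∂(mu.withDensity S) := by
    have t := tonelli (k := fun p => ENNReal.ofReal (1 / dd p.1 p.2 ^ 2)) measurable_kpos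
      (hW.meas.mul hg) (hS.meas.mul hf)
    calc ∫⁻ z, W z * (Pp (fun ζ => S ζ * f ζ) z * g z) ∂mu
        = ∫⁻ z, (W z * g z) * ∫⁻ ζ, ENNReal.ofReal (1 / dd z ζ ^ 2) * (S ζ * f ζ) ∂mu ∂mu := by
          refine lintegral_congr fun z => ?_
          unfold Pp; ring
      _ = ∫⁻ ζ, (S ζ * f ζ) * ∫⁻ z, ENNReal.ofReal (1 / dd z ζ ^ 2) * (W z * g z) ∂mu ∂mu := t
      _ = ∫⁻ ζ, S ζ * (f ζ * (∫⁻ y, ENNReal.ofReal (1 / dd ζ y ^ 2) * g y
            ∂(mu.withDensity W))) ∂mu := by
          refine lintegral_congr fun ζ => ?_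
          have hmeas : Measurable (fun y => ENNReal.ofReal (1 / dd ζ y ^ 2) * g y) :=
            (measurable_kpos.comp measurable_prodMk_left).mul hg
          rw [lint_wd hW hmeas, mul_assoc]
          congr 2
          refine lintegral_congr fun y => ?_
          rw [dd_comm ζ y]; ring
      _ = _ := (lint_wd hS (F := fun x => f x * ∫⁻ y, ENNReal.ofReal (1 / dd x y ^ 2) * g y
            ∂(mu.withDensity W)) (hf.mul hmk)).symm
  rw [e1]
  have e2 : ∫⁻ x, f x * (∫⁻ y, ENNReal.ofReal (1 / dd x y ^ 2) * g y ∂(mu.withDensity W))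
        ∂(mu.withDensity S) ≤ 32 * R := by
    calc ∫⁻ x, f x * (∫⁻ y, ENNReal.ofReal (1 / dd x y ^ 2) * g y ∂(mu.withDensity W))
        ∂(mu.withDensity S)
        ≤ ∫⁻ x, 16 * ∑' n : ℕ, 4 ^ n *
            (f x * (∫⁻ y in (dGrid 0).cell n x, g y ∂(mu.withDensity W)) +
            f x * (∫⁻ y in (dGrid (1/3)).cell n x, g y ∂(mu.withDensity W)))
            ∂(mu.withDensity S) := by
          refine lintegral_mono_ae ?_
          filter_upwards [hac] with x hx
          refine (mul_le_mul' le_rfl (kpos_le hg hx.1 hx.2)).trans (le_of_eq ?_)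
          rw [← mul_assoc, mul_comm (f x) 16, mul_assoc, ← ENNReal.tsum_mul_left]
          congr 1
          refine tsum_congr fun n => ?_
          ring
      _ = 16 * (∑' n : ℕ, (4 ^ n * (∫⁻ x, f x *
            (∫⁻ y in (dGrid 0).cell n x, g y ∂(mu.withDensity W)) ∂(mu.withDensity S)) +
            4 ^ n * ∫⁻ x, f x *
            (∫⁻ y in (dGrid (1/3)).cell n x, g y ∂(mu.withDensity W)) ∂(mu.withDensity S))) := by
          rw [lintegral_const_mul' _ _ (by norm_num), lintegral_tsum]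
          · congr 1
            refine tsum_congr fun n => ?_
            rw [lintegral_const_mul' _ _ (by simp), lintegral_add_left (hfc 0 n),
              mul_add]
          · intro n
            exact (((hfc 0 n).add (hfc (1/3) n)).const_mul _).aemeasurable
      _ ≤ 16 * (R + R) := by
          rw [ENNReal.tsum_add]
          exact mul_le_mul' le_rfl (add_le_add (grid_form hS hW hT1 hT2 hf hg)
            (grid_form hS hW hT1 hT2 hf hg))
      _ = 32 * R := by ring
  calc _ ≤ (32 * R) ^ 2 := pow_le_pow_left' e2 2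
    _ = 32 ^ 2 * R ^ 2 := by ring
    _ = _ := by
        rw [hR, Grid.sqrt_sq, lint_wd hS (hf.pow_const 2), lint_wd hW (hg.pow_const 2)]
        ring

end Pool.Agent.Bergman
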