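import Mathlib
import Pool.Agent.Bergman.Positive

/-!
The two weight problem for the Bergman projection under the two maximal function bounds.
-/

set_option autoImplicit false

open MeasureTheory
open scoped ENNReal NNReal

namespace Pool.Agent.Bergman

/-- the Bergman projection as an integral operator -/
noncomputable def BP (g : ℂ → ℂ) (z : ℂ) : ℂ :=
  ∫ ζ, g ζ / (1 - z * (starRingEnd ℂ) ζ) ^ 2 ∂mu

/-- finiteness of the weights from the maximal bound -/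
theorem int_ne_top_of_MB {S W : ℂ → ℝ≥0∞} {C : ℝ≥0∞} (hS : Measurable S)
    (hS' : ∀ z, S z ≠ ∞) (hW : Measurable W) (hW0 : ∫⁻ z, W z ∂mu ≠ 0) (hC : C ≠ ∞)
    (hM : MB S W C) : ∫⁻ z, S z ∂mu ≠ ∞ := by
  set ω := ∫⁻ z, W z ∂mu with hω
  set m0 := mu Set.univ with hm0
  have hm0f : m0 ≠ ∞ := measure_ne_top _ _
  have hm00 : m0 ≠ 0 := by
    intro h
    apply hW0
    rw [hω]
    have : mu = 0 := Measure.measure_univ_eq_zero.1 h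
    rw [this]; simp
  -- truncations
  let A : ℕ → Set ℂ := fun k => {z | S z ≤ k}
  have hAm : ∀ k, MeasurableSet (A k) := fun k => hS measurableSet_Iic
  have hAmono : Monotone A := by
    intro a b hab z hz
    have hz' : S z ≤ a := hz
    exact hz'.trans (by exact_mod_cast hab)
  have hAun : ⋃ k, A k = Set.univ := by
    ext z
    simp only [Set.mem_iUnion, Set.mem_univ, iff_true]
    obtain ⟨n, hn⟩ := ENNReal.exists_nat_gt (hS' z)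
    exact ⟨n, hn.le⟩
  have hxk : ∀ k, ∫⁻ z in A k, S z ∂mu ≤ C * m0 ^ 2 / ω := by
    intro k
    set x := ∫⁻ z in A k, S z ∂mu with hx
    have hxf : x ≠ ∞ := by
      refine ne_top_of_le_ne_top (b := ∫⁻ z in A k, (k:ℝ≥0∞) ∂mu) ?_ ?_
      · rw [setLIntegral_const]
        exact ENNReal.mul_ne_top (ENNReal.natCast_ne_top k) (measure_ne_top _ _)
      · exact setLIntegral_mono' (hAm k) fun z hz => hz
    have h1 := hM ((A k).indicator (fun _ => 1)) (measurable_const.indicator (hAm k))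
      (fun z => by
        by_cases hz : z ∈ A k
        · rw [Set.indicator_of_mem hz]; exact ENNReal.one_ne_top
        · rw [Set.indicator_of_notMem hz]; exact ENNReal.zero_ne_top)
    have e1 : ∫⁻ ζ, S ζ * (A k).indicator (fun _ => (1:ℝ≥0∞)) ζ ^ 2 ∂mu = x := by
      rw [hx, ← lintegral_indicator (hAm k)]
      refine lintegral_congr fun ζ => ?_
      by_cases hz : ζ ∈ A k
      · rw [Set.indicator_of_mem hz, Set.indicator_of_mem hz]; simp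
      · rw [Set.indicator_of_notMem hz, Set.indicator_of_notMem hz]; simp
    have e2 : ∀ᵐ z ∂mu, x / m0 ≤
        Mx (fun ζ => S ζ * (A k).indicator (fun _ => (1:ℝ≥0∞)) ζ) z := by
      filter_upwards [mu_ae] with z hz
      have hmem : z ∈ box (z.arg - Real.pi * 1) 1 := mem_cbox_one hz.1 hz.1 hz.2
      have h2 : (∫⁻ ζ in box (z.arg - Real.pi * 1) 1,
          S ζ * (A k).indicator (fun _ => (1:ℝ≥0∞)) ζ ∂mu) / mu (box (z.arg - Real.pi * 1) 1) ≤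
          Mx (fun ζ => S ζ * (A k).indicator (fun _ => (1:ℝ≥0∞)) ζ) z := by
        unfold Mx
        exact le_iSup_of_le _ (le_iSup_of_le 1 (le_iSup_of_le ⟨one_pos, le_rfl, hmem⟩ le_rfl))
      refine le_trans ?_ h2
      have h3 : ∫⁻ ζ in box (z.arg - Real.pi * 1) 1,
          S ζ * (A k).indicator (fun _ => (1:ℝ≥0∞)) ζ ∂mu = x := by
        have : mu.restrict (box (z.arg - Real.pi * 1) 1) = mu := by
          rw [Measure.restrict_eq_self_of_ae_mem]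
          filter_upwards [mu_ae] with ζ hζ
          exact mem_cbox_one hζ.1 hz.1 hζ.2
        rw [this, ← e1]
        refine lintegral_congr fun ζ => ?_
        by_cases hz : ζ ∈ A k
        · rw [Set.indicator_of_mem hz]; simp
        · rw [Set.indicator_of_notMem hz]; simp
      rw [h3]
      exact ENNReal.div_le_div_left (measure_mono (Set.subset_univ _)) _
    rw [e1] at h1
    have h4 : ω * (x / m0) ^ 2 ≤ C * x := by
      refine le_trans ?_ h1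
      rw [hω, ← lintegral_mul_const _ hW]
      refine lintegral_mono_ae ?_
      filter_upwards [e2] with z hz
      exact mul_le_mul' le_rfl (pow_le_pow_left' hz 2)
    by_cases hx0 : x = 0
    · rw [hx0]; exact bot_le
    -- x * ω ≤ C m0^2
    have h5 : x * (x * ω) ≤ x * (C * m0 ^ 2) := by
      calc x * (x * ω) = (ω * (x / m0) ^ 2) * m0 ^ 2 := by
            rw [mul_assoc, ← mul_pow, ENNReal.div_mul_cancel hm00 hm0f]; ring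
        _ ≤ (C * x) * m0 ^ 2 := mul_le_mul' h4 le_rfl
        _ = _ := by ring
    have h6 : x * ω ≤ C * m0 ^ 2 := (ENNReal.mul_le_mul_iff_right hx0 hxf).1 h5
    have hωf : ω ≠ ∞ := by
      intro h
      rw [h, ENNReal.mul_top hx0] at h6
      exact (ENNReal.mul_ne_top hC (ENNReal.pow_ne_top hm0f)) (top_le_iff.1 h6)
    rw [ENNReal.le_div_iff_mul_le (Or.inl hW0) (Or.inl hωf)]
    exact h6
  have hsup : ∫⁻ z, S z ∂mu = ⨆ k, ∫⁻ z in A k, S z ∂mu := by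
    rw [← setLIntegral_univ S, ← hAun]
    exact setLIntegral_iUnion_of_directed S (directed_of_isDirected_le hAmono)
  rw [hsup]
  refine ne_top_of_le_ne_top ?_ (iSup_le hxk)
  exact ENNReal.div_ne_top (ENNReal.mul_ne_top hC (ENNReal.pow_ne_top hm0f)) hW0

/-- `|P g| ≤ P⁺ |g|` -/
theorem enorm_BP_le (g : ℂ → ℂ) (z : ℂ) : ‖BP g z‖ₑ ≤ Pp (fun ζ => ‖g ζ‖ₑ) z := by
  unfold BP Pp
  refine (enorm_integral_le_lintegral_enorm _).trans (le_of_eq ?_)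
  refine lintegral_congr fun ζ => ?_
  change ‖g ζ / (1 - z * (starRingEnd ℂ) ζ) ^ 2‖ₑ = ENNReal.ofReal (1 / dd z ζ ^ 2) * ‖g ζ‖ₑ
  rw [← ofReal_norm, ← ofReal_norm, ← ENNReal.ofReal_mul (by positivity), norm_div, norm_pow]
  unfold dd
  congr 1
  ring

/-- data of a weight and its measurable version -/
structure WtR (σ : ℂ → ℝ) (σ' : ℂ → ℝ) : Prop where
  meas : Measurable σ'
  ae : ∀ᵐ z ∂mu, σ z = σ' z
  pos : ∀ᵐ z ∂mu, 0 < σ z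
  fin : ∫⁻ z, ENNReal.ofReal (σ' z) ∂mu ≠ ∞

theorem WtR.wt {σ σ' : ℂ → ℝ} (h : WtR σ σ') : Wt (fun z => ENNReal.ofReal (σ' z)) :=
  ⟨h.meas.ennreal_ofReal, fun _ => ENNReal.ofReal_ne_top, h.fin⟩

/-- integrability of `σ f` -/
theorem integrable_mul {σ σ' : ℂ → ℝ} (h : WtR σ σ') {F : ℂ → ℝ≥0∞} (hF : Measurable F)
    (hF' : ∀ z, F z ≠ ∞) (hFf : ∫⁻ z, ENNReal.ofReal (σ' z) * F z ^ 2 ∂mu ≠ ∞) :
    Integrable (fun ζ => σ' ζ * (F ζ).toReal) mu := by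
  have hm : Measurable (fun ζ => σ' ζ * (F ζ).toReal) := h.meas.mul hF.ennreal_toReal
  refine ⟨hm.aestronglyMeasurable, ?_⟩
  have h1 : ∫⁻ ζ, ‖σ' ζ * (F ζ).toReal‖ₑ ∂mu = ∫⁻ ζ, ENNReal.ofReal (σ' ζ) * (1 * F ζ) ∂mu := by
    refine lintegral_congr_ae ?_
    filter_upwards [h.ae, h.pos] with ζ h1 h2
    have h3 : 0 ≤ σ' ζ := by rw [← h1]; exact h2.le
    rw [← ofReal_norm, Real.norm_eq_abs, abs_of_nonneg (mul_nonneg h3 ENNReal.toReal_nonneg),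
      ENNReal.ofReal_mul h3, ENNReal.ofReal_toReal (hF' ζ), one_mul]
  have h2 := cs_weight mu (S := fun z => ENNReal.ofReal (σ' z)) (u := fun _ => 1) (v := F)
    h.wt.meas h.wt.fin measurable_const (fun _ => ENNReal.one_ne_top)
  rw [hasFiniteIntegral_iff_enorm, h1]
  have h3 : (∫⁻ ζ, ENNReal.ofReal (σ' ζ) * (1 * F ζ) ∂mu) ^ 2 < ∞ := by
    refine lt_of_le_of_lt h2 ?_
    simp only [one_pow, mul_one]
    exact ENNReal.mul_lt_top (lt_top_iff_ne_top.2 h.fin) (lt_top_iff_ne_top.2 hFf)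
  by_contra hcon
  rw [not_lt, top_le_iff] at hcon
  rw [hcon] at h3
  simp at h3

/-- the key comparison in norm -/
theorem main_cmp {σ σ' w' : ℂ → ℝ} {C₁ C₂ : ℝ≥0∞} (h : WtR σ σ')
    (hW : Wt (fun z => ENNReal.ofReal (w' z)))
    (hM1 : MB (fun z => ENNReal.ofReal (σ' z)) (fun z => ENNReal.ofReal (w' z)) C₁)
    (hM2 : MB (fun z => ENNReal.ofReal (w' z)) (fun z => ENNReal.ofReal (σ' z)) C₂)
    {F : ℂ → ℝ≥0∞} (hF : Measurable F) (hF' : ∀ z, F z ≠ ∞)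
    (hFf : ∫⁻ z, ENNReal.ofReal (σ' z) * F z ^ 2 ∂mu ≠ ∞) :
    ∫⁻ z, ENNReal.ofReal (w' z) * (Pp (fun ζ => ENNReal.ofReal (σ' ζ) * F ζ) z) ^ 2 ∂mu ≤
      3 * (∫⁻ z, ENNReal.ofReal (w' z) * ‖BP (fun ζ => (σ ζ : ℂ) * ((F ζ).toReal : ℂ)) z‖ₑ ^ 2 ∂mu) +
        (3 * (4 * (500 ^ 2 * C₂)) + 3 * (4 * (500 ^ 2 * C₁))) *
          ∫⁻ ζ, ENNReal.ofReal (σ' ζ) * F ζ ^ 2 ∂mu := by
  refine Pp_bound_of h.wt hW hM1 hM2 hF hF' ?_
  filter_upwards [mu_ae] with z hz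
  have hint := integrable_mul h hF hF' hFf
  have h0 : ∀ᵐ ζ ∂mu, 0 ≤ σ' ζ * (F ζ).toReal := by
    filter_upwards [h.ae, h.pos] with ζ h1 h2
    have h3 : 0 ≤ σ' ζ := by rw [← h1]; exact h2.le
    exact mul_nonneg h3 ENNReal.toReal_nonneg
  have key := comparison hint h0 hz.2
  have e1 : (fun ζ => ENNReal.ofReal (σ' ζ * (F ζ).toReal)) =
      fun ζ => ENNReal.ofReal (σ' ζ) * F ζ := by
    funext ζ
    rw [ENNReal.ofReal_mul' ENNReal.toReal_nonneg, ENNReal.ofReal_toReal (hF' ζ)]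
  rw [e1] at key
  have e2 : BP (fun ζ => (σ ζ : ℂ) * ((F ζ).toReal : ℂ)) z =
      ∫ ζ, ((σ' ζ * (F ζ).toReal : ℝ) : ℂ) / (1 - z * (starRingEnd ℂ) ζ) ^ 2 ∂mu := by
    unfold BP
    refine integral_congr_ae ?_
    filter_upwards [h.ae] with ζ hζ
    rw [hζ]; push_cast; rfl
  rw [e2]
  exact key

/-! ### passing between the complex statement and the `ℝ≥0∞` statement -/

theorem enorm_mul_eq {σ σ' : ℂ → ℝ} (h : WtR σ σ') (f : ℂ → ℂ) :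
    ∀ᵐ ζ ∂mu, ‖(σ ζ : ℂ) * f ζ‖ₑ = ENNReal.ofReal (σ' ζ) * ‖f ζ‖ₑ := by
  filter_upwards [h.ae, h.pos] with ζ h1 h2
  rw [enorm_mul, ← h1]
  congr 1
  rw [← ofReal_norm, Complex.norm_real, Real.norm_eq_abs, abs_of_pos h2]

theorem enorm_toReal_ofReal {x : ℝ≥0∞} (hx : x ≠ ∞) : ‖((x.toReal : ℝ) : ℂ)‖ₑ = x := by
  rw [← ofReal_norm, Complex.norm_real, Real.norm_eq_abs, abs_of_nonneg ENNReal.toReal_nonneg,
    ENNReal.ofReal_toReal hx]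

/-- pre-version of `WtR` without finiteness -/
structure WtR0 (σ : ℂ → ℝ) (σ' : ℂ → ℝ) : Prop where
  meas : Measurable σ'
  ae : ∀ᵐ z ∂mu, σ z = σ' z
  pos : ∀ᵐ z ∂mu, 0 < σ z

theorem exists_WtR0 {σ : ℂ → ℝ} (hpos : ∀ z ∈ Metric.ball (0:ℂ) 1, 0 < σ z)
    (hloc : LocallyIntegrableOn σ (Metric.ball (0:ℂ) 1) volume) : ∃ σ', WtR0 σ σ' := by
  have h1 : AEStronglyMeasurable σ (volume.restrict (Metric.ball (0:ℂ) 1)) :=
    hloc.aestronglyMeasurable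
  have h2 : AEMeasurable σ mu := by
    unfold mu
    exact (h1.aemeasurable).smul_measure _
  refine ⟨h2.mk σ, h2.measurable_mk, h2.ae_eq_mk, ?_⟩
  filter_upwards [mu_ae] with z hz
  exact hpos z (by simpa using hz.2)

/-- transfer of the maximal function bound -/
theorem MB_of_complex {σ σ' w w' : ℂ → ℝ} (h : WtR0 σ σ') (hw : WtR0 w w') {C : ℝ≥0}
    (hM : ∀ f : ℂ → ℂ, AEStronglyMeasurable f mu →
      ∫⁻ z, ENNReal.ofReal (w z) * (Mx (fun ζ => ‖(σ ζ : ℂ) * f ζ‖ₑ) z) ^ 2 ∂mu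
        ≤ (C : ℝ≥0∞) * ∫⁻ ζ, ENNReal.ofReal (σ ζ) * ‖f ζ‖ₑ ^ 2 ∂mu) :
    MB (fun z => ENNReal.ofReal (σ' z)) (fun z => ENNReal.ofReal (w' z)) C := by
  intro f hf hf'
  have hm : AEStronglyMeasurable (fun ζ => (((f ζ).toReal : ℝ) : ℂ)) mu :=
    (Complex.measurable_ofReal.comp hf.ennreal_toReal).aestronglyMeasurable
  have h1 := hM _ hm
  have e1 : (∫⁻ z, ENNReal.ofReal (w z) *
      (Mx (fun ζ => ‖(σ ζ : ℂ) * (((f ζ).toReal : ℝ) : ℂ)‖ₑ) z) ^ 2 ∂mu) =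
      ∫⁻ z, ENNReal.ofReal (w' z) * (Mx (fun ζ => ENNReal.ofReal (σ' ζ) * f ζ) z) ^ 2 ∂mu := by
    refine lintegral_congr_ae ?_
    filter_upwards [hw.ae] with z hz
    have hMx : Mx (fun ζ => ‖(σ ζ : ℂ) * (((f ζ).toReal : ℝ) : ℂ)‖ₑ) z =
        Mx (fun ζ => ENNReal.ofReal (σ' ζ) * f ζ) z := by
      unfold Mx
      congr 1; funext θ; congr 1; funext ℓ; congr 1; funext _
      congr 1
      refine lintegral_congr_ae (ae_restrict_of_ae ?_)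
      filter_upwards [h.ae, h.pos] with ζ h1 h2
      rw [enorm_mul, enorm_toReal_ofReal (hf' ζ), ← h1]
      congr 1
      rw [← ofReal_norm, Complex.norm_real, Real.norm_eq_abs, abs_of_pos h2]
    rw [hMx, hz]
  have e2 : (∫⁻ ζ, ENNReal.ofReal (σ ζ) * ‖(((f ζ).toReal : ℝ) : ℂ)‖ₑ ^ 2 ∂mu) =
      ∫⁻ ζ, ENNReal.ofReal (σ' ζ) * f ζ ^ 2 ∂mu := by
    refine lintegral_congr_ae ?_
    filter_upwards [h.ae] with z hz
    rw [enorm_toReal_ofReal (hf' z), hz]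
  rw [e1, e2] at h1
  exact h1

/-- boundedness of `P (σ ·)` -/
def BPB (σ w : ℂ → ℝ) : Prop :=
  ∃ C : ℝ≥0, ∀ f : ℂ → ℂ, AEStronglyMeasurable f mu →
        Integrable (fun ζ => (σ ζ : ℂ) * f ζ) mu →
        ∫⁻ ζ, ENNReal.ofReal (σ ζ) * ‖f ζ‖ₑ ^ 2 ∂mu < ⊤ →
        ∫⁻ z, ENNReal.ofReal (w z) * ‖BP (fun ζ => (σ ζ : ℂ) * f ζ) z‖ₑ ^ 2 ∂mu
          ≤ (C : ℝ≥0∞) * ∫⁻ ζ, ENNReal.ofReal (σ ζ) * ‖f ζ‖ₑ ^ 2 ∂mu

/-- the positive operator bound implies the bound for the Bergman projection -/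
theorem BPB_of_PB {σ σ' w w' : ℂ → ℝ} (h : WtR σ σ') (hw : WtR w w') {C : ℝ≥0}
    (hP : PB (fun z => ENNReal.ofReal (σ' z)) (fun z => ENNReal.ofReal (w' z)) C) :
    BPB σ w := by
  refine ⟨C, fun f hf _ _ => ?_⟩
  -- measurable version of |f|
  have hfm : AEMeasurable (fun ζ => ‖f ζ‖) mu := hf.norm.aemeasurable
  let F : ℂ → ℝ≥0∞ := fun ζ => ENNReal.ofReal (hfm.mk (fun ζ => ‖f ζ‖) ζ)
  have hF : Measurable F := hfm.measurable_mk.ennreal_ofReal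
  have hF' : ∀ z, F z ≠ ∞ := fun z => ENNReal.ofReal_ne_top
  have hFf : ∀ᵐ ζ ∂mu, F ζ = ‖f ζ‖ₑ := by
    filter_upwards [hfm.ae_eq_mk] with ζ hζ
    simp only [F]
    rw [← hζ, ofReal_norm]
  have h1 := hP F hF hF'
  calc ∫⁻ z, ENNReal.ofReal (w z) * ‖BP (fun ζ => (σ ζ : ℂ) * f ζ) z‖ₑ ^ 2 ∂mu
      ≤ ∫⁻ z, ENNReal.ofReal (w' z) * (Pp (fun ζ => ENNReal.ofReal (σ' ζ) * F ζ) z) ^ 2 ∂mu := by
        refine lintegral_mono_ae ?_
        filter_upwards [hw.ae] with z hz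
        rw [hz]
        refine mul_le_mul' le_rfl (pow_le_pow_left' ?_ 2)
        refine (enorm_BP_le _ z).trans (le_of_eq ?_)
        unfold Pp
        refine lintegral_congr_ae ?_
        filter_upwards [enorm_mul_eq h f, hFf] with ζ h1 h2
        rw [h1, h2]
    _ ≤ C * ∫⁻ ζ, ENNReal.ofReal (σ' ζ) * F ζ ^ 2 ∂mu := h1
    _ = (C : ℝ≥0∞) * ∫⁻ ζ, ENNReal.ofReal (σ ζ) * ‖f ζ‖ₑ ^ 2 ∂mu := by
        congr 1
        refine lintegral_congr_ae ?_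
        filter_upwards [h.ae, hFf] with ζ h1 h2
        rw [h1, h2]

/-- testing quantity of the complex operator, bounded through the positive operator -/
theorem test_of_PB {σ σ' w w' : ℂ → ℝ} (h : WtR σ σ') (hw : WtR w w') {C : ℝ≥0∞}
    (hP : PB (fun z => ENNReal.ofReal (σ' z)) (fun z => ENNReal.ofReal (w' z)) C) (θ ℓ : ℝ) :
    ∫⁻ z, ENNReal.ofReal (w z) *
            ‖BP (fun ζ => (box θ ℓ).indicator (fun ξ => (σ ξ : ℂ)) ζ) z‖ₑ ^ 2 ∂mu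
          ≤ C * ∫⁻ ζ in box θ ℓ, ENNReal.ofReal (σ ζ) ∂mu := by
  have hbm := measurableSet_box θ ℓ
  have h1 := hP ((box θ ℓ).indicator (fun _ => 1)) (measurable_const.indicator hbm)
      (fun z => by
        by_cases hz : z ∈ box θ ℓ
        · rw [Set.indicator_of_mem hz]; exact ENNReal.one_ne_top
        · rw [Set.indicator_of_notMem hz]; exact ENNReal.zero_ne_top)
  calc _ ≤ ∫⁻ z, ENNReal.ofReal (w' z) * (Pp (fun ζ => ENNReal.ofReal (σ' ζ) *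
          (box θ ℓ).indicator (fun _ => 1) ζ) z) ^ 2 ∂mu := by
        refine lintegral_mono_ae ?_
        filter_upwards [hw.ae] with z hz
        rw [hz]
        refine mul_le_mul' le_rfl (pow_le_pow_left' ?_ 2)
        refine (enorm_BP_le _ z).trans (le_of_eq ?_)
        unfold Pp
        refine lintegral_congr_ae ?_
        filter_upwards [h.ae, h.pos] with ζ h1 h2
        by_cases hζ : ζ ∈ box θ ℓ
        · rw [Set.indicator_of_mem hζ, Set.indicator_of_mem hζ, mul_one, ← h1,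
            ← ofReal_norm, Complex.norm_real, Real.norm_eq_abs, abs_of_pos h2]
        · rw [Set.indicator_of_notMem hζ, Set.indicator_of_notMem hζ]; simp
    _ ≤ C * ∫⁻ ζ, ENNReal.ofReal (σ' ζ) * (box θ ℓ).indicator (fun _ => 1) ζ ^ 2 ∂mu := h1
    _ = _ := by
        congr 1
        rw [← lintegral_indicator hbm]
        refine lintegral_congr_ae ?_
        filter_upwards [h.ae] with ζ h1
        by_cases hζ : ζ ∈ box θ ℓ
        · rw [Set.indicator_of_mem hζ, Set.indicator_of_mem hζ, h1]; simp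
        · rw [Set.indicator_of_notMem hζ, Set.indicator_of_notMem hζ]; simp

/-- complex testing implies positive testing -/
theorem PT_of_test {σ σ' w w' : ℂ → ℝ} {C₁ C₂ C₀ : ℝ≥0∞} (h : WtR σ σ') (hw : WtR w w')
    (hM1 : MB (fun z => ENNReal.ofReal (σ' z)) (fun z => ENNReal.ofReal (w' z)) C₁)
    (hM2 : MB (fun z => ENNReal.ofReal (w' z)) (fun z => ENNReal.ofReal (σ' z)) C₂)
    (hT : ∀ θ ℓ : ℝ, 0 < ℓ → ℓ ≤ 1 → ∫⁻ z, ENNReal.ofReal (w z) *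
            ‖BP (fun ζ => (box θ ℓ).indicator (fun ξ => (σ ξ : ℂ)) ζ) z‖ₑ ^ 2 ∂mu
          ≤ C₀ * ∫⁻ ζ in box θ ℓ, ENNReal.ofReal (σ ζ) ∂mu) :
    PT (fun z => ENNReal.ofReal (σ' z)) (fun z => ENNReal.ofReal (w' z))
      (3 * C₀ + (3 * (4 * (500 ^ 2 * C₂)) + 3 * (4 * (500 ^ 2 * C₁)))) := by
  intro θ ℓ hℓ0 hℓ1
  have hbm := measurableSet_box θ ℓ
  set F : ℂ → ℝ≥0∞ := (box θ ℓ).indicator (fun _ => 1) with hF
  have hFm : Measurable F := measurable_const.indicator hbm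
  have hFf : ∀ z, F z ≠ ∞ := fun z => by
    by_cases hz : z ∈ box θ ℓ
    · rw [hF, Set.indicator_of_mem hz]; exact ENNReal.one_ne_top
    · rw [hF, Set.indicator_of_notMem hz]; exact ENNReal.zero_ne_top
  have e0 : ∫⁻ ζ, ENNReal.ofReal (σ' ζ) * F ζ ^ 2 ∂mu =
      ∫⁻ ζ in box θ ℓ, ENNReal.ofReal (σ' ζ) ∂mu := by
    rw [← lintegral_indicator hbm]
    refine lintegral_congr fun ζ => ?_
    by_cases hζ : ζ ∈ box θ ℓ
    · rw [hF, Set.indicator_of_mem hζ, Set.indicator_of_mem hζ]; simp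
    · rw [hF, Set.indicator_of_notMem hζ, Set.indicator_of_notMem hζ]; simp
  have e0' : ∫⁻ ζ in box θ ℓ, ENNReal.ofReal (σ ζ) ∂mu =
      ∫⁻ ζ in box θ ℓ, ENNReal.ofReal (σ' ζ) ∂mu := by
    refine lintegral_congr_ae (ae_restrict_of_ae ?_)
    filter_upwards [h.ae] with ζ hζ
    rw [hζ]
  have hfin : ∫⁻ ζ, ENNReal.ofReal (σ' ζ) * F ζ ^ 2 ∂mu ≠ ∞ := by
    rw [e0]
    exact ne_top_of_le_ne_top h.fin (setLIntegral_le_lintegral _ _)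
  have key := main_cmp h hw.wt hM1 hM2 hFm hFf hfin
  have e1 : (fun ζ => ENNReal.ofReal (σ' ζ) * F ζ) =
      (box θ ℓ).indicator (fun z => ENNReal.ofReal (σ' z)) := by
    funext ζ
    by_cases hζ : ζ ∈ box θ ℓ
    · rw [hF, Set.indicator_of_mem hζ, Set.indicator_of_mem hζ]; simp
    · rw [hF, Set.indicator_of_notMem hζ, Set.indicator_of_notMem hζ]; simp
  have e2 : (fun ζ => (σ ζ : ℂ) * ((F ζ).toReal : ℂ)) =
      (fun ζ => (box θ ℓ).indicator (fun ξ => (σ ξ : ℂ)) ζ) := by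
    funext ζ
    by_cases hζ : ζ ∈ box θ ℓ
    · rw [hF, Set.indicator_of_mem hζ, Set.indicator_of_mem hζ]; simp
    · rw [hF, Set.indicator_of_notMem hζ, Set.indicator_of_notMem hζ]; simp
  rw [e1, e2, e0] at key
  refine key.trans ?_
  have h2 : ∫⁻ z, ENNReal.ofReal (w' z) *
      ‖BP (fun ζ => (box θ ℓ).indicator (fun ξ => (σ ξ : ℂ)) ζ) z‖ₑ ^ 2 ∂mu ≤
      C₀ * ∫⁻ ζ in box θ ℓ, ENNReal.ofReal (σ' ζ) ∂mu := by
    rw [← e0']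
    refine le_trans (le_of_eq ?_) (hT θ ℓ hℓ0 hℓ1)
    refine lintegral_congr_ae ?_
    filter_upwards [hw.ae] with z hz
    rw [hz]
  calc _ ≤ 3 * (C₀ * ∫⁻ ζ in box θ ℓ, ENNReal.ofReal (σ' ζ) ∂mu) +
        (3 * (4 * (500 ^ 2 * C₂)) + 3 * (4 * (500 ^ 2 * C₁))) *
          ∫⁻ ζ in box θ ℓ, ENNReal.ofReal (σ' ζ) ∂mu :=
        add_le_add (mul_le_mul' le_rfl h2) le_rfl
    _ = _ := by ring

/-- boundedness of the complex operator implies boundedness of the positive one -/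
theorem PB_of_BPB {σ σ' w w' : ℂ → ℝ} {C₁ C₂ : ℝ≥0∞} {C : ℝ≥0} (h : WtR σ σ') (hw : WtR w w')
    (hM1 : MB (fun z => ENNReal.ofReal (σ' z)) (fun z => ENNReal.ofReal (w' z)) C₁)
    (hM2 : MB (fun z => ENNReal.ofReal (w' z)) (fun z => ENNReal.ofReal (σ' z)) C₂)
    (hB : ∀ f : ℂ → ℂ, AEStronglyMeasurable f mu →
        Integrable (fun ζ => (σ ζ : ℂ) * f ζ) mu →
        ∫⁻ ζ, ENNReal.ofReal (σ ζ) * ‖f ζ‖ₑ ^ 2 ∂mu < ⊤ →
        ∫⁻ z, ENNReal.ofReal (w z) * ‖BP (fun ζ => (σ ζ : ℂ) * f ζ) z‖ₑ ^ 2 ∂mu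
          ≤ (C : ℝ≥0∞) * ∫⁻ ζ, ENNReal.ofReal (σ ζ) * ‖f ζ‖ₑ ^ 2 ∂mu) :
    PB (fun z => ENNReal.ofReal (σ' z)) (fun z => ENNReal.ofReal (w' z))
      (3 * C + (3 * (4 * (500 ^ 2 * C₂)) + 3 * (4 * (500 ^ 2 * C₁))) + 1) := by
  intro F hF hF'
  by_cases hfin : ∫⁻ ζ, ENNReal.ofReal (σ' ζ) * F ζ ^ 2 ∂mu = ∞
  · rw [hfin, ENNReal.mul_top (by simp)]
    exact le_top
  have key := main_cmp h hw.wt hM1 hM2 hF hF' hfin
  have hm : Measurable (fun ζ => (((F ζ).toReal : ℝ) : ℂ)) :=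
    Complex.measurable_ofReal.comp hF.ennreal_toReal
  have hint : Integrable (fun ζ => (σ ζ : ℂ) * (((F ζ).toReal : ℝ) : ℂ)) mu := by
    refine (integrable_mul h hF hF' hfin).ofReal.congr ?_
    filter_upwards [h.ae] with ζ hζ
    rw [hζ]; push_cast; rfl
  have e0 : ∫⁻ ζ, ENNReal.ofReal (σ ζ) * ‖(((F ζ).toReal : ℝ) : ℂ)‖ₑ ^ 2 ∂mu =
      ∫⁻ ζ, ENNReal.ofReal (σ' ζ) * F ζ ^ 2 ∂mu := by
    refine lintegral_congr_ae ?_
    filter_upwards [h.ae] with ζ hζ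
    rw [hζ, enorm_toReal_ofReal (hF' ζ)]
  have h1 := hB _ hm.aestronglyMeasurable hint (by rw [e0]; exact lt_top_iff_ne_top.2 hfin)
  rw [e0] at h1
  have e1 : ∫⁻ z, ENNReal.ofReal (w' z) *
      ‖BP (fun ζ => (σ ζ : ℂ) * ((F ζ).toReal : ℂ)) z‖ₑ ^ 2 ∂mu =
      ∫⁻ z, ENNReal.ofReal (w z) *
      ‖BP (fun ζ => (σ ζ : ℂ) * ((F ζ).toReal : ℂ)) z‖ₑ ^ 2 ∂mu := by
    refine lintegral_congr_ae ?_
    filter_upwards [hw.ae] with z hz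
    rw [hz]
  rw [e1] at key
  refine key.trans ?_
  calc _ ≤ 3 * ((C : ℝ≥0∞) * ∫⁻ ζ, ENNReal.ofReal (σ' ζ) * F ζ ^ 2 ∂mu) +
        (3 * (4 * (500 ^ 2 * C₂)) + 3 * (4 * (500 ^ 2 * C₁))) *
          ∫⁻ ζ, ENNReal.ofReal (σ' ζ) * F ζ ^ 2 ∂mu :=
        add_le_add (mul_le_mul' le_rfl h1) le_rfl
    _ = (3 * (C : ℝ≥0∞) + (3 * (4 * (500 ^ 2 * C₂)) + 3 * (4 * (500 ^ 2 * C₁)))) *
          ∫⁻ ζ, ENNReal.ofReal (σ' ζ) * F ζ ^ 2 ∂mu := by ring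
    _ ≤ (3 * (C : ℝ≥0∞) + (3 * (4 * (500 ^ 2 * C₂)) + 3 * (4 * (500 ^ 2 * C₁))) + 1) *
          ∫⁻ ζ, ENNReal.ofReal (σ' ζ) * F ζ ^ 2 ∂mu := mul_le_mul' le_self_add le_rfl

theorem PT_mono {S W : ℂ → ℝ≥0∞} {C C' : ℝ≥0∞} (h : PT S W C) (hC : C ≤ C') : PT S W C' :=
  fun θ ℓ h0 h1 => (h θ ℓ h0 h1).trans (mul_le_mul' hC le_rfl)

/-- **Main theorem.** -/
theorem main (w σ : ℂ → ℝ) (hpos : ∀ z ∈ Metric.ball (0:ℂ) 1, 0 < w z ∧ 0 < σ z)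
    (hwl : LocallyIntegrableOn w (Metric.ball (0:ℂ) 1) volume)
    (hσl : LocallyIntegrableOn σ (Metric.ball (0:ℂ) 1) volume)
    (hM1 : ∃ C : ℝ≥0, ∀ f : ℂ → ℂ, AEStronglyMeasurable f mu →
      ∫⁻ z, ENNReal.ofReal (w z) * (Mx (fun ζ => ‖(σ ζ : ℂ) * f ζ‖ₑ) z) ^ 2 ∂mu
        ≤ (C : ℝ≥0∞) * ∫⁻ ζ, ENNReal.ofReal (σ ζ) * ‖f ζ‖ₑ ^ 2 ∂mu)
    (hM2 : ∃ C : ℝ≥0, ∀ f : ℂ → ℂ, AEStronglyMeasurable f mu →
      ∫⁻ z, ENNReal.ofReal (σ z) * (Mx (fun ζ => ‖(w ζ : ℂ) * f ζ‖ₑ) z) ^ 2 ∂mu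
        ≤ (C : ℝ≥0∞) * ∫⁻ ζ, ENNReal.ofReal (w ζ) * ‖f ζ‖ₑ ^ 2 ∂mu) :
    BPB σ w ↔
     (∃ C₀ : ℝ≥0, ∀ θ ℓ : ℝ, 0 < ℓ → ℓ ≤ 1 →
        (∫⁻ z, ENNReal.ofReal (w z) *
            ‖BP (fun ζ => (box θ ℓ).indicator (fun ξ => (σ ξ : ℂ)) ζ) z‖ₑ ^ 2 ∂mu
          ≤ (C₀ : ℝ≥0∞) * ∫⁻ ζ in box θ ℓ, ENNReal.ofReal (σ ζ) ∂mu) ∧
        (∫⁻ z, ENNReal.ofReal (σ z) *
            ‖BP (fun ζ => (box θ ℓ).indicator (fun ξ => (w ξ : ℂ)) ζ) z‖ₑ ^ 2 ∂mu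
          ≤ (C₀ : ℝ≥0∞) * ∫⁻ ζ in box θ ℓ, ENNReal.ofReal (w ζ) ∂mu)) := by
  obtain ⟨σ', hσ0⟩ := exists_WtR0 (fun z hz => (hpos z hz).2) hσl
  obtain ⟨w', hw0⟩ := exists_WtR0 (fun z hz => (hpos z hz).1) hwl
  obtain ⟨C₁, hC₁⟩ := hM1
  obtain ⟨C₂, hC₂⟩ := hM2
  have hMB1 := MB_of_complex hσ0 hw0 hC₁
  have hMB2 := MB_of_complex hw0 hσ0 hC₂
  have hmu0 : mu ≠ 0 := by
    intro h
    have h1 : mu (Metric.ball (0:ℂ) 1) = 0 := by rw [h]; simp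
    unfold mu at h1
    rw [Measure.smul_apply, smul_eq_mul, mul_eq_zero, Measure.restrict_apply
      Metric.isOpen_ball.measurableSet, Set.inter_self] at h1
    rcases h1 with h1 | h1
    · rw [ENNReal.ofReal_eq_zero] at h1
      have := Real.pi_pos
      have : 0 < Real.pi⁻¹ := by positivity
      linarith
    · exact (Metric.measure_ball_pos volume (0:ℂ) one_pos).ne' h1
  have hne0 : ∀ {u u' : ℂ → ℝ}, WtR0 u u' → ∫⁻ z, ENNReal.ofReal (u' z) ∂mu ≠ 0 := by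
    intro u u' hu h
    rw [lintegral_eq_zero_iff hu.meas.ennreal_ofReal] at h
    have : ∀ᵐ z ∂mu, False := by
      filter_upwards [h, hu.ae, hu.pos] with z h1 h2 h3
      simp only [Pi.zero_apply, ENNReal.ofReal_eq_zero] at h1
      linarith
    rw [Filter.eventually_false_iff_eq_bot, ae_eq_bot] at this
    exact hmu0 this
  have hσfin : ∫⁻ z, ENNReal.ofReal (σ' z) ∂mu ≠ ∞ :=
    int_ne_top_of_MB hσ0.meas.ennreal_ofReal (fun _ => ENNReal.ofReal_ne_top)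
      hw0.meas.ennreal_ofReal (hne0 hw0) ENNReal.coe_ne_top hMB1
  have hwfin : ∫⁻ z, ENNReal.ofReal (w' z) ∂mu ≠ ∞ :=
    int_ne_top_of_MB hw0.meas.ennreal_ofReal (fun _ => ENNReal.ofReal_ne_top)
      hσ0.meas.ennreal_ofReal (hne0 hσ0) ENNReal.coe_ne_top hMB2
  have hσ : WtR σ σ' := ⟨hσ0.meas, hσ0.ae, hσ0.pos, hσfin⟩
  have hw : WtR w w' := ⟨hw0.meas, hw0.ae, hw0.pos, hwfin⟩
  constructor
  · rintro ⟨C, hC⟩
    have hPB := PB_of_BPB hσ hw hMB1 hMB2 hC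
    set K : ℝ≥0∞ := 3 * (C:ℝ≥0∞) + (3 * (4 * (500 ^ 2 * (C₂:ℝ≥0∞))) +
      3 * (4 * (500 ^ 2 * (C₁:ℝ≥0∞)))) + 1 with hK
    have hKf : K ≠ ∞ := by
      have : K = ((3 * C + (3 * (4 * (500 ^ 2 * C₂)) + 3 * (4 * (500 ^ 2 * C₁))) + 1 : ℝ≥0) :
          ℝ≥0∞) := by push_cast; rfl
      rw [this]; exact ENNReal.coe_ne_top
    refine ⟨K.toNNReal, fun θ ℓ _ _ => ?_⟩
    rw [ENNReal.coe_toNNReal hKf]
    exact ⟨test_of_PB hσ hw hPB θ ℓ, test_of_PB hw hσ (PB.symm hσ.wt hw.wt hPB) θ ℓ⟩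
  · rintro ⟨C₀, hC₀⟩
    have hT1 := PT_of_test hσ hw hMB1 hMB2 (fun θ ℓ h0 h1 => (hC₀ θ ℓ h0 h1).1)
    have hT2 := PT_of_test hw hσ hMB2 hMB1 (fun θ ℓ h0 h1 => (hC₀ θ ℓ h0 h1).2)
    set K : ℝ≥0 := 3 * C₀ + (3 * (4 * (500 ^ 2 * C₂)) + 3 * (4 * (500 ^ 2 * C₁))) with hK
    have e1 : (3 * (C₀:ℝ≥0∞) + (3 * (4 * (500 ^ 2 * (C₂:ℝ≥0∞))) +
        3 * (4 * (500 ^ 2 * (C₁:ℝ≥0∞))))) = (K : ℝ≥0∞) := by
      rw [hK]; push_cast; rfl
    have e2 : (3 * (C₀:ℝ≥0∞) + (3 * (4 * (500 ^ 2 * (C₁:ℝ≥0∞))) +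
        3 * (4 * (500 ^ 2 * (C₂:ℝ≥0∞))))) = (K : ℝ≥0∞) := by
      rw [hK]; push_cast; ring
    rw [e1] at hT1
    rw [e2] at hT2
    have hPB := PB_of_PT hσ.wt hw.wt hT2 hT1
    have e3 : (32 ^ 2 * (64 * (200 ^ 2 * (K:ℝ≥0∞)))) =
        ((32 ^ 2 * (64 * (200 ^ 2 * K)) : ℝ≥0) : ℝ≥0∞) := by push_cast; rfl
    rw [e3] at hPB
    exact BPB_of_PB hσ hw hPB

end Pool.Agent.Bergman
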